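import Mathlib
import Pool.Agent.H374R2.V.Defs

/-!
Definitions for the theorem on the Beal and Fermat-Catalan equations with one base `B` of density
one, a second base `A ≤ N ^ (1 - ε)` and an exponent `z ≥ Z₀(ε)` of the third base.

The forms: lacunary polynomials `∑ c (j, l) u ^ (q l + j)` with a zero of maximal order at `u = 1`
(Hermite-Padé forms of the functions `(1 - z) ^ (j / q)`).
-/

namespace Pool.Agent.H374R2.W

open Finset Polynomial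
open Pool.Agent.H374R2.V (HH)

/-- The number of exponents `q l + j` in the class `j` in the `k`-th form. -/
def len (n k j : ℕ) : ℕ := if j = k then n + 1 else n

/-- The constant of the size bound. -/
def cst (m q : ℕ) : ℕ := (15000 * q ^ 9) ^ (m + 1)

/-- `c` is the coefficient system of a `k`-th form: supported on `j ≤ m`, `l < len n k j`, with
`c k n ≠ 0`, bounded, and the lacunary polynomial vanishes to the order `(m + 1) n` at `1`. -/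
structure Form (m q n k : ℕ) (c : ℕ → ℕ → ℤ) : Prop where
  supp : ∀ j l, len n k j ≤ l → c j l = 0
  lead : c k n ≠ 0
  bound : ∀ j l, |c j l| ≤ (cst m q : ℤ) ^ n
  van : ((X : ℤ[X]) - 1) ^ ((m + 1) * n) ∣
    ∑ j ∈ range (m + 1), ∑ l ∈ range (n + 1), C (c j l) * X ^ (q * l + j)

/-- The value of a form. -/
def val (m n : ℕ) (c : ℕ → ℕ → ℤ) (X Y : ℤ) (x : ℕ → ℤ) : ℤ :=
  ∑ j ∈ range (m + 1), ∑ l ∈ range (n + 1), c j l * Y ^ l * X ^ (n - l) * x j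

/-- A solution of `U ^ q - a * V ^ q = T` with `T` highly divisible by `p`. -/
structure SolP (κ : ℝ) (q p : ℕ) (a : ℤ) (U V : ℕ) (T : ℤ) : Prop where
  U0 : 0 < U
  V0 : 0 < V
  T0 : T ≠ 0
  a0 : a ≠ 0
  eq : (U : ℤ) ^ q - a * (V : ℤ) ^ q = T
  UV : Nat.Coprime U V
  Up : ¬ p ∣ U
  Vp : ¬ p ∣ V
  good : ∃ y : ℕ, (p : ℤ) ^ y ∣ T ∧ κ * Real.log (HH q a U V) ≤ y * Real.log p
  large : 50 * (3 / κ + 1) * Real.log (10 ^ 8 * (q : ℝ) ^ 9) ≤ Real.log (HH q a U V)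

/-- A solution of `U ^ q - a * V ^ q = T` with `|T|` small compared with the two powers. -/
structure SolR (κ : ℝ) (q : ℕ) (a : ℤ) (U V : ℕ) (T : ℤ) : Prop where
  U0 : 0 < U
  V0 : 0 < V
  T0 : T ≠ 0
  a0 : 0 < a
  eq : (U : ℤ) ^ q - a * (V : ℤ) ^ q = T
  UV : Nat.Coprime U V
  good : Real.log |(T : ℝ)| ≤ (1 - κ) * Real.log (HH q a U V)
  large : 50 * (3 / κ + 1) * Real.log (10 ^ 8 * (q : ℝ) ^ 9) ≤ Real.log (HH q a U V)

/-- The height of the data. -/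
def ht (q A U x : ℕ) : ℕ := max (U ^ q) (A ^ x)

/-- The integers `B ≤ N` divisible by `p` in a solution of the `p`-adic kind. -/
def SetP (κ : ℝ) (N q i p A : ℕ) (s σ : ℤ) : Set ℕ :=
  {B | 0 < B ∧ B ≤ N ∧ p ∣ B ∧ Nat.Coprime A B ∧ (¬ ∃ w k : ℕ, 2 ≤ k ∧ B = w ^ k) ∧
    ∃ x' y U : ℕ, 0 < y ∧ 0 < U ∧ (U : ℤ) ^ q - s * (A : ℤ) ^ (q * x' + i) = σ * (B : ℤ) ^ y ∧
      κ * Real.log (ht q A U (q * x' + i)) ≤ y * Real.log p ∧
      50 * (3 / κ + 1) * Real.log (10 ^ 8 * (q : ℝ) ^ 9) ≤ Real.log (ht q A U (q * x' + i))}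

/-- The integers `B ≤ N` in a solution of the real kind. -/
def SetR (κ : ℝ) (N q i A : ℕ) (σ : ℤ) : Set ℕ :=
  {B | 0 < B ∧ B ≤ N ∧ Nat.Coprime A B ∧ (¬ ∃ w k : ℕ, 2 ≤ k ∧ B = w ^ k) ∧
    ∃ x' y U : ℕ, 0 < y ∧ 0 < U ∧ (U : ℤ) ^ q - (A : ℤ) ^ (q * x' + i) = σ * (B : ℤ) ^ y ∧
      y * Real.log B ≤ (1 - κ) * Real.log (ht q A U (q * x' + i)) ∧
      50 * (3 / κ + 1) * Real.log (10 ^ 8 * (q : ℝ) ^ 9) ≤ Real.log (ht q A U (q * x' + i))}

end Pool.Agent.H374R2.W
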