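import Mathlib
import Pool.Agent.H374R2.W.Defs

/-!
Task A1: Lagrange weights give a zero of maximal order at `1`.
-/

namespace Pool.Agent.H374R2.W.A1

open Finset Polynomial

/-- `∑ choose (s, i) / ∏ (s - t) = 0` for `i < |S| - 1`. -/
theorem sum_choose_div {S : Finset ℕ} {i : ℕ} (hi : i < S.card - 1) :
    ∑ s ∈ S, (s.choose i : ℚ) / ∏ t ∈ S.erase s, ((s : ℚ) - t) = 0 := by
  have hinj : Set.InjOn (fun s : ℕ => (s : ℚ)) (S : Set ℕ) := fun a _ b _ h =>
    Nat.cast_injective (R := ℚ) h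
  set f : ℚ[X] := C ((i.factorial : ℚ)⁻¹) * descPochhammer ℚ i with hf
  have hdeg : f.degree < ((S.card - 1 : ℕ) : WithBot ℕ) := by
    have h1 : f.degree ≤ ((i : ℕ) : WithBot ℕ) := by
      rw [hf]
      refine degree_le_natDegree.trans ?_
      have h2 := natDegree_C_mul_le ((i.factorial : ℚ)⁻¹) (descPochhammer ℚ i)
      rw [descPochhammer_natDegree] at h2
      exact_mod_cast h2
    exact lt_of_le_of_lt h1 (by exact_mod_cast hi)
  have hdeg2 : f.degree < ((S.card : ℕ) : WithBot ℕ) :=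
    lt_of_lt_of_le hdeg (by exact_mod_cast Nat.sub_le _ _)
  have h := Lagrange.coeff_eq_sum hinj hdeg2
  rw [coeff_eq_zero_of_degree_lt hdeg] at h
  rw [h]
  refine Finset.sum_congr rfl (fun s _ => ?_)
  congr 1
  rw [hf, eval_mul, eval_C, descPochhammer_eval_eq_descFactorial, Nat.descFactorial_eq_factorial_mul_choose]
  have h0 : (i.factorial : ℚ) ≠ 0 := by exact_mod_cast Nat.factorial_ne_zero i
  push_cast
  field_simp

/-- Task A1 (Lagrange weights give a zero of maximal order at `1`). -/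
theorem vanish {S : Finset ℕ} (w : ℕ → ℤ) (D : ℚ)
    (hw : ∀ s ∈ S, (w s : ℚ) = D / ∏ t ∈ S.erase s, ((s : ℚ) - t)) :
    ((X : ℤ[X]) - 1) ^ (S.card - 1) ∣ ∑ s ∈ S, C (w s) * X ^ s := by
  rw [show ((X : ℤ[X]) - 1) = X - C 1 by simp, X_sub_C_pow_dvd_iff, X_pow_dvd_iff]
  intro d hd
  have h1 : ((∑ s ∈ S, C (w s) * X ^ s : ℤ[X]).comp (X + C 1)).coeff d =
      ∑ s ∈ S, w s * (s.choose d : ℤ) := by
    rw [Polynomial.sum_comp, finsetSum_coeff]
    refine Finset.sum_congr rfl (fun s _ => ?_)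
    rw [mul_comp, C_comp, X_pow_comp, coeff_C_mul, map_one, coeff_X_add_one_pow]
  rw [h1]
  have h2 : ((∑ s ∈ S, w s * (s.choose d : ℤ) : ℤ) : ℚ) = 0 := by
    push_cast
    have h3 : ∑ s ∈ S, (w s : ℚ) * (s.choose d : ℚ) =
        D * ∑ s ∈ S, (s.choose d : ℚ) / ∏ t ∈ S.erase s, ((s : ℚ) - t) := by
      rw [Finset.mul_sum]
      refine Finset.sum_congr rfl (fun s hs => ?_)
      rw [hw s hs]
      ring
    rw [h3, sum_choose_div hd, mul_zero]
  exact_mod_cast h2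

end Pool.Agent.H374R2.W.A1
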