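import Mathlib
import Pool.Agent.H374R2.W.Defs
import Pool.Agent.H374R2.V.P2

/-!
Task A2: integrality and size of the Lagrange weights, used classes.
-/

namespace Pool.Agent.H374R2.W.A2

open Finset

theorem lcmUpto_le (n : ℕ) : Nat.lcmUpto n ≤ 219 ^ n := by
  have h1 := Chebyshev.psi_eq_log_lcmUpto n
  have h2 : Chebyshev.psi (n : ℝ) ≤ (Real.log 4 + 4) * n :=
    Chebyshev.psi_le_const_mul_self (Nat.cast_nonneg n)
  have hpos : (0 : ℝ) < (Nat.lcmUpto n : ℝ) := by exact_mod_cast Nat.lcmUpto_pos n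
  have h3 : Real.log (Nat.lcmUpto n) ≤ (Real.log 4 + 4) * n := by
    rw [← h1]; exact h2
  have h4 : (Nat.lcmUpto n : ℝ) ≤ Real.exp ((Real.log 4 + 4) * n) :=
    (Real.log_le_iff_le_exp hpos).1 h3
  have h5 : Real.exp ((Real.log 4 + 4) * n) = (4 * Real.exp 1 ^ 4) ^ n := by
    rw [mul_comm, Real.exp_nat_mul, Real.exp_add, Real.exp_log (by norm_num)]
    congr 2
    rw [← Real.exp_nat_mul]
    norm_num
  have h6 : 4 * Real.exp 1 ^ 4 ≤ 219 := by
    have h7 : Real.exp 1 ≤ 2.7182818286 := Real.exp_one_lt_d9.le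
    have h8 : Real.exp 1 ^ 4 ≤ 2.7182818286 ^ 4 := pow_le_pow_left₀ (Real.exp_pos 1).le h7 4
    norm_num at h8 ⊢
    linarith
  have h9 : (Nat.lcmUpto n : ℝ) ≤ (219 : ℝ) ^ n := by
    rw [h5] at h4
    exact h4.trans (pow_le_pow_left₀ (by positivity) h6 n)
  exact_mod_cast h9

theorem choose_dvd_lcmUpto (n l : ℕ) (hl : l ≤ n) : Nat.choose n l ∣ Nat.lcmUpto n := by
  rw [← Nat.factorization_le_iff_dvd (Nat.choose_pos hl).ne' (Nat.lcmUpto_ne_zero n)]
  intro p
  by_cases hp : p.Prime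
  · rw [Nat.factorization_lcmUpto n hp]
    exact Nat.factorization_choose_le_log
  · rw [Nat.factorization_eq_zero_of_not_prime _ hp]
    exact Nat.zero_le _

/-- the part of the product above the window -/
def Q2 (q n l : ℕ) (δ : ℤ) : ℤ := ∏ t ∈ range (n - l), (δ + (n : ℤ) * q - t * q)

/-- the part of the product below the window -/
def Q1 (q n l r : ℕ) (δ : ℤ) : ℤ :=
  ∏ t ∈ range (n + l + 1 - r), (δ + ((l : ℤ) - r) * q - t * q)

theorem split {q n l r : ℕ} {δ : ℤ} (hl : l ≤ n) (hr : r ≤ n + 1) :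
    ∏ t ∈ range (2 * n + 1), ((δ : ℚ) + ((n : ℚ) - t) * q) =
      (Q2 q n l δ : ℚ) * (∏ t ∈ range r, ((δ : ℚ) + ((l : ℚ) - t) * q)) * (Q1 q n l r δ : ℚ) := by
  have e : 2 * n + 1 = ((n - l) + r) + (n + l + 1 - r) := by omega
  rw [e, Finset.prod_range_add, Finset.prod_range_add]
  unfold Q2 Q1
  rw [Int.cast_prod, Int.cast_prod]
  congr 1
  · congr 1
    · refine Finset.prod_congr rfl fun t _ => ?_
      push_cast
      ring
    · refine Finset.prod_congr rfl fun t _ => ?_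
      have h1 : (((n - l) + t : ℕ) : ℚ) = (n : ℚ) - l + t := by
        rw [Nat.cast_add, Nat.cast_sub hl]
      rw [h1]
      ring
  · refine Finset.prod_congr rfl fun t _ => ?_
    have h1 : (((n - l) + r + t : ℕ) : ℚ) = (n : ℚ) - l + r + t := by
      rw [Nat.cast_add, Nat.cast_add, Nat.cast_sub hl]
    rw [h1]
    push_cast
    ring

theorem dvd1 {q n l r : ℕ} {δ : ℤ} (hq : IsPrimePow q) (hl : l ≤ n) (hr1 : n ≤ r)
    (hr : r ≤ n + 1) : (n.factorial : ℤ) ∣
      (Nat.lcmUpto n : ℤ) * (q : ℤ) ^ (n + 1) * (Q2 q n l δ * Q1 q n l r δ) := by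
  have h1 : ((n - l).factorial : ℤ) ∣ (q : ℤ) ^ (n - l) * Q2 q n l δ :=
    Pool.Agent.H374R2.V.P2.fact_dvd (n - l) hq (δ + (n : ℤ) * q)
  have h2 : ((n + l + 1 - r).factorial : ℤ) ∣ (q : ℤ) ^ (n + l + 1 - r) * Q1 q n l r δ :=
    Pool.Agent.H374R2.V.P2.fact_dvd (n + l + 1 - r) hq (δ + ((l : ℤ) - r) * q)
  have h3 : (l.factorial : ℤ) ∣ ((n + l + 1 - r).factorial : ℤ) := by
    exact_mod_cast Nat.factorial_dvd_factorial (by omega)
  have h4 := mul_dvd_mul (h3.trans h2) h1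
  have h5 : (Nat.choose n l : ℤ) ∣ (Nat.lcmUpto n : ℤ) := by
    exact_mod_cast choose_dvd_lcmUpto n l hl
  have h6 := mul_dvd_mul h5 h4
  have e1 : (Nat.choose n l : ℤ) * ((l.factorial : ℤ) * ((n - l).factorial : ℤ)) =
      (n.factorial : ℤ) := by
    rw [← mul_assoc]
    exact_mod_cast Nat.choose_mul_factorial_mul_factorial hl
  rw [e1] at h6
  refine h6.trans ?_
  have e2 : (q : ℤ) ^ (n + 1) = (q : ℤ) ^ (n + l + 1 - r) * (q : ℤ) ^ (n - l) *
      (q : ℤ) ^ (n + 1 - ((n + l + 1 - r) + (n - l))) := by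
    rw [← pow_add, ← pow_add]
    congr 1
    omega
  refine ⟨(q : ℤ) ^ (n + 1 - ((n + l + 1 - r) + (n - l))), ?_⟩
  rw [e2]
  ring

theorem Q2_le {q n l : ℕ} {δ : ℤ} (hl : l ≤ n) (hδq : |δ| < q) :
    |Q2 q n l δ| ≤ (q : ℤ) ^ (n - l) * ((n + 1).descFactorial (n - l) : ℤ) := by
  unfold Q2
  rw [Finset.abs_prod, Nat.descFactorial_eq_prod_range, Nat.cast_prod]
  have e : (q : ℤ) ^ (n - l) = ∏ _t ∈ range (n - l), (q : ℤ) := by
    rw [Finset.prod_const, Finset.card_range]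
  rw [e, ← Finset.prod_mul_distrib]
  refine Finset.prod_le_prod (fun t _ => abs_nonneg _) (fun t ht => ?_)
  rw [Finset.mem_range] at ht
  have h1 : ((n + 1 - t : ℕ) : ℤ) = (n : ℤ) + 1 - t := by
    rw [Nat.cast_sub (by omega)]; push_cast; ring
  rw [h1]
  have h2 : (0 : ℤ) ≤ (n : ℤ) - t := by omega
  calc |δ + (n : ℤ) * q - t * q| = |δ + ((n : ℤ) - t) * q| := by congr 1; ring
    _ ≤ |δ| + |((n : ℤ) - t) * q| := abs_add_le _ _
    _ = |δ| + ((n : ℤ) - t) * q := by
        rw [abs_of_nonneg (mul_nonneg h2 (Nat.cast_nonneg q))]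
    _ ≤ q + ((n : ℤ) - t) * q := by linarith
    _ = q * ((n : ℤ) + 1 - t) := by ring

theorem Q1_le {q n l r : ℕ} {δ : ℤ} (hl : l ≤ r) (hδq : |δ| < q) :
    |Q1 q n l r δ| ≤ (q : ℤ) ^ (n + l + 1 - r) *
      ((r - l + 1).ascFactorial (n + l + 1 - r) : ℤ) := by
  unfold Q1
  rw [Finset.abs_prod, Nat.ascFactorial_eq_prod_range, Nat.cast_prod]
  have e : (q : ℤ) ^ (n + l + 1 - r) = ∏ _t ∈ range (n + l + 1 - r), (q : ℤ) := by
    rw [Finset.prod_const, Finset.card_range]
  rw [e, ← Finset.prod_mul_distrib]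
  refine Finset.prod_le_prod (fun t _ => abs_nonneg _) (fun t ht => ?_)
  have h1 : ((r - l + 1 + t : ℕ) : ℤ) = (r : ℤ) - l + 1 + t := by
    push_cast [Nat.cast_sub hl]; ring
  rw [h1]
  have h2 : (0 : ℤ) ≤ (r : ℤ) - l + t := by omega
  calc |δ + ((l : ℤ) - r) * q - t * q| = |δ + -(((r : ℤ) - l + t) * q)| := by congr 1; ring
    _ ≤ |δ| + |-(((r : ℤ) - l + t) * q)| := abs_add_le _ _
    _ = |δ| + ((r : ℤ) - l + t) * q := by
        rw [abs_neg, abs_of_nonneg (mul_nonneg h2 (Nat.cast_nonneg q))]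
    _ ≤ q + ((r : ℤ) - l + t) * q := by linarith
    _ = q * ((r : ℤ) - l + 1 + t) := by ring

/-- the factorial estimate -/
theorem fact_le {n l r : ℕ} (hl : l ≤ n) (hr : r = n ∨ r = n + 1) :
    (n + 1).descFactorial (n - l) * (r - l + 1).ascFactorial (n + l + 1 - r) ≤
      (n + 1).factorial * 2 ^ (n + 1) := by
  have h1 : (l + 1).factorial * (n + 1).descFactorial (n - l) = (n + 1).factorial := by
    have := Nat.factorial_mul_descFactorial (n := n + 1) (k := n - l) (by omega)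
    rwa [show n + 1 - (n - l) = l + 1 by omega] at this
  have h2 : (r - l).factorial * (r - l + 1).ascFactorial (n + l + 1 - r) = (n + 1).factorial := by
    have := Nat.factorial_mul_ascFactorial (r - l) (n + l + 1 - r)
    rwa [show r - l + (n + l + 1 - r) = n + 1 by omega] at this
  have h3 : (n + 1).factorial ≤ (l + 1).factorial * (r - l).factorial * 2 ^ (n + 1) := by
    rcases hr with hr | hr
    · have h4 := Nat.choose_mul_factorial_mul_factorial (n := n + 1) (k := l + 1) (by omega)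
      rw [show n + 1 - (l + 1) = r - l by omega] at h4
      rw [← h4]
      calc (n + 1).choose (l + 1) * (l + 1).factorial * (r - l).factorial
          ≤ 2 ^ (n + 1) * (l + 1).factorial * (r - l).factorial := by
            gcongr
            exact Nat.choose_le_two_pow _ _
        _ = _ := by ring
    · have h4 := Nat.choose_mul_factorial_mul_factorial (n := n + 2) (k := l + 1) (by omega)
      rw [show n + 2 - (l + 1) = r - l by omega, Nat.factorial_succ (n + 1)] at h4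
      have h5 : (n + 2).choose (l + 1) ≤ 2 ^ (n + 2) := Nat.choose_le_two_pow _ _
      have h6 : (n + 1 + 1) * (n + 1).factorial ≤
          (n + 1 + 1) * ((l + 1).factorial * (r - l).factorial * 2 ^ (n + 1)) := by
        rw [← h4]
        calc (n + 2).choose (l + 1) * (l + 1).factorial * (r - l).factorial
            ≤ 2 ^ (n + 2) * (l + 1).factorial * (r - l).factorial := by gcongr
          _ = 2 * ((l + 1).factorial * (r - l).factorial * 2 ^ (n + 1)) := by ring
          _ ≤ (n + 1 + 1) * ((l + 1).factorial * (r - l).factorial * 2 ^ (n + 1)) := by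
              gcongr
              omega
      exact Nat.le_of_mul_le_mul_left h6 (by omega)
  have hpos : 0 < (l + 1).factorial * (r - l).factorial :=
    Nat.mul_pos (Nat.factorial_pos _) (Nat.factorial_pos _)
  refine Nat.le_of_mul_le_mul_left ?_ hpos
  calc (l + 1).factorial * (r - l).factorial *
        ((n + 1).descFactorial (n - l) * (r - l + 1).ascFactorial (n + l + 1 - r))
      = ((l + 1).factorial * (n + 1).descFactorial (n - l)) *
        ((r - l).factorial * (r - l + 1).ascFactorial (n + l + 1 - r)) := by ring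
    _ = (n + 1).factorial * (n + 1).factorial := by rw [h1, h2]
    _ ≤ (n + 1).factorial * ((l + 1).factorial * (r - l).factorial * 2 ^ (n + 1)) :=
        Nat.mul_le_mul_left _ h3
    _ = (l + 1).factorial * (r - l).factorial * ((n + 1).factorial * 2 ^ (n + 1)) := by ring

/-- Task A2 (one class of nodes: integrality and size). -/
theorem window {q n l r : ℕ} {δ : ℤ} (hq : IsPrimePow q) (hn : 1 ≤ n) (hl : l ≤ n)
    (hr : r = n ∨ r = n + 1) (hδ : δ ≠ 0) (hδq : |δ| < q) :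
    ∃ z : ℤ, (z : ℚ) * (∏ t ∈ range r, ((δ : ℚ) + ((l : ℚ) - t) * q)) * n.factorial =
        (Nat.lcmUpto n : ℚ) * (q : ℚ) ^ (n + 1) *
          (∏ t ∈ range (2 * n + 1), ((δ : ℚ) + ((n : ℚ) - t) * q)) ∧
      |z| ≤ ((1752 * q ^ 4) ^ n : ℕ) := by
  have hr1 : n ≤ r := by omega
  have hr2 : r ≤ n + 1 := by omega
  obtain ⟨z, hz⟩ := dvd1 (δ := δ) hq hl hr1 hr2
  refine ⟨z, ?_, ?_⟩
  · rw [split hl hr2]
    have hz' : (Nat.lcmUpto n : ℚ) * (q : ℚ) ^ (n + 1) * ((Q2 q n l δ : ℚ) * (Q1 q n l r δ : ℚ)) =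
        (n.factorial : ℚ) * (z : ℚ) := by exact_mod_cast hz
    generalize ∏ t ∈ range r, ((δ : ℚ) + ((l : ℚ) - t) * q) = W
    calc (z : ℚ) * W * n.factorial = (n.factorial : ℚ) * (z : ℚ) * W := by ring
      _ = (Nat.lcmUpto n : ℚ) * (q : ℚ) ^ (n + 1) *
          ((Q2 q n l δ : ℚ) * W * (Q1 q n l r δ : ℚ)) := by rw [← hz']; ring
  · have hq1 : 1 ≤ q := hq.one_lt.le
    have hf : (0 : ℤ) < (n.factorial : ℤ) := by exact_mod_cast Nat.factorial_pos n
    have h1 : (n.factorial : ℤ) * |z| = (Nat.lcmUpto n : ℤ) * (q : ℤ) ^ (n + 1) *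
        (|Q2 q n l δ| * |Q1 q n l r δ|) := by
      rw [← abs_mul (Q2 q n l δ), ← abs_of_pos hf, ← abs_mul, ← hz, abs_mul]
      congr 1
      exact abs_of_nonneg (by positivity)
    have h2 := Q2_le (δ := δ) hl hδq
    have h3 := Q1_le (n := n) (δ := δ) (hl.trans hr1) hδq
    have h4 : |Q2 q n l δ| * |Q1 q n l r δ| ≤ (q : ℤ) ^ (2 * n + 1 - r) *
        ((n + 1).factorial * 2 ^ (n + 1) : ℕ) := by
      calc |Q2 q n l δ| * |Q1 q n l r δ| ≤ ((q : ℤ) ^ (n - l) *
            ((n + 1).descFactorial (n - l) : ℤ)) * ((q : ℤ) ^ (n + l + 1 - r) *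
            ((r - l + 1).ascFactorial (n + l + 1 - r) : ℤ)) :=
            mul_le_mul h2 h3 (abs_nonneg _) (by positivity)
        _ = ((q : ℤ) ^ (n - l) * (q : ℤ) ^ (n + l + 1 - r)) *
            (((n + 1).descFactorial (n - l) * (r - l + 1).ascFactorial (n + l + 1 - r) : ℕ) : ℤ) := by
            push_cast; ring
        _ ≤ (q : ℤ) ^ (2 * n + 1 - r) * ((n + 1).factorial * 2 ^ (n + 1) : ℕ) := by
            rw [← pow_add, show n - l + (n + l + 1 - r) = 2 * n + 1 - r by omega]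
            refine mul_le_mul_of_nonneg_left ?_ (by positivity)
            exact_mod_cast fact_le hl hr
    have h5 : (Nat.lcmUpto n : ℤ) ≤ 219 ^ n := by exact_mod_cast lcmUpto_le n
    have h6 : (q : ℤ) ^ (n + 1) * (q : ℤ) ^ (2 * n + 1 - r) ≤ (q : ℤ) ^ (4 * n) := by
      rw [← pow_add]
      exact pow_le_pow_right₀ (by exact_mod_cast hq1) (by omega)
    have h7 : ((n + 1) * 2 ^ (n + 1) : ℤ) ≤ 8 ^ n := by
      have a1 : (n + 1 : ℕ) ≤ 2 ^ n := Nat.lt_two_pow_self
      have a2 : 2 ^ (n + 1) ≤ 2 ^ (2 * n) := Nat.pow_le_pow_right (by norm_num) (by omega)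
      have a3 : (n + 1) * 2 ^ (n + 1) ≤ 2 ^ n * 2 ^ (2 * n) := Nat.mul_le_mul a1 a2
      have a4 : 2 ^ n * 2 ^ (2 * n) = 8 ^ n := by
        rw [← pow_add, show n + 2 * n = 3 * n by ring, pow_mul]; norm_num
      rw [a4] at a3
      exact_mod_cast a3
    have h8 : (n.factorial : ℤ) * |z| ≤ (n.factorial : ℤ) * (((1752 * q ^ 4) ^ n : ℕ) : ℤ) := by
      rw [h1]
      calc (Nat.lcmUpto n : ℤ) * (q : ℤ) ^ (n + 1) * (|Q2 q n l δ| * |Q1 q n l r δ|)
          ≤ 219 ^ n * (q : ℤ) ^ (n + 1) * ((q : ℤ) ^ (2 * n + 1 - r) *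
            ((n + 1).factorial * 2 ^ (n + 1) : ℕ)) := by
            refine mul_le_mul ?_ h4 (by positivity) (by positivity)
            exact mul_le_mul_of_nonneg_right h5 (by positivity)
        _ = 219 ^ n * ((q : ℤ) ^ (n + 1) * (q : ℤ) ^ (2 * n + 1 - r)) * (n.factorial : ℤ) *
            ((n + 1) * 2 ^ (n + 1)) := by
            rw [Nat.factorial_succ]; push_cast; ring
        _ ≤ 219 ^ n * (q : ℤ) ^ (4 * n) * (n.factorial : ℤ) * 8 ^ n := by
            refine mul_le_mul ?_ h7 (by positivity) (by positivity)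
            refine mul_le_mul_of_nonneg_right ?_ (by positivity)
            exact mul_le_mul_of_nonneg_left h6 (by positivity)
        _ = (n.factorial : ℤ) * (((1752 * q ^ 4) ^ n : ℕ) : ℤ) := by
            push_cast
            rw [show (1752 : ℤ) = 219 * 8 by norm_num, mul_pow, mul_pow, ← pow_mul]
            ring
    exact le_of_mul_le_mul_left h8 hf

end Pool.Agent.H374R2.W.A2
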