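import Mathlib
import Pool.Agent.H374R2.W.Defs
import Pool.Agent.H374R2.V.P2

/-! Task A2b: integrality and size, unused classes and `δ = 0`. -/

namespace Pool.Agent.H374R2.W.A2b

open Finset

theorem succ_le_two_pow (n : ℕ) : n + 1 ≤ 2 ^ n := Nat.lt_two_pow_self

theorem prod_erase_split (f : ℕ → ℚ) (l m : ℕ) :
    ∏ t ∈ (range (l + 1 + m)).erase l, f t =
      (∏ t ∈ range l, f t) * ∏ t ∈ range m, f (l + 1 + t) := by
  induction m with
  | zero =>
    rw [add_zero, Finset.range_add_one, Finset.erase_insert (by simp)]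
    simp
  | succ m ih =>
    rw [← add_assoc, Finset.range_add_one, Finset.erase_insert_of_ne (by omega),
      Finset.prod_insert (by simp), ih, Finset.prod_range_succ]
    ring

theorem prod_low (q l : ℕ) : ∏ t ∈ range l, (((l : ℚ) - t) * q) = (q : ℚ) ^ l * l.factorial := by
  rw [← Finset.prod_range_reflect]
  have : ∀ j ∈ range l, (((l : ℚ) - (l - 1 - j : ℕ)) * q) = (q : ℚ) * ((j + 1 : ℕ) : ℚ) := by
    intro j hj
    rw [Finset.mem_range] at hj
    have h1 : ((l - 1 - j : ℕ) : ℚ) = (l : ℚ) - 1 - j := by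
      rw [Nat.cast_sub (by omega), Nat.cast_sub (by omega)]; simp
    rw [h1]; push_cast; ring
  rw [Finset.prod_congr rfl this, Finset.prod_mul_distrib, Finset.prod_const, Finset.card_range,
    ← Nat.cast_prod, Finset.prod_range_add_one_eq_factorial]

theorem prod_high (q l m : ℕ) : ∏ t ∈ range m, (((l : ℚ) - (l + 1 + t : ℕ)) * q) =
    (-1) ^ m * ((q : ℚ) ^ m * m.factorial) := by
  have : ∀ j ∈ range m, (((l : ℚ) - (l + 1 + j : ℕ)) * q) = (-1) * ((q : ℚ) * ((j + 1 : ℕ) : ℚ)) := by
    intro j _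
    push_cast; ring
  rw [Finset.prod_congr rfl this, Finset.prod_mul_distrib, Finset.prod_mul_distrib,
    Finset.prod_const, Finset.prod_const, Finset.card_range,
    ← Nat.cast_prod, Finset.prod_range_add_one_eq_factorial]

theorem prod_all (q l m : ℕ) :
    ∏ t ∈ (range (l + 1 + m)).erase l, (((l : ℚ) - t) * q) =
      (-1) ^ m * ((q : ℚ) ^ (l + m) * (l.factorial * m.factorial)) := by
  rw [prod_erase_split (fun t => ((l : ℚ) - t) * q), prod_low, prod_high, pow_add]
  ring

theorem abs_prod_le (n : ℕ) (q : ℕ) (f : ℕ → ℤ) (h : ∀ t < n, |f t| ≤ ((t + 2 : ℕ) : ℤ) * q) :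
    |∏ t ∈ range n, f t| ≤ (q : ℤ) ^ n * ((n + 1).factorial : ℤ) := by
  rw [Finset.abs_prod]
  calc ∏ t ∈ range n, |f t| ≤ ∏ t ∈ range n, (((t + 2 : ℕ) : ℤ) * q) :=
        Finset.prod_le_prod (fun t _ => abs_nonneg _) (fun t ht => h t (Finset.mem_range.mp ht))
    _ = (q : ℤ) ^ n * ((n + 1).factorial : ℤ) := by
        rw [Finset.prod_mul_distrib, Finset.prod_const, Finset.card_range, ← Nat.cast_prod]
        have : ∏ t ∈ range n, (t + 2) = (n + 1).factorial := by
          rw [← Finset.prod_range_add_one_eq_factorial, Finset.prod_range_succ']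
          simp
        rw [this]; ring

/-- Task A2' (the unused classes and the class `δ = 0`). -/
theorem window' {q n : ℕ} (hq : IsPrimePow q) (hn : 1 ≤ n) :
    (∀ δ : ℤ, δ ≠ 0 → |δ| < q → ∃ z : ℤ, (z : ℚ) * (n.factorial : ℚ) ^ 2 =
        (q : ℚ) ^ (2 * n) * ∏ t ∈ range (2 * n + 1), ((δ : ℚ) + ((n : ℚ) - t) * q) ∧
      |z| ≤ ((4 * q ^ 5) ^ n : ℕ)) ∧
    (∀ r l : ℕ, r = n ∨ r = n + 1 → l < r → ∃ z : ℤ,
      (z : ℚ) * ∏ t ∈ (range r).erase l, (((l : ℚ) - t) * q) = (q : ℚ) ^ n * n.factorial ∧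
      |z| ≤ ((4 * q) ^ n : ℕ)) := by
  have hq1 : 1 ≤ q := hq.pos
  refine ⟨?_, ?_⟩
  · intro δ _ hδ
    obtain ⟨u1, hu1⟩ := V.P2.fact_dvd n hq (δ + n * q)
    obtain ⟨u3, hu3⟩ := V.P2.fact_dvd n hq (δ - q)
    have hEint : ∏ t ∈ range (2 * n + 1), (δ + ((n : ℤ) - t) * q) =
        (∏ j ∈ range n, (δ + n * q - j * q)) * δ * ∏ j ∈ range n, (δ - q - j * q) := by
      rw [show 2 * n + 1 = n + 1 + n by ring, Finset.prod_range_add, Finset.prod_range_succ]
      congr 1
      · congr 1
        · apply Finset.prod_congr rfl; intro t _; ring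
        · ring
      · apply Finset.prod_congr rfl; intro t _; push_cast; ring
    have hZ : (u1 * δ * u3) * (n.factorial : ℤ) ^ 2 =
        (q : ℤ) ^ (2 * n) * ∏ t ∈ range (2 * n + 1), (δ + ((n : ℤ) - t) * q) := by
      rw [hEint]
      calc (u1 * δ * u3) * (n.factorial : ℤ) ^ 2
          = ((n.factorial : ℤ) * u1) * δ * ((n.factorial : ℤ) * u3) := by ring
        _ = _ := by rw [← hu1, ← hu3]; ring
    refine ⟨u1 * δ * u3, ?_, ?_⟩
    · exact_mod_cast hZ
    · have hF0 : (0 : ℤ) < (n.factorial : ℤ) := by exact_mod_cast n.factorial_pos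
      have hq0 : (0 : ℤ) < q := by exact_mod_cast hq1
      obtain ⟨d1, d2⟩ := abs_lt.mp hδ
      have hP1 : |∏ j ∈ range n, (δ + n * q - j * q)| ≤ (q : ℤ) ^ n * ((n + 1).factorial : ℤ) := by
        rw [← Finset.prod_range_reflect]
        apply abs_prod_le
        intro t ht
        have h1 : ((n - 1 - t : ℕ) : ℤ) = (n : ℤ) - 1 - t := by
          rw [Nat.cast_sub (by omega), Nat.cast_sub (by omega)]; simp
        rw [h1, show δ + (n : ℤ) * q - ((n : ℤ) - 1 - t) * q = δ + (1 + t) * q by ring]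
        push_cast
        rw [abs_le]
        constructor <;> nlinarith
      have hP3 : |∏ j ∈ range n, (δ - q - j * q)| ≤ (q : ℤ) ^ n * ((n + 1).factorial : ℤ) := by
        apply abs_prod_le
        intro t ht
        push_cast
        rw [abs_le]
        constructor <;> nlinarith
      have hmain : |u1 * δ * u3| * (n.factorial : ℤ) ^ 2 ≤
          ((4 * q ^ 5) ^ n : ℕ) * (n.factorial : ℤ) ^ 2 := by
        have h1 : |u1 * δ * u3| * (n.factorial : ℤ) ^ 2 =
            (q : ℤ) ^ (2 * n) * (|∏ j ∈ range n, (δ + n * q - j * q)| * |δ| *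
              |∏ j ∈ range n, (δ - q - j * q)|) := by
          rw [← abs_of_pos (pow_pos hF0 2), ← abs_mul, hZ, hEint, abs_mul, abs_mul, abs_mul,
            abs_of_pos (pow_pos hq0 (2 * n))]
        rw [h1]
        have h2 : |∏ j ∈ range n, (δ + n * q - j * q)| * |δ| * |∏ j ∈ range n, (δ - q - j * q)| ≤
            ((q : ℤ) ^ n * ((n + 1).factorial : ℤ)) * q * ((q : ℤ) ^ n * ((n + 1).factorial : ℤ)) := by
          apply mul_le_mul _ hP3 (abs_nonneg _) (by positivity)
          exact mul_le_mul hP1 hδ.le (abs_nonneg _) (by positivity)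
        have h3 : ((n : ℤ) + 1) ≤ 2 ^ n := by exact_mod_cast succ_le_two_pow n
        have h4 : (q : ℤ) ^ (4 * n + 1) ≤ (q : ℤ) ^ (5 * n) :=
          pow_le_pow_right₀ (by exact_mod_cast hq1) (by omega)
        calc (q : ℤ) ^ (2 * n) * _ ≤ (q : ℤ) ^ (2 * n) *
              (((q : ℤ) ^ n * ((n + 1).factorial : ℤ)) * q *
                ((q : ℤ) ^ n * ((n + 1).factorial : ℤ))) :=
              mul_le_mul_of_nonneg_left h2 (by positivity)
          _ = (q : ℤ) ^ (4 * n + 1) * (((n : ℤ) + 1) * ((n : ℤ) + 1)) * (n.factorial : ℤ) ^ 2 := by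
              rw [Nat.factorial_succ]
              push_cast
              ring
          _ ≤ (q : ℤ) ^ (5 * n) * ((2 ^ n) * (2 ^ n)) * (n.factorial : ℤ) ^ 2 := by
              gcongr
          _ = _ := by
              push_cast
              rw [mul_pow, ← pow_mul, show (4 : ℤ) = 2 * 2 by norm_num, mul_pow]
              ring
      exact le_of_mul_le_mul_right hmain (by positivity)
  · intro r l hr hl
    obtain ⟨m, rfl⟩ := Nat.exists_eq_add_of_lt hl
    rw [show l + m + 1 = l + 1 + m by ring] at hr ⊢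
    rw [prod_all]
    have hch : (Nat.choose (l + m) l : ℚ) * (l.factorial * m.factorial) = (l + m).factorial := by
      have h := Nat.choose_mul_factorial_mul_factorial (Nat.le_add_right l m)
      rw [Nat.add_sub_cancel_left] at h
      rw [← h]; push_cast; ring
    have hs : ((-1 : ℚ) ^ m) * (-1) ^ m = 1 := by
      rw [← mul_pow]; norm_num
    rcases hr with hr | hr
    · refine ⟨(-1) ^ m * (Nat.choose (l + m) l * (n * q) : ℕ), ?_, ?_⟩
      · push_cast
        have hn2 : n = (l + m) + 1 := by omega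
        calc (-1 : ℚ) ^ m * ((Nat.choose (l + m) l : ℚ) * (n * q)) *
              ((-1) ^ m * ((q : ℚ) ^ (l + m) * (l.factorial * m.factorial)))
            = ((-1 : ℚ) ^ m * (-1) ^ m) * (n * (q * (q : ℚ) ^ (l + m)) *
              ((Nat.choose (l + m) l : ℚ) * (l.factorial * m.factorial))) := by ring
          _ = (q : ℚ) ^ n * n.factorial := by
              rw [hs, hch, hn2, Nat.factorial_succ, pow_succ]; push_cast; ring
      · rw [abs_mul, abs_pow, abs_neg, abs_one, one_pow, one_mul, Nat.abs_cast]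
        norm_cast
        have h1 : Nat.choose (l + m) l ≤ 2 ^ (l + m) := Nat.choose_le_two_pow _ _
        have h2 : n ≤ 2 ^ n := (Nat.lt_two_pow_self).le
        calc Nat.choose (l + m) l * (n * q) ≤ 2 ^ (l + m) * (2 ^ n * q) := by gcongr
          _ ≤ 2 ^ n * (2 ^ n * q ^ n) := by
              apply Nat.mul_le_mul (Nat.pow_le_pow_right (by norm_num) (by omega))
              apply Nat.mul_le_mul_left
              calc q = q ^ 1 := (pow_one q).symm
                _ ≤ q ^ n := Nat.pow_le_pow_right hq1 hn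
          _ = (4 * q) ^ n := by
              rw [mul_pow, show (4:ℕ) = 2 * 2 by norm_num, mul_pow]; ring
    · refine ⟨(-1) ^ m * (Nat.choose (l + m) l : ℕ), ?_, ?_⟩
      · push_cast
        have hn2 : n = l + m := by omega
        calc (-1 : ℚ) ^ m * (Nat.choose (l + m) l : ℚ) *
              ((-1) ^ m * ((q : ℚ) ^ (l + m) * (l.factorial * m.factorial)))
            = ((-1 : ℚ) ^ m * (-1) ^ m) * ((q : ℚ) ^ (l + m) *
              ((Nat.choose (l + m) l : ℚ) * (l.factorial * m.factorial))) := by ring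
          _ = (q : ℚ) ^ n * n.factorial := by
              rw [hs, hch, hn2]; ring
      · rw [abs_mul, abs_pow, abs_neg, abs_one, one_pow, one_mul, Nat.abs_cast]
        norm_cast
        have h1 : Nat.choose (l + m) l ≤ 2 ^ (l + m) := Nat.choose_le_two_pow _ _
        calc Nat.choose (l + m) l ≤ 2 ^ (l + m) := h1
          _ = 2 ^ n := by congr 1; omega
          _ ≤ (4 * q) ^ n := Nat.pow_le_pow_left (by omega) n

end Pool.Agent.H374R2.W.A2b
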