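import Mathlib
import Pool.Agent.H374R2.W.Defs
import Pool.Agent.H374R2.W.A1
import Pool.Agent.H374R2.W.A2
import Pool.Agent.H374R2.W.A2b

set_option autoImplicit false

/-!
Task A3: the forms exist (helper619).
-/

namespace Pool.Agent.H374R2.W.A3

open Finset Polynomial

/-- `E δ` -/
def E (q n : ℕ) (δ : ℤ) : ℚ := ∏ t ∈ range (2 * n + 1), ((δ : ℚ) + ((n : ℚ) - t) * q)

theorem E_ne {q n : ℕ} {δ : ℤ} (h0 : δ ≠ 0) (hδ : |δ| < q) : E q n δ ≠ 0 := by
  unfold E
  rw [Finset.prod_ne_zero_iff]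
  intro t _ h
  have h1 : δ + ((n : ℤ) - t) * q = 0 := by exact_mod_cast h
  have h2 : (q : ℤ) ∣ δ := ⟨-((n : ℤ) - t), by linarith⟩
  have := Int.eq_zero_of_abs_lt_dvd h2 (by exact_mod_cast hδ)
  exact h0 this

/-- the common numerator -/
noncomputable def DD (m q n : ℕ) : ℚ :=
  (q : ℚ) ^ n * n.factorial * (∏ δ ∈ (Icc (-(m : ℤ)) m).erase 0, E q n δ) *
    ((Nat.lcmUpto n : ℚ) * (q : ℚ) ^ (n + 1) / n.factorial) ^ m *
    ((q : ℚ) ^ (2 * n) / (n.factorial : ℚ) ^ 2) ^ m

theorem DD_ne {m q n : ℕ} (hq : 0 < q) (hmq : m < q) : DD m q n ≠ 0 := by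
  unfold DD
  have h1 : (q : ℚ) ≠ 0 := by exact_mod_cast hq.ne'
  have h2 : (n.factorial : ℚ) ≠ 0 := by exact_mod_cast n.factorial_ne_zero
  have h3 : (Nat.lcmUpto n : ℚ) ≠ 0 := by exact_mod_cast Nat.lcmUpto_ne_zero n
  have h4 : ∏ δ ∈ (Icc (-(m : ℤ)) m).erase 0, E q n δ ≠ 0 := by
    rw [Finset.prod_ne_zero_iff]
    intro δ hδ
    rw [Finset.mem_erase, Finset.mem_Icc] at hδ
    apply E_ne hδ.1
    rw [abs_lt]
    constructor <;> omega
  positivity

/-- the products over the nodes of the class `j'` -/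
def W (q : ℕ) (j l j' r : ℕ) : ℚ :=
  ∏ t ∈ range r, (((((j : ℤ) - j' : ℤ)) : ℚ) + ((l : ℚ) - t) * q)

theorem coeff_exists {m q n k j l : ℕ} (hq : IsPrimePow q) (hmq : m < q) (hn : 1 ≤ n)
    (hj : j ≤ m) (hl : l < len n k j) :
    ∃ z : ℤ, (z : ℚ) * ((∏ t ∈ (range (len n k j)).erase l, (((l : ℚ) - t) * q)) *
        ∏ j' ∈ (range (m + 1)).erase j, W q j l j' (len n k j')) = DD m q n ∧
      |z| ≤ (cst m q : ℤ) ^ n := by
  have hlen : ∀ j', len n k j' = n ∨ len n k j' = n + 1 := by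
    intro j'
    unfold len
    split_ifs <;> simp
  have hln : l ≤ n := by
    rcases hlen j with h | h <;> omega
  have hqpos : 0 < q := hq.pos
  -- the used classes
  have h1 : ∀ j' : ℕ, ∃ z : ℤ, (j' ∈ (range (m + 1)).erase j →
      (z : ℚ) * W q j l j' (len n k j') * n.factorial =
        (Nat.lcmUpto n : ℚ) * (q : ℚ) ^ (n + 1) * E q n ((j : ℤ) - j')) ∧
      |z| ≤ ((1752 * q ^ 4) ^ n : ℕ) := by
    intro j'
    by_cases hj' : j' ∈ (range (m + 1)).erase j
    · rw [Finset.mem_erase, Finset.mem_range] at hj'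
      obtain ⟨z, hz1, hz2⟩ := A2.window (q := q) (n := n) (l := l) (r := len n k j')
        (δ := (j : ℤ) - j') hq hn hln (hlen j') (by omega) (by rw [abs_lt]; omega)
      exact ⟨z, fun _ => hz1, hz2⟩
    · exact ⟨0, fun h => absurd h hj', by simp⟩
  choose z1 hz1 hz1b using h1
  -- the unused classes
  have h2 : ∀ δ : ℤ, ∃ z : ℤ, (δ ∈ Icc (-(m : ℤ)) m \ Icc ((j : ℤ) - m) j →
      (z : ℚ) * (n.factorial : ℚ) ^ 2 = (q : ℚ) ^ (2 * n) * E q n δ) ∧
      |z| ≤ ((4 * q ^ 5) ^ n : ℕ) := by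
    intro δ
    by_cases hδ : δ ∈ Icc (-(m : ℤ)) m \ Icc ((j : ℤ) - m) j
    · rw [Finset.mem_sdiff, Finset.mem_Icc, Finset.mem_Icc] at hδ
      obtain ⟨z, hz1, hz2⟩ := (A2b.window' (q := q) (n := n) hq hn).1 δ (by omega)
        (by rw [abs_lt]; omega)
      exact ⟨z, fun _ => hz1, hz2⟩
    · exact ⟨0, fun h => absurd h hδ, by simp⟩
  choose z2 hz2 hz2b using h2
  obtain ⟨z0, hz0, hz0b⟩ := (A2b.window' (q := q) (n := n) hq hn).2 (len n k j) l (hlen j) hl
  have hfac : (n.factorial : ℚ) ≠ 0 := by exact_mod_cast n.factorial_ne_zero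
  have hc1 : ((range (m + 1)).erase j).card = m := by
    rw [Finset.card_erase_of_mem (Finset.mem_range.2 (by omega)), Finset.card_range]
    omega
  have hsub : Icc ((j : ℤ) - m) j ⊆ Icc (-(m : ℤ)) m := by
    intro x hx
    rw [Finset.mem_Icc] at hx ⊢
    omega
  have hc2 : (Icc (-(m : ℤ)) m \ Icc ((j : ℤ) - m) j).card = m := by
    rw [Finset.card_sdiff_of_subset hsub, Int.card_Icc, Int.card_Icc]
    omega
  refine ⟨z0 * (∏ j' ∈ (range (m + 1)).erase j, z1 j') *
    ∏ δ ∈ Icc (-(m : ℤ)) m \ Icc ((j : ℤ) - m) j, z2 δ, ?_, ?_⟩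
  · -- products of the `E`
    have hE : ∏ δ ∈ (Icc (-(m : ℤ)) m).erase 0, E q n δ =
        (∏ j' ∈ (range (m + 1)).erase j, E q n ((j : ℤ) - j')) *
        ∏ δ ∈ Icc (-(m : ℤ)) m \ Icc ((j : ℤ) - m) j, E q n δ := by
      have e1 : (Icc (-(m : ℤ)) m).erase 0 \ (Icc ((j : ℤ) - m) j).erase 0 =
          Icc (-(m : ℤ)) m \ Icc ((j : ℤ) - m) j := by
        ext x
        simp only [Finset.mem_sdiff, Finset.mem_erase, Finset.mem_Icc]
        constructor
        · rintro ⟨⟨a, b⟩, c⟩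
          exact ⟨b, fun h => c ⟨a, h⟩⟩
        · rintro ⟨b, c⟩
          refine ⟨⟨?_, b⟩, fun h => c h.2⟩
          rintro rfl
          exact c (by omega)
      rw [← Finset.prod_sdiff (Finset.erase_subset_erase 0 hsub), e1, mul_comm]
      congr 1
      symm
      apply Finset.prod_bij (fun (j' : ℕ) _ => (j : ℤ) - j')
      · intro a ha
        rw [Finset.mem_erase, Finset.mem_range] at ha
        rw [Finset.mem_erase, Finset.mem_Icc]
        omega
      · intro a _ b _ h
        omega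
      · intro b hb
        rw [Finset.mem_erase, Finset.mem_Icc] at hb
        refine ⟨((j : ℤ) - b).toNat, ?_, ?_⟩
        · rw [Finset.mem_erase, Finset.mem_range]
          omega
        · omega
      · intro a _
        rfl
    have hA : ∏ j' ∈ (range (m + 1)).erase j, ((z1 j' : ℚ) * W q j l j' (len n k j')) =
        ((Nat.lcmUpto n : ℚ) * (q : ℚ) ^ (n + 1) / n.factorial) ^ m *
          ∏ j' ∈ (range (m + 1)).erase j, E q n ((j : ℤ) - j') := by
      have hpow : ((Nat.lcmUpto n : ℚ) * (q : ℚ) ^ (n + 1) / n.factorial) ^ m =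
          ∏ _j' ∈ (range (m + 1)).erase j,
            ((Nat.lcmUpto n : ℚ) * (q : ℚ) ^ (n + 1) / n.factorial) := by
        rw [Finset.prod_const, hc1]
      rw [hpow, ← Finset.prod_mul_distrib]
      refine Finset.prod_congr rfl fun j' hj' => ?_
      have := hz1 j' hj'
      field_simp
      linarith
    have hB : ∏ δ ∈ Icc (-(m : ℤ)) m \ Icc ((j : ℤ) - m) j, (z2 δ : ℚ) =
        ((q : ℚ) ^ (2 * n) / (n.factorial : ℚ) ^ 2) ^ m *
          ∏ δ ∈ Icc (-(m : ℤ)) m \ Icc ((j : ℤ) - m) j, E q n δ := by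
      have hpow : ((q : ℚ) ^ (2 * n) / (n.factorial : ℚ) ^ 2) ^ m =
          ∏ _δ ∈ Icc (-(m : ℤ)) m \ Icc ((j : ℤ) - m) j,
            ((q : ℚ) ^ (2 * n) / (n.factorial : ℚ) ^ 2) := by
        rw [Finset.prod_const, hc2]
      rw [hpow, ← Finset.prod_mul_distrib]
      refine Finset.prod_congr rfl fun δ hδ => ?_
      have := hz2 δ hδ
      field_simp
      linarith
    push_cast
    unfold DD
    rw [hE]
    calc (z0 : ℚ) * (∏ j' ∈ (range (m + 1)).erase j, (z1 j' : ℚ)) *
          (∏ δ ∈ Icc (-(m : ℤ)) m \ Icc ((j : ℤ) - m) j, (z2 δ : ℚ)) *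
          ((∏ t ∈ (range (len n k j)).erase l, (((l : ℚ) - t) * q)) *
            ∏ j' ∈ (range (m + 1)).erase j, W q j l j' (len n k j'))
        = ((z0 : ℚ) * ∏ t ∈ (range (len n k j)).erase l, (((l : ℚ) - t) * q)) *
          (∏ j' ∈ (range (m + 1)).erase j, ((z1 j' : ℚ) * W q j l j' (len n k j'))) *
          ∏ δ ∈ Icc (-(m : ℤ)) m \ Icc ((j : ℤ) - m) j, (z2 δ : ℚ) := by
          have e : ∏ j' ∈ (range (m + 1)).erase j, ((z1 j' : ℚ) * W q j l j' (len n k j')) =
              (∏ j' ∈ (range (m + 1)).erase j, (z1 j' : ℚ)) *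
                ∏ j' ∈ (range (m + 1)).erase j, W q j l j' (len n k j') :=
            Finset.prod_mul_distrib
          rw [e]
          ring
      _ = _ := by
          rw [hz0, hA, hB]
          ring
  · rw [abs_mul, abs_mul, Finset.abs_prod, Finset.abs_prod]
    have b1 : ∏ j' ∈ (range (m + 1)).erase j, |z1 j'| ≤ (((1752 * q ^ 4) ^ n : ℕ) : ℤ) ^ m := by
      conv_rhs => rw [← hc1]
      rw [← Finset.prod_const]
      exact Finset.prod_le_prod (fun _ _ => abs_nonneg _) fun j' _ => hz1b j'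
    have b2 : ∏ δ ∈ Icc (-(m : ℤ)) m \ Icc ((j : ℤ) - m) j, |z2 δ| ≤
        (((4 * q ^ 5) ^ n : ℕ) : ℤ) ^ m := by
      conv_rhs => rw [← hc2]
      rw [← Finset.prod_const]
      exact Finset.prod_le_prod (fun _ _ => abs_nonneg _) fun δ _ => hz2b δ
    calc |z0| * (∏ j' ∈ (range (m + 1)).erase j, |z1 j'|) *
          ∏ δ ∈ Icc (-(m : ℤ)) m \ Icc ((j : ℤ) - m) j, |z2 δ|
        ≤ (((4 * q) ^ n : ℕ) : ℤ) * (((1752 * q ^ 4) ^ n : ℕ) : ℤ) ^ m *
          (((4 * q ^ 5) ^ n : ℕ) : ℤ) ^ m := by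
          refine mul_le_mul (mul_le_mul hz0b b1 ?_ ?_) b2 ?_ ?_
          · exact Finset.prod_nonneg fun _ _ => abs_nonneg _
          · positivity
          · exact Finset.prod_nonneg fun _ _ => abs_nonneg _
          · positivity
      _ ≤ (cst m q : ℤ) ^ n := by
          unfold cst
          have c1 : (4 * q) * (7008 * q ^ 9) ^ m ≤ (15000 * q ^ 9) ^ (m + 1) := by
            rw [pow_succ, mul_comm]
            apply Nat.mul_le_mul
            · exact Nat.pow_le_pow_left (by omega) m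
            · exact Nat.mul_le_mul (show 4 ≤ 15000 by norm_num) (Nat.le_self_pow (show 9 ≠ 0 by norm_num) q)
          have c2 : (4 * q) ^ n * ((1752 * q ^ 4) ^ n) ^ m * ((4 * q ^ 5) ^ n) ^ m =
              ((4 * q) * (7008 * q ^ 9) ^ m) ^ n := by
            rw [← pow_mul, ← pow_mul, mul_comm n m, pow_mul, pow_mul, ← mul_pow, ← mul_pow]
            congr 1
            rw [mul_assoc, ← mul_pow]
            congr 2
            ring
          have c3 := Nat.pow_le_pow_left c1 n
          rw [← c2] at c3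
          exact_mod_cast c3

/-- the nodes -/
def T (m n k : ℕ) : Finset (Σ _ : ℕ, ℕ) := (range (m + 1)).sigma fun j => range (len n k j)

/-- the exponent of a node -/
def ex (q : ℕ) (x : Σ _ : ℕ, ℕ) : ℕ := q * x.2 + x.1

theorem ex_inj {m q n k : ℕ} (hmq : m < q) : Set.InjOn (ex q) (T m n k : Set (Σ _ : ℕ, ℕ)) := by
  rintro ⟨j, l⟩ hx ⟨j', l'⟩ hy h
  simp only [T, Finset.coe_sigma, Set.mem_sigma_iff, Finset.coe_range, Set.mem_Iio] at hx hy
  have hj1 : j < m + 1 := hx.1
  have hj2 : j' < m + 1 := hy.1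
  change q * l + j = q * l' + j' at h
  have h1 : j = j' := by
    have := congrArg (· % q) h
    simp only [Nat.mul_add_mod] at this
    rwa [Nat.mod_eq_of_lt (by omega), Nat.mod_eq_of_lt (by omega)] at this
  subst h1
  have h2 : q * l = q * l' := by omega
  have h3 : l = l' := Nat.eq_of_mul_eq_mul_left (by omega) h2
  subst h3
  rfl

theorem T_card {m n k : ℕ} (hk : k ≤ m) : (T m n k).card = (m + 1) * n + 1 := by
  unfold T
  rw [Finset.card_sigma]
  simp only [Finset.card_range]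
  have h1 : ∀ j, len n k j = n + if j = k then 1 else 0 := by
    intro j
    unfold len
    split_ifs <;> rfl
  simp only [h1]
  rw [Finset.sum_add_distrib, Finset.sum_const, Finset.card_range, Finset.sum_ite_eq',
    if_pos (Finset.mem_range.2 (by omega)), smul_eq_mul]

theorem prod_nodes {m q n k j l : ℕ} (hmq : m < q) (hj : j ≤ m) (hl : l < len n k j) :
    ∏ t ∈ ((T m n k).image (ex q)).erase (q * l + j), (((q * l + j : ℕ) : ℚ) - t) =
      (∏ t ∈ (range (len n k j)).erase l, (((l : ℚ) - t) * q)) *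
        ∏ j' ∈ (range (m + 1)).erase j, W q j l j' (len n k j') := by
  classical
  set F : ℕ → ℕ → ℚ := fun j' l' => ((q * l + j : ℕ) : ℚ) - ((q * l' + j' : ℕ) : ℚ) with hF
  have hmem : (⟨j, l⟩ : Σ _ : ℕ, ℕ) ∈ T m n k := by
    unfold T
    rw [Finset.mem_sigma, Finset.mem_range, Finset.mem_range]
    exact ⟨Nat.lt_succ_of_le hj, hl⟩
  have hex : ex q ⟨j, l⟩ = q * l + j := rfl
  have e1 : ((T m n k).image (ex q)).erase (q * l + j) = ((T m n k).erase ⟨j, l⟩).image (ex q) := by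
    ext x
    simp only [Finset.mem_erase, Finset.mem_image]
    constructor
    · rintro ⟨hne, y, hy, rfl⟩
      refine ⟨y, ⟨?_, hy⟩, rfl⟩
      rintro rfl
      exact hne rfl
    · rintro ⟨y, ⟨hne, hy⟩, rfl⟩
      refine ⟨?_, y, hy, rfl⟩
      intro h
      exact hne (ex_inj hmq hy hmem (h.trans hex.symm))
  have hinj : Set.InjOn (ex q) (((T m n k).erase ⟨j, l⟩ : Finset _) : Set (Σ _ : ℕ, ℕ)) :=
    (ex_inj hmq).mono (by exact_mod_cast Finset.erase_subset _ _)
  rw [e1, Finset.prod_image hinj]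
  have e2 : ∏ y ∈ (T m n k).erase ⟨j, l⟩, (((q * l + j : ℕ) : ℚ) - ((ex q y : ℕ) : ℚ)) =
      ∏ y ∈ T m n k, (if y = ⟨j, l⟩ then 1 else F y.1 y.2) := by
    rw [← Finset.mul_prod_erase (T m n k) _ hmem, if_pos rfl, one_mul]
    refine Finset.prod_congr rfl fun y hy => ?_
    rw [if_neg (Finset.ne_of_mem_erase hy)]
    rfl
  rw [e2]
  unfold T
  rw [Finset.prod_sigma, ← Finset.mul_prod_erase (range (m + 1)) _ (Finset.mem_range.2
    (show j < m + 1 by omega))]
  congr 1
  · rw [← Finset.mul_prod_erase (range (len n k j)) _ (Finset.mem_range.2 hl), if_pos rfl, one_mul]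
    refine Finset.prod_congr rfl fun t ht => ?_
    have hne : t ≠ l := Finset.ne_of_mem_erase ht
    rw [if_neg (by
      intro h
      apply hne
      simpa using h)]
    simp only [hF]
    push_cast
    ring
  · refine Finset.prod_congr rfl fun j' hj' => ?_
    have hne : j' ≠ j := Finset.ne_of_mem_erase hj'
    unfold W
    refine Finset.prod_congr rfl fun t _ => ?_
    rw [if_neg (by
      intro h
      apply hne
      exact congrArg Sigma.fst h)]
    simp only [hF]
    push_cast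
    ring

/-- Task A3 (the forms exist; consequence of A1, A2, A2'). -/
theorem exists_form {m q n k : ℕ} (hq : IsPrimePow q) (hmq : m < q) (hk : k ≤ m) (hn : 1 ≤ n) :
    ∃ c : ℕ → ℕ → ℤ, Form m q n k c := by
  classical
  have hqpos : 0 < q := hq.pos
  have hc : ∀ j l : ℕ, ∃ z : ℤ, (j ≤ m ∧ l < len n k j →
      (z : ℚ) * ((∏ t ∈ (range (len n k j)).erase l, (((l : ℚ) - t) * q)) *
        ∏ j' ∈ (range (m + 1)).erase j, W q j l j' (len n k j')) = DD m q n) ∧
      |z| ≤ (cst m q : ℤ) ^ n ∧ (¬ (j ≤ m ∧ l < len n k j) → z = 0) := by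
    intro j l
    by_cases h : j ≤ m ∧ l < len n k j
    · obtain ⟨z, hz1, hz2⟩ := coeff_exists (m := m) (q := q) (n := n) (k := k) hq hmq hn h.1 h.2
      exact ⟨z, fun _ => hz1, hz2, fun h' => absurd h h'⟩
    · exact ⟨0, fun h' => absurd h' h, by simp, fun _ => rfl⟩
  choose c hc1 hc2 hc3 using hc
  have hD := DD_ne (n := n) hqpos hmq
  refine ⟨c, ⟨?_, ?_, hc2, ?_⟩⟩
  · intro j l hl
    exact hc3 j l (fun h => absurd h.2 (by omega))
  · intro h0
    have hlen : n < len n k k := by simp [len]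
    have h1 := hc1 k n ⟨hk, hlen⟩
    rw [h0, Int.cast_zero, zero_mul] at h1
    exact hD h1.symm
  · have hcard : ((T m n k).image (ex q)).card = (m + 1) * n + 1 := by
      rw [Finset.card_image_of_injOn (ex_inj hmq), T_card hk]
    have hw : ∀ s ∈ (T m n k).image (ex q), ((c (s % q) (s / q) : ℤ) : ℚ) =
        DD m q n / ∏ t ∈ ((T m n k).image (ex q)).erase s, ((s : ℚ) - t) := by
      intro s hs
      rw [Finset.mem_image] at hs
      obtain ⟨⟨j, l⟩, hx, rfl⟩ := hs
      unfold T at hx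
      rw [Finset.mem_sigma, Finset.mem_range, Finset.mem_range] at hx
      obtain ⟨hj, hl⟩ := hx
      simp only at hj hl
      have e1 : ex q ⟨j, l⟩ % q = j := by
        simp only [ex, Nat.mul_add_mod]
        exact Nat.mod_eq_of_lt (by omega)
      have e2 : ex q ⟨j, l⟩ / q = l := by
        simp only [ex]
        rw [Nat.mul_add_div hqpos, Nat.div_eq_of_lt (by omega), add_zero]
      rw [e1, e2]
      have h1 := hc1 j l ⟨by omega, hl⟩
      have h2 := prod_nodes (m := m) (n := n) (k := k) hmq (show j ≤ m by omega) hl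
      have h3 : ex q ⟨j, l⟩ = q * l + j := rfl
      rw [h3, h2]
      have h4 : (∏ t ∈ (range (len n k j)).erase l, (((l : ℚ) - t) * q)) *
          ∏ j' ∈ (range (m + 1)).erase j, W q j l j' (len n k j') ≠ 0 := by
        intro h
        rw [h, mul_zero] at h1
        exact hD h1.symm
      rw [eq_div_iff h4]
      exact h1
    have hv := A1.vanish (fun s => c (s % q) (s / q)) (DD m q n) hw
    rw [hcard, Nat.add_sub_cancel] at hv
    have hsum : ∑ s ∈ (T m n k).image (ex q), C (c (s % q) (s / q)) * (X : ℤ[X]) ^ s =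
        ∑ j ∈ range (m + 1), ∑ l ∈ range (n + 1), C (c j l) * X ^ (q * l + j) := by
      rw [Finset.sum_image (ex_inj hmq)]
      unfold T
      rw [Finset.sum_sigma]
      refine Finset.sum_congr rfl fun j hj => ?_
      rw [Finset.mem_range] at hj
      have hsub : range (len n k j) ⊆ range (n + 1) := by
        apply Finset.range_subset_range.2
        unfold len
        split_ifs <;> omega
      have h5 : ∑ l ∈ range (len n k j), C (c (ex q ⟨j, l⟩ % q) (ex q ⟨j, l⟩ / q)) *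
          (X : ℤ[X]) ^ (ex q ⟨j, l⟩) = ∑ l ∈ range (len n k j), C (c j l) * X ^ (q * l + j) := by
        refine Finset.sum_congr rfl fun l _ => ?_
        have e1 : ex q ⟨j, l⟩ % q = j := by
          simp only [ex, Nat.mul_add_mod]
          exact Nat.mod_eq_of_lt (by omega)
        have e2 : ex q ⟨j, l⟩ / q = l := by
          simp only [ex]
          rw [Nat.mul_add_div hqpos, Nat.div_eq_of_lt (by omega), add_zero]
        rw [e1, e2]
        rfl
      rw [h5]
      apply Finset.sum_subset hsub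
      intro l _ hl
      rw [Finset.mem_range] at hl
      rw [hc3 j l (fun h => hl h.2)]
      simp
    rw [hsum] at hv
    exact hv

end Pool.Agent.H374R2.W.A3
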