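import Pool.Agent.H374R2.W.Defs

namespace Pool.Agent.H374R2.W.AR

/-- Task AR (arithmetic of the exponents). -/
theorem arith {κ h h' : ℝ} {m q : ℕ} (hκ0 : 0 < κ) (hκ1 : κ ≤ 1) (hm : 3 / κ ≤ m + 1)
    (hm' : (m : ℝ) ≤ 3 / κ) (hq : 100 / κ ^ 2 ≤ q) (h0 : 0 < h) (hh : h ≤ h')
    (hgap : κ * h ≤ κ * h / 100 + (h + h') / q)
    (hmain : ∀ n : ℕ, 1 ≤ n → min (κ * ((m + 1) * n) * h) (κ * h') ≤
      n * (1 + 1 / 50) * h + (m / q) * (h + h')) : False := by
  have hq0 : (0 : ℝ) < q := lt_of_lt_of_le (by positivity) hq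
  have hqκ : 100 ≤ (q : ℝ) * κ ^ 2 := (div_le_iff₀ (by positivity)).1 hq
  have h1 : 99 / 100 * κ * h * q ≤ h + h' := by
    rw [← le_div_iff₀ hq0]
    linarith
  have h2 : 98 * h ≤ κ * h' := by
    have e1 : 99 / 100 * h * (q * κ ^ 2) ≤ κ * (h + h') := by
      have := mul_le_mul_of_nonneg_left h1 hκ0.le
      nlinarith
    have e2 : 99 / 100 * h * 100 ≤ 99 / 100 * h * (q * κ ^ 2) :=
      mul_le_mul_of_nonneg_left hqκ (by positivity)
    nlinarith
  have h3 : (m : ℝ) / q ≤ 3 / 100 * κ := by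
    rw [div_le_iff₀ hq0]
    have e1 : (m : ℝ) * κ ≤ 3 := (le_div_iff₀ hκ0).1 hm'
    by_contra hcon
    push Not at hcon
    have := mul_lt_mul_of_pos_right hcon hκ0
    nlinarith
  have h4 : 3 ≤ κ * ((m : ℝ) + 1) := by
    have := (div_le_iff₀ hκ0).1 hm
    linarith
  have hh0 : 0 < h + h' := by linarith
  set X : ℝ := 3 / 100 * κ * (h + h') / (99 / 50 * h) with hX
  have hX0 : 0 ≤ X := by positivity
  have hXh : X * (99 / 50 * h) = 3 / 100 * κ * (h + h') := by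
    rw [hX]
    field_simp
  have h5 := hmain (⌊X⌋₊ + 1) (by omega)
  have h6 : X < (⌊X⌋₊ : ℝ) + 1 := Nat.lt_floor_add_one X
  have h7 : (⌊X⌋₊ : ℝ) ≤ X := Nat.floor_le hX0
  push_cast at h5
  set n : ℝ := (⌊X⌋₊ : ℝ) + 1 with hn
  have hn0 : 0 < n := by linarith
  have h8 : n * (1 + 1 / 50) * h + (m / q) * (h + h') ≤
      n * (1 + 1 / 50) * h + 3 / 100 * κ * (h + h') := by
    have := mul_le_mul_of_nonneg_right h3 hh0.le
    linarith
  have h9 : 3 / 100 * κ * (h + h') < n * (99 / 50 * h) := by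
    rw [← hXh]
    exact mul_lt_mul_of_pos_right h6 (by positivity)
  have h10 : n * (99 / 50 * h) ≤ 3 / 100 * κ * (h + h') + 99 / 50 * h := by
    have e1 : n ≤ X + 1 := by linarith
    have := mul_le_mul_of_nonneg_right e1 (by positivity : 0 ≤ 99 / 50 * h)
    linarith
  rcases min_le_iff.1 (h5.trans h8) with h11 | h11
  · have h12 : 3 * (n * h) ≤ κ * ((m + 1) * n) * h := by
      have := mul_le_mul_of_nonneg_right h4 (by positivity : 0 ≤ n * h)
      nlinarith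
    nlinarith
  · have h13 : κ * h ≤ h := by nlinarith
    nlinarith

end Pool.Agent.H374R2.W.AR
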