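import Mathlib
import Pool.Agent.H374R2.W.Defs

/-!
Task B: the `m + 1` forms are linearly independent.
-/

namespace Pool.Agent.H374R2.W.B

open Finset Polynomial
open Pool.Agent.H374R2.W

/-- the matrix of the forms -/
noncomputable def PM (m n : ℕ) (c : ℕ → ℕ → ℕ → ℤ) : Matrix (Fin (m + 1)) (Fin (m + 1)) ℤ[X] :=
  fun k j => ∑ l ∈ range (n + 1), C (c k j l) * X ^ l

theorem natDegree_PM (m n : ℕ) (c : ℕ → ℕ → ℕ → ℤ) (k j : Fin (m + 1)) :
    (PM m n c k j).natDegree ≤ n := by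
  unfold PM
  apply natDegree_sum_le_of_forall_le
  intro l hl
  refine (natDegree_C_mul_X_pow_le _ _).trans ?_
  rw [Finset.mem_range] at hl
  omega

theorem coeff_PM (m n : ℕ) (c : ℕ → ℕ → ℕ → ℤ) (k j : Fin (m + 1)) :
    (PM m n c k j).coeff n = c k j n := by
  unfold PM
  rw [finsetSum_coeff, Finset.sum_eq_single n]
  · rw [coeff_C_mul_X_pow, if_pos rfl]
  · intro l _ hln
    rw [coeff_C_mul_X_pow, if_neg (Ne.symm hln)]
  · intro h
    exact absurd (Finset.mem_range.2 (Nat.lt_succ_self n)) h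

theorem coeff_det (m q n : ℕ) (c : ℕ → ℕ → ℕ → ℤ) (hc : ∀ k ≤ m, Form m q n k (c k)) :
    (PM m n c).det.coeff ((m + 1) * n) ≠ 0 := by
  have h1 : (PM m n c).det.coeff ((m + 1) * n) =
      (Matrix.of fun k j : Fin (m + 1) => c k j n).det := by
    rw [Matrix.det_apply, Matrix.det_apply, finsetSum_coeff]
    refine Finset.sum_congr rfl fun σ _ => ?_
    rw [coeff_smul]
    congr 1
    have h2 := coeff_prod_of_natDegree_le (s := (Finset.univ : Finset (Fin (m + 1))))
      (fun i => PM m n c (σ i) i) n (fun i _ => natDegree_PM m n c (σ i) i)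
    rw [Finset.card_univ, Fintype.card_fin] at h2
    rw [h2]
    refine Finset.prod_congr rfl fun i _ => ?_
    rw [coeff_PM]
    rfl
  have h3 : (Matrix.of fun k j : Fin (m + 1) => c k j n) =
      Matrix.diagonal (fun k : Fin (m + 1) => c k k n) := by
    ext k j
    rw [Matrix.diagonal_apply]
    split_ifs with h
    · subst h
      rfl
    · have hk : (k : ℕ) ≤ m := Nat.lt_succ_iff.1 k.2
      refine (hc k hk).supp j n ?_
      unfold len
      rw [if_neg]
      intro hh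
      exact h (Fin.ext hh.symm)
  rw [h1, h3, Matrix.det_diagonal, Finset.prod_ne_zero_iff]
  intro k _
  exact (hc k (Nat.lt_succ_iff.1 k.2)).lead

theorem dvd_expand (m q n : ℕ) (c : ℕ → ℕ → ℕ → ℤ) (hc : ∀ k ≤ m, Form m q n k (c k)) :
    ((X : ℤ[X]) - 1) ^ ((m + 1) * n) ∣ expand ℤ q (PM m n c).det := by
  set D : Matrix (Fin (m + 1)) (Fin (m + 1)) ℤ[X] :=
    Matrix.diagonal (fun j : Fin (m + 1) => (X : ℤ[X]) ^ (j : ℕ)) with hD
  set E : Matrix (Fin (m + 1)) (Fin (m + 1)) ℤ[X] :=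
    (PM m n c).map (expand ℤ q) with hE
  have h1 : E.det = expand ℤ q (PM m n c).det := by
    rw [hE]
    exact ((expand ℤ q : ℤ[X] →ₐ[ℤ] ℤ[X]).toRingHom.map_det (PM m n c)).symm
  have h2 : ∀ k : Fin (m + 1), ((X : ℤ[X]) - 1) ^ ((m + 1) * n) ∣
      (((E * D).mulVec (fun _ => (1 : ℤ[X]))) k) := by
    intro k
    have h3 : ((E * D).mulVec (fun _ => (1 : ℤ[X]))) k =
        ∑ j ∈ range (m + 1), ∑ l ∈ range (n + 1), C (c k j l) * X ^ (q * l + j) := by
      rw [Matrix.mulVec, dotProduct, ← Fin.sum_univ_eq_sum_range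
        (fun j => ∑ l ∈ range (n + 1), C (c k j l) * X ^ (q * l + j)) (m + 1)]
      refine Finset.sum_congr rfl fun j _ => ?_
      rw [mul_one, hD, Matrix.mul_diagonal, hE, Matrix.map_apply, PM, map_sum, Finset.sum_mul]
      refine Finset.sum_congr rfl fun l _ => ?_
      rw [map_mul, expand_C, map_pow, expand_X, pow_add, pow_mul]
      ring
    rw [h3]
    exact (hc k (Nat.lt_succ_iff.1 k.2)).van
  have h4 : (E * D).det • (fun _ : Fin (m + 1) => (1 : ℤ[X])) =
      (E * D).adjugate.mulVec ((E * D).mulVec (fun _ => (1 : ℤ[X]))) := by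
    rw [Matrix.mulVec_mulVec, Matrix.adjugate_mul, Matrix.smul_mulVec, Matrix.one_mulVec]
  have h5 : (E * D).det = ∑ k, (E * D).adjugate 0 k *
      ((E * D).mulVec (fun _ => (1 : ℤ[X]))) k := by
    have := congrFun h4 0
    rw [Pi.smul_apply, smul_eq_mul, mul_one] at this
    rw [this]
    rfl
  have h6 : ((X : ℤ[X]) - 1) ^ ((m + 1) * n) ∣ E.det * D.det := by
    rw [← Matrix.det_mul, h5]
    exact Finset.dvd_sum fun k _ => Dvd.dvd.mul_left (h2 k) _
  have h7 : IsCoprime (((X : ℤ[X]) - 1) ^ ((m + 1) * n)) D.det := by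
    rw [hD, Matrix.det_diagonal]
    refine IsCoprime.pow_left ?_
    refine IsCoprime.prod_right fun j _ => IsCoprime.pow_right ?_
    exact ⟨-1, 1, by ring⟩
  rw [← h1]
  exact h7.dvd_of_dvd_mul_right h6

theorem dvd_of_dvd_expand {q : ℕ} (hq : 0 < q) (N : ℕ) (P : ℤ[X]) (hP : P ≠ 0)
    (h : ((X : ℤ[X]) - 1) ^ N ∣ expand ℤ q P) : ((X : ℤ[X]) - 1) ^ N ∣ P := by
  have hX : (X : ℤ[X]) - 1 = X - C 1 := by rw [C_1]
  obtain ⟨g, hg, hg1⟩ := exists_eq_pow_rootMultiplicity_mul_and_not_dvd P hP 1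
  set r := rootMultiplicity 1 P with hr
  rcases le_or_gt N r with hN | hN
  · rw [hg, hX]
    exact Dvd.dvd.mul_right (pow_dvd_pow _ hN) _
  · exfalso
    have e1 : expand ℤ q P = (X - 1) ^ r * ((∑ i ∈ range q, X ^ i) ^ r * expand ℤ q g) := by
      rw [hg, map_mul, map_pow, map_sub, expand_X, expand_C, C_1, ← mul_assoc, ← mul_pow,
        mul_comm ((X : ℤ[X]) - 1), geom_sum_mul]
    rw [e1] at h
    have h2 : ((X : ℤ[X]) - 1) ^ r * ((X : ℤ[X]) - 1) ∣
        (X - 1) ^ r * ((∑ i ∈ range q, X ^ i) ^ r * expand ℤ q g) := by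
      refine dvd_trans ?_ h
      rw [← pow_succ]
      exact pow_dvd_pow _ hN
    have hne : ((X : ℤ[X]) - 1) ^ r ≠ 0 := by
      rw [hX]
      exact pow_ne_zero _ (X_sub_C_ne_zero 1)
    have h3 := (mul_dvd_mul_iff_left hne).1 h2
    rw [hX, dvd_iff_isRoot, IsRoot.def, eval_mul, eval_pow, eval_finsetSum, expand_eval] at h3
    simp only [eval_pow, eval_X, one_pow, Finset.sum_const, Finset.card_range, nsmul_eq_mul,
      mul_one] at h3
    rcases mul_eq_zero.1 h3 with h4 | h4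
    · have : (q : ℤ) ≠ 0 := by exact_mod_cast hq.ne'
      exact pow_ne_zero _ this h4
    · apply hg1
      rw [dvd_iff_isRoot, IsRoot.def]
      exact h4

theorem det_eq {m q n : ℕ} (hq : 0 < q) (c : ℕ → ℕ → ℕ → ℤ)
    (hc : ∀ k ≤ m, Form m q n k (c k)) :
    ∃ a : ℤ, a ≠ 0 ∧ (PM m n c).det = C a * (X - 1) ^ ((m + 1) * n) := by
  have hco := coeff_det m q n c hc
  have hP : (PM m n c).det ≠ 0 := by
    intro h
    rw [h, coeff_zero] at hco
    exact hco rfl
  obtain ⟨h, hh⟩ := dvd_of_dvd_expand hq _ _ hP (dvd_expand m q n c hc)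
  have hX : (X : ℤ[X]) - 1 = X - C 1 := by rw [C_1]
  have hdeg : (PM m n c).det.natDegree ≤ (m + 1) * n := by
    rw [Matrix.det_apply]
    apply natDegree_sum_le_of_forall_le
    intro σ _
    refine (natDegree_smul_le _ _).trans ?_
    refine (natDegree_prod_le _ _).trans ?_
    refine (Finset.sum_le_sum fun i _ => natDegree_PM m n c (σ i) i).trans ?_
    rw [Finset.sum_const, Finset.card_univ, Fintype.card_fin, smul_eq_mul]
  have hh0 : h ≠ 0 := by
    intro h0
    rw [h0, mul_zero] at hh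
    exact hP hh
  have hmon : (((X : ℤ[X]) - 1) ^ ((m + 1) * n)).Monic := by
    rw [hX]
    exact (monic_X_sub_C 1).pow _
  have hdeg2 : (PM m n c).det.natDegree = (m + 1) * n + h.natDegree := by
    rw [hh, hmon.natDegree_mul' hh0, hX, (monic_X_sub_C (1 : ℤ)).natDegree_pow,
      natDegree_X_sub_C, mul_one]
  have hd0 : h.natDegree = 0 := by omega
  refine ⟨h.coeff 0, ?_, ?_⟩
  · intro h0
    apply hh0
    rw [eq_C_of_natDegree_eq_zero hd0, h0, C_0]
  · rw [hh, ← eq_C_of_natDegree_eq_zero hd0, mul_comm]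

end Pool.Agent.H374R2.W.B

namespace Pool.Agent.H374R2.W.B

open Finset Polynomial
open Pool.Agent.H374R2.W

/-- Task B (the `m + 1` forms are linearly independent). -/
theorem exists_ne {m q n : ℕ} (hq : 0 < q) (c : ℕ → ℕ → ℕ → ℤ)
    (hc : ∀ k ≤ m, Form m q n k (c k)) {X Y : ℤ} (hX : X ≠ 0) (hXY : X ≠ Y) (x : ℕ → ℤ)
    (hx : x 0 ≠ 0) : ∃ k ≤ m, val m n (c k) X Y x ≠ 0 := by
  by_contra hcon
  push Not at hcon
  obtain ⟨a, ha, hdet⟩ := det_eq hq c hc
  have hXq : (X : ℚ) ≠ 0 := by exact_mod_cast hX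
  set w : ℚ := (Y : ℚ) / X with hw
  have hw1 : w ≠ 1 := by
    rw [hw, Ne, div_eq_one_iff_eq hXq]
    exact_mod_cast hXY.symm
  set M : Matrix (Fin (m + 1)) (Fin (m + 1)) ℚ :=
    (PM m n c).map (fun p => (p.map (Int.castRingHom ℚ)).eval w) with hM
  have hMdet : M.det = (a : ℚ) * (w - 1) ^ ((m + 1) * n) := by
    have h1 : M.det = (((PM m n c).det).map (Int.castRingHom ℚ)).eval w := by
      have h2 := ((evalRingHom w).comp (mapRingHom (Int.castRingHom ℚ))).map_det (PM m n c)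
      rw [hM]
      exact h2.symm
    rw [h1, hdet]
    simp
  have hM0 : M.det ≠ 0 := by
    rw [hMdet]
    have : (a : ℚ) ≠ 0 := by exact_mod_cast ha
    exact mul_ne_zero this (pow_ne_zero _ (sub_ne_zero.2 hw1))
  have hv : M.mulVec (fun j : Fin (m + 1) => (x j : ℚ)) = 0 := by
    funext k
    have hk := hcon k (Nat.lt_succ_iff.1 k.2)
    have h1 : ((val m n (c k) X Y x : ℤ) : ℚ) =
        (X : ℚ) ^ n * (M.mulVec (fun j : Fin (m + 1) => (x j : ℚ))) k := by
      rw [val, Matrix.mulVec, dotProduct, ← Fin.sum_univ_eq_sum_range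
        (fun j => ∑ l ∈ range (n + 1), c k j l * Y ^ l * X ^ (n - l) * x j) (m + 1)]
      push_cast
      rw [Finset.mul_sum]
      refine Finset.sum_congr rfl fun j _ => ?_
      rw [hM, Matrix.map_apply, PM, Polynomial.map_sum, eval_finsetSum, Finset.sum_mul,
        Finset.mul_sum]
      refine Finset.sum_congr rfl fun l hl => ?_
      have hln : l ≤ n := Nat.lt_succ_iff.1 (Finset.mem_range.1 hl)
      rw [Polynomial.map_mul, map_C, Polynomial.map_pow, map_X, eval_mul, eval_C, eval_pow,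
        eval_X, eq_intCast]
      have h3 : (X : ℚ) ^ n = (X : ℚ) ^ (n - l) * X ^ l := by rw [← pow_add, Nat.sub_add_cancel hln]
      rw [hw, div_pow, h3]
      have h4 : (X : ℚ) ^ l ≠ 0 := pow_ne_zero _ hXq
      field_simp
    rw [hk, Int.cast_zero] at h1
    have h2 := (mul_eq_zero.1 h1.symm).resolve_left (pow_ne_zero _ hXq)
    rw [h2]
    rfl
  have h0 := Matrix.eq_zero_of_mulVec_eq_zero hM0 hv
  have h1 := congrFun h0 0
  have h2 : (x 0 : ℚ) = 0 := h1
  exact hx (by exact_mod_cast h2)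

end Pool.Agent.H374R2.W.B
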