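import Mathlib
import Pool.Agent.H374R2.W.Defs
import Pool.Agent.H374R2.V.CV

/-!
Task CP: the number of `B` for given data, `p`-adic kind, as a consequence of the uniqueness
theorem UP (taken as an explicit hypothesis).
-/

set_option autoImplicit false

namespace Pool.Agent.H374R2.W.CP

open Finset Pool.Agent.H374R2.W
open Pool.Agent.H374R2.V (HH)
open Pool.Agent.H374R2.V.CV (Dat natAbs_T)
open Pool.Agent.H374R2.T (eq_of_pow_eq)

theorem setP_finite (κ : ℝ) (N q i p A : ℕ) (s σ : ℤ) : (SetP κ N q i p A s σ).Finite :=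
  (Set.finite_Icc 0 N).subset (fun _ hB => ⟨Nat.zero_le _, hB.2.1⟩)

theorem HH_eq {q i A x' U : ℕ} {s : ℤ} (hs : s = 1 ∨ s = -1) :
    HH q (s * (A : ℤ) ^ i) U (A ^ x') = ht q A U (q * x' + i) := by
  unfold HH ht
  have h1 : (s * (A : ℤ) ^ i).natAbs = A ^ i := natAbs_T hs A i
  rw [h1, ← pow_mul, ← pow_add]
  congr 2
  ring

/-- the solution of the data -/
theorem dat_solP {κ : ℝ} {N q i p A B : ℕ} {s σ : ℤ} {x' y U : ℕ} (hs : s = 1 ∨ s = -1)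
    (hσ : σ = 1 ∨ σ = -1) (hq : 0 < q) (hA : 0 < A) (hp : p.Prime)
    (h : Dat N q i p A B s σ x' y U)
    (hg : κ * Real.log (ht q A U (q * x' + i)) ≤ y * Real.log p)
    (hl : 50 * (3 / κ + 1) * Real.log (10 ^ 8 * (q : ℝ) ^ 9) ≤
      Real.log (ht q A U (q * x' + i))) :
    SolP κ q p (s * (A : ℤ) ^ i) U (A ^ x') (σ * (B : ℤ) ^ y) := by
  have hS := h.sol hs hσ hq hA
  refine ⟨h.U0, hS.V0, hS.T0, hS.a0, hS.eq, hS.UV, ?_, ?_, ⟨y, hS.dT, ?_⟩, ?_⟩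
  · intro h1
    exact h.prime_cond hs hσ hq hp h1 (Or.inr h.dB)
  · intro h1
    have h2 : p ∣ A := hp.dvd_of_dvd_pow h1
    exact hp.not_dvd_one (h.cop ▸ Nat.dvd_gcd h2 h.dB)
  · rw [HH_eq hs]
    exact hg
  · rw [HH_eq hs]
    exact hl

/-- Task CP (number of `B` for given data, `p`-adic kind; consequence of UP). -/
theorem setP_card
    (hUP : ∀ {κ : ℝ} {q p U V U' V' : ℕ} {a T T' : ℤ}, 0 < κ → κ ≤ 1 → IsPrimePow q →
      100 / κ ^ 2 ≤ q → p.Prime → ¬ p ∣ q → SolP κ q p a U V T → SolP κ q p a U' V' T' →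
      U * V' ≡ U' * V [MOD p] → U = U' ∧ V = V')
    {κ : ℝ} {N q i p A : ℕ} {s σ : ℤ} (hκ0 : 0 < κ) (hκ1 : κ ≤ 1)
    (hq : IsPrimePow q) (hqκ : 100 / κ ^ 2 ≤ q) (hp : p.Prime) (hpq : ¬ p ∣ q) (hA : 0 < A)
    (hs : s = 1 ∨ s = -1) (hσ : σ = 1 ∨ σ = -1) :
    (SetP κ N q i p A s σ).Finite ∧ (SetP κ N q i p A s σ).ncard ≤ q := by
  classical
  refine ⟨setP_finite _ _ _ _ _ _ _ _, ?_⟩
  have hq0 : 0 < q := hq.pos
  have : Fact p.Prime := ⟨hp⟩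
  -- choice of the data
  have hch : ∀ B : ℕ, ∃ t : ℕ × ℕ × ℕ, B ∈ SetP κ N q i p A s σ →
      Dat N q i p A B s σ t.1 t.2.1 t.2.2 ∧
      SolP κ q p (s * (A : ℤ) ^ i) t.2.2 (A ^ t.1) (σ * (B : ℤ) ^ t.2.1) := by
    intro B
    by_cases h : B ∈ SetP κ N q i p A s σ
    · obtain ⟨h1, h2, h3, h4, h5, x', y, U, h6, h7, h8, h9, h10⟩ := h
      have hD : Dat N q i p A B s σ x' y U := ⟨h6, h7, h8, h1, h2, h3, h4, h5⟩
      exact ⟨(x', y, U), fun _ => ⟨hD, dat_solP hs hσ hq0 hA hp hD h9 h10⟩⟩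
    · exact ⟨(0, 0, 0), fun h' => absurd h' h⟩
  choose t ht using hch
  have hAl : ∀ B ∈ SetP κ N q i p A s σ, (A : ZMod p) ≠ 0 := by
    intro B hB h0
    rw [ZMod.natCast_eq_zero_iff] at h0
    exact hp.not_dvd_one ((ht B hB).1.cop ▸ Nat.dvd_gcd h0 (ht B hB).1.dB)
  have key : (SetP κ N q i p A s σ).ncard ≤
      {u : ZMod p | u ^ q = ((s * (A : ℤ) ^ i : ℤ) : ZMod p)}.ncard := by
    apply Set.ncard_le_ncard_of_injOn
      (fun B => ((t B).2.2 : ZMod p) * ((A : ZMod p) ^ (t B).1)⁻¹)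
    · intro B hB
      rw [Set.mem_ofPred_eq]
      have hD := (ht B hB).1
      have h1 := congrArg (fun z : ℤ => (z : ZMod p)) hD.eq
      have h3 : (B : ZMod p) = 0 := (ZMod.natCast_eq_zero_iff _ _).mpr hD.dB
      push_cast at h1 ⊢
      rw [h3, zero_pow hD.y0.ne', mul_zero, sub_eq_zero] at h1
      have h4 : (A : ZMod p) ^ (t B).1 ≠ 0 := pow_ne_zero _ (hAl B hB)
      rw [mul_pow, inv_pow, h1, pow_add, ← pow_mul, mul_comm (t B).1 q]
      have h5 : (A : ZMod p) ^ (q * (t B).1) ≠ 0 := pow_ne_zero _ (hAl B hB)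
      field_simp
    · intro B hB B' hB' hBB
      obtain ⟨hD, hS⟩ := ht B hB
      obtain ⟨hD', hS'⟩ := ht B' hB'
      have hroot : (t B).2.2 * A ^ (t B').1 ≡ (t B').2.2 * A ^ (t B).1 [MOD p] := by
        have h1 : ((t B).2.2 : ZMod p) * ((A : ZMod p) ^ (t B).1)⁻¹ =
            ((t B').2.2 : ZMod p) * ((A : ZMod p) ^ (t B').1)⁻¹ := hBB
        have h2 : (A : ZMod p) ≠ 0 := hAl B hB
        have h3 : (A : ZMod p) ^ (t B).1 ≠ 0 := pow_ne_zero _ h2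
        have h4 : (A : ZMod p) ^ (t B').1 ≠ 0 := pow_ne_zero _ h2
        rw [← ZMod.natCast_eq_natCast_iff]
        push_cast
        field_simp at h1
        rw [h1]
        ring
      obtain ⟨e1, e2⟩ := hUP hκ0 hκ1 hq hqκ hp hpq hS hS' hroot
      have e3 := hS.eq
      rw [e1, e2, hS'.eq] at e3
      have e4 := congrArg Int.natAbs e3
      rw [natAbs_T hσ, natAbs_T hσ] at e4
      exact (eq_of_pow_eq hD'.B0 hD.B0 hD'.y0 hD.y0 hD'.np hD.np e4).symm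
  exact key.trans (Fc.roots_le hp hq0 _)

end Pool.Agent.H374R2.W.CP
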