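import Mathlib
import Pool.Agent.H374R2.W.Defs

/-!
Task CR: number of `B` for given data, real kind (consequence of UR).
-/

set_option autoImplicit false

namespace Pool.Agent.H374R2.W.CR

open Finset Polynomial
open Pool.Agent.H374R2.V (HH)

theorem pow_of_coprime {B B' a b : ℕ} (hB : 0 < B) (ha : 0 < a)
    (hab : Nat.Coprime a b) (h : B ^ a = B' ^ b) : ∃ c, B = c ^ b := by
  rcases Nat.lt_or_ge 1 b with hb1 | hb1
  · obtain ⟨u, hu⟩ := Nat.exists_mul_mod_eq_one_of_coprime hab hb1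
    -- a * u = 1 + b * v
    obtain ⟨v, hv⟩ : ∃ v, a * u = b * v + 1 := ⟨a * u / b, by
      have := Nat.div_add_mod (a * u) b
      omega⟩
    have h1 : (B' ^ u) ^ b = B * (B ^ v) ^ b := by
      calc (B' ^ u) ^ b = (B' ^ b) ^ u := by rw [← pow_mul, ← pow_mul, mul_comm]
        _ = (B ^ a) ^ u := by rw [h]
        _ = B ^ (b * v + 1) := by rw [← pow_mul, hv]
        _ = B * (B ^ v) ^ b := by rw [pow_succ, ← pow_mul, mul_comm v b, mul_comm]
    have h2 : (B ^ v) ^ b ∣ (B' ^ u) ^ b := ⟨B, by rw [h1, mul_comm]⟩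
    have h3 : B ^ v ∣ B' ^ u := (Nat.pow_dvd_pow_iff (by omega)).mp h2
    obtain ⟨c, hc⟩ := h3
    refine ⟨c, ?_⟩
    rw [hc, mul_pow] at h1
    have h4 : 0 < (B ^ v) ^ b := by positivity
    have h5 : (B ^ v) ^ b * c ^ b = (B ^ v) ^ b * B := by rw [h1, mul_comm]
    exact (Nat.eq_of_mul_eq_mul_left h4 h5).symm
  · rcases Nat.eq_zero_or_pos b with h0 | h0
    · subst h0
      rw [pow_zero] at h
      refine ⟨1, ?_⟩
      rw [pow_zero]
      by_contra hne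
      have h2 : 2 ≤ B := by omega
      have h3 : 2 ^ 1 ≤ B ^ a := (Nat.pow_le_pow_left h2 1).trans (Nat.pow_le_pow_right hB ha)
      omega
    · have : b = 1 := by omega
      subst this
      exact ⟨B, by rw [pow_one]⟩

theorem eq_of_pow_eq {B B' y y' : ℕ} (hB : 0 < B) (hB' : 0 < B') (hy : 0 < y) (hy' : 0 < y')
    (hBp : ¬ ∃ w k : ℕ, 2 ≤ k ∧ B = w ^ k) (hBp' : ¬ ∃ w k : ℕ, 2 ≤ k ∧ B' = w ^ k)
    (h : B ^ y = B' ^ y') : B = B' := by
  obtain ⟨g, a, b, hg, hcop, rfl, rfl⟩ : ∃ g a b, 0 < g ∧ Nat.Coprime a b ∧ y = a * g ∧ y' = b * g := by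
    obtain ⟨a, b, h1, h2, h3⟩ := Nat.exists_coprime y y'
    exact ⟨_, a, b, Nat.gcd_pos_of_pos_left _ hy, h1, h2, h3⟩
  have ha : 0 < a := by
    rcases Nat.eq_zero_or_pos a with h0 | h0
    · subst h0; simp at hy
    · exact h0
  have hb : 0 < b := by
    rcases Nat.eq_zero_or_pos b with h0 | h0
    · subst h0; simp at hy'
    · exact h0
  rw [pow_mul, pow_mul] at h
  have h1 : B ^ a = B' ^ b := Nat.pow_left_injective hg.ne' h
  obtain ⟨c, hc⟩ := pow_of_coprime hB ha hcop h1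
  obtain ⟨c', hc'⟩ := pow_of_coprime hB' hb hcop.symm h1.symm
  have hb1 : b = 1 := by
    by_contra hne
    exact hBp ⟨c, b, by omega, hc⟩
  have ha1 : a = 1 := by
    by_contra hne
    exact hBp' ⟨c', a, by omega, hc'⟩
  subst hb1; subst ha1
  simpa using h1


theorem toSol {κ : ℝ} {q i A B x' y U : ℕ} {σ : ℤ} (hq : 0 < q) (hA : 0 < A)
    (hσ : σ = 1 ∨ σ = -1) (hB : 0 < B) (hAB : Nat.Coprime A B) (hU : 0 < U)
    (heq : (U : ℤ) ^ q - (A : ℤ) ^ (q * x' + i) = σ * (B : ℤ) ^ y)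
    (hgood : y * Real.log B ≤ (1 - κ) * Real.log (ht q A U (q * x' + i)))
    (hlarge : 50 * (3 / κ + 1) * Real.log (10 ^ 8 * (q : ℝ) ^ 9) ≤
      Real.log (ht q A U (q * x' + i))) :
    SolR κ q ((A : ℤ) ^ i) U (A ^ x') (σ * (B : ℤ) ^ y) := by
  have hHH : HH q ((A : ℤ) ^ i) U (A ^ x') = ht q A U (q * x' + i) := by
    unfold HH ht
    congr 1
    rw [Int.natAbs_pow, Int.natAbs_natCast, ← pow_mul, ← pow_add]
    congr 1
    ring
  have hσ0 : σ ≠ 0 := by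
    rcases hσ with h | h <;> rw [h] <;> norm_num
  have hBz : (B : ℤ) ≠ 0 := by exact_mod_cast hB.ne'
  refine ⟨hU, by positivity, mul_ne_zero hσ0 (pow_ne_zero _ hBz), ?_, ?_, ?_, ?_, ?_⟩
  · have : (0 : ℤ) < A := by exact_mod_cast hA
    positivity
  · rw [← heq]
    push_cast
    rw [← pow_mul, ← pow_add]
    have e0 : i + x' * q = q * x' + i := by ring
    rw [e0]
  · rw [Nat.coprime_iff_gcd_eq_one]
    by_contra hne
    obtain ⟨p, hp, hpd⟩ := Nat.exists_prime_and_dvd hne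
    have h1 : p ∣ U := hpd.trans (Nat.gcd_dvd_left _ _)
    have h2 : p ∣ A := hp.dvd_of_dvd_pow (hpd.trans (Nat.gcd_dvd_right _ _))
    have hx' : x' ≠ 0 := by
      intro h0
      have h3 : p ∣ 1 := by
        have := hpd.trans (Nat.gcd_dvd_right _ _)
        rwa [h0, pow_zero] at this
      exact hp.one_lt.ne' (Nat.dvd_one.mp h3)
    have h4 : (p : ℤ) ∣ σ * (B : ℤ) ^ y := by
      rw [← heq]
      apply dvd_sub
      · exact dvd_pow (by exact_mod_cast h1) hq.ne'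
      · apply dvd_pow (by exact_mod_cast h2)
        have : 0 < q * x' := Nat.mul_pos hq (Nat.pos_of_ne_zero hx')
        omega
    have h5 : (p : ℤ) ∣ (B : ℤ) ^ y := by
      rcases hσ with h | h
      · rw [h, one_mul] at h4
        exact h4
      · rw [h, neg_one_mul] at h4
        exact (dvd_neg).mp h4
    have h6 : p ∣ B := by
      have : p ∣ B ^ y := by exact_mod_cast h5
      exact hp.dvd_of_dvd_pow this
    have h7 : p ∣ Nat.gcd A B := Nat.dvd_gcd h2 h6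
    rw [hAB] at h7
    exact hp.one_lt.ne' (Nat.dvd_one.mp h7)
  · rw [hHH]
    refine le_trans (le_of_eq ?_) hgood
    have : |((σ * (B : ℤ) ^ y : ℤ) : ℝ)| = (B : ℝ) ^ y := by
      push_cast
      rw [abs_mul]
      have e1 : |(σ : ℝ)| = 1 := by
        rcases hσ with h | h <;> rw [h] <;> simp
      rw [e1, one_mul, abs_of_nonneg (by positivity)]
    rw [this, Real.log_pow]
  · rw [hHH]
    exact hlarge

/-- Task CR (number of `B` for given data, real kind; consequence of UR). -/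
theorem setR_card
    (hUR : ∀ {κ : ℝ} {q U V U' V' : ℕ} {a T T' : ℤ}, 0 < κ → κ ≤ 1 →
      IsPrimePow q → 100 / κ ^ 2 ≤ q →
      SolR κ q a U V T → SolR κ q a U' V' T' → U = U' ∧ V = V')
    {κ : ℝ} {N q i A : ℕ} {σ : ℤ} (hκ0 : 0 < κ) (hκ1 : κ ≤ 1)
    (hq : IsPrimePow q) (hqκ : 100 / κ ^ 2 ≤ q) (hA : 0 < A) (hσ : σ = 1 ∨ σ = -1) :
    (SetR κ N q i A σ).Finite ∧ (SetR κ N q i A σ).ncard ≤ 1 := by
  have hfin : (SetR κ N q i A σ).Finite :=
    (Set.finite_Icc 0 N).subset (fun _ hB => ⟨Nat.zero_le _, hB.2.1⟩)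
  refine ⟨hfin, ?_⟩
  rw [Set.ncard_le_one hfin]
  rintro B ⟨hB, hBN, hAB, hBp, x', y, U, hy, hU, heq, hgood, hlarge⟩
    B' ⟨hB', hBN', hAB', hBp', x'', y', U', hy', hU', heq', hgood', hlarge'⟩
  have S := toSol hq.pos hA hσ hB hAB hU heq hgood hlarge
  have S' := toSol hq.pos hA hσ hB' hAB' hU' heq' hgood' hlarge'
  obtain ⟨h1, h2⟩ := hUR hκ0 hκ1 hq hqκ S S'
  have e1 := S.eq
  have e2 := S'.eq
  rw [h1, h2, e2] at e1
  have hσ0 : σ ≠ 0 := by
    rcases hσ with h | h <;> rw [h] <;> norm_num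
  have e3 : (B' : ℤ) ^ y' = (B : ℤ) ^ y := mul_left_cancel₀ hσ0 e1
  have e4 : B' ^ y' = B ^ y := by exact_mod_cast e3
  exact eq_of_pow_eq hB hB' hy hy' hBp hBp' e4.symm

end Pool.Agent.H374R2.W.CR
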