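import Pool.Agent.H374R2.W.Defs
import Pool.Agent.H374R2.T.TaskD1

/-!
Task DN (density: a prime divisor between `N ^ κ` and `N ^ θ`).
-/

set_option autoImplicit false

namespace Pool.Agent.H374R2.W.DN

open Finset Filter Topology Pool.Agent.H374R2 Pool.Agent.Helper923.HMertens

/-- Task DN (density: a prime divisor between `N ^ κ` and `N ^ θ`). -/
theorem prime_between {ε θ : ℝ} (hε : 0 < ε) (hθ : 0 < θ) (hθ1 : θ ≤ 1) :
    ∃ κ : ℝ, 0 < κ ∧ κ < θ ∧ ∃ N₀ : ℕ, ∀ N : ℕ, N₀ ≤ N →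
      (({B : ℕ | 0 < B ∧ B ≤ N ∧ ∀ p : ℕ, p.Prime → (N : ℝ) ^ κ < p → (p : ℝ) ≤ (N : ℝ) ^ θ →
        ¬ p ∣ B}.ncard : ℕ) : ℝ) ≤ ε * N := by
  classical
  obtain ⟨C, hC0, hC⟩ := mertens_ratio
  obtain ⟨m, hm⟩ := exists_nat_ge ((2 / θ) * Real.exp (3 / ε + 1))
  have hmR : (0 : ℝ) < m := lt_of_lt_of_le (by positivity) hm
  have hmθ : Real.exp (3 / ε + 1) ≤ m * θ / 2 := by
    have : (2 / θ) * Real.exp (3 / ε + 1) * (θ / 2) ≤ m * (θ / 2) := by gcongr
    have e : (2 / θ) * Real.exp (3 / ε + 1) * (θ / 2) = Real.exp (3 / ε + 1) := by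
      field_simp
    linarith
  have hlogmθ : 3 / ε + 1 ≤ Real.log (m * θ / 2) := by
    rw [Real.le_log_iff_exp_le (by positivity)]
    exact hmθ
  have h2e : (1 : ℝ) ≤ Real.exp (3 / ε + 1) := Real.one_le_exp (by positivity)
  have hmθ1 : 1 / (m : ℝ) < θ := by
    rw [div_lt_iff₀ hmR]
    nlinarith
  have hlog : Tendsto (fun N : ℕ => Real.log N) atTop atTop :=
    Real.tendsto_log_atTop.comp tendsto_natCast_atTop_atTop
  have hl2 : 0 < Real.log 2 := Real.log_pos (by norm_num)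
  have hev1 := hlog.eventually (eventually_ge_atTop (2 * Real.log 2 / θ))
  have hev2 := hlog.eventually (eventually_ge_atTop (m * (C + 1 + Real.log 2)))
  obtain ⟨N₂, hN₂⟩ := eventually_atTop.mp ((hev1.and hev2).and (eventually_ge_atTop 2))
  refine ⟨1 / m, by positivity, hmθ1, N₂, fun N hN2 => ?_⟩
  obtain ⟨⟨hL1, hL2⟩, hN2'⟩ := hN₂ N hN2
  have hNR : (0 : ℝ) < N := by exact_mod_cast (by omega : 0 < N)
  have hN1R : (1 : ℝ) ≤ N := by exact_mod_cast (by omega : 1 ≤ N)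
  set L := Real.log N with hL
  have hLpos : 0 < L := by
    have : 0 < m * (C + 1 + Real.log 2) := by positivity
    linarith
  rw [div_le_iff₀ hθ] at hL1
  -- the endpoints of the range of primes
  set a : ℕ := ⌊(N : ℝ) ^ ((1 : ℝ) / m)⌋₊ with ha
  set b : ℕ := ⌊(N : ℝ) ^ θ⌋₊ with hb
  have hNm1 : (1 : ℝ) ≤ (N : ℝ) ^ ((1 : ℝ) / m) := Real.one_le_rpow hN1R (by positivity)
  have hNθ1 : (1 : ℝ) ≤ (N : ℝ) ^ θ := Real.one_le_rpow hN1R hθ.le
  have ha_lb : (N : ℝ) ^ ((1 : ℝ) / m) / 2 ≤ a := T.TaskD1.half_le_floor hNm1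
  have ha_ub : (a : ℝ) ≤ (N : ℝ) ^ ((1 : ℝ) / m) := Nat.floor_le (by positivity)
  have hb_lb : (N : ℝ) ^ θ / 2 ≤ b := T.TaskD1.half_le_floor hNθ1
  have hb_ub : (b : ℝ) ≤ (N : ℝ) ^ θ := Nat.floor_le (by positivity)
  have haR : (0 : ℝ) < a := lt_of_lt_of_le (by positivity) ha_lb
  have hbR : (0 : ℝ) < b := lt_of_lt_of_le (by positivity) hb_lb
  have hloga_lb : L / m - Real.log 2 ≤ Real.log a := by
    have h := Real.log_le_log (by positivity) ha_lb
    rw [Real.log_div (by positivity) (by norm_num), Real.log_rpow hNR] at h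
    rw [← hL] at h
    calc L / m - Real.log 2 = 1 / (m : ℝ) * L - Real.log 2 := by ring
      _ ≤ _ := h
  have hloga_ub : Real.log a ≤ L / m := by
    have h := Real.log_le_log haR ha_ub
    rw [Real.log_rpow hNR] at h
    rw [← hL] at h
    calc Real.log a ≤ 1 / (m : ℝ) * L := h
      _ = _ := by ring
  have hlogb_lb : θ * L - Real.log 2 ≤ Real.log b := by
    have h := Real.log_le_log (by positivity) hb_lb
    rw [Real.log_div (by positivity) (by norm_num), Real.log_rpow hNR] at h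
    exact h
  have hLm : C + 1 + Real.log 2 ≤ L / m := by
    rw [le_div_iff₀ hmR]; linarith
  have hlogaC : C + 1 ≤ Real.log a := by linarith
  have hloga0 : 0 < Real.log a := by linarith
  have ha2 : 2 ≤ a := by
    by_contra hcon
    have : a ≤ 1 := by omega
    have h1 : (a : ℝ) ≤ 1 := by exact_mod_cast this
    have h2 := Real.log_nonpos haR.le h1
    linarith
  have hab : a ≤ b := by
    apply Nat.floor_le_floor
    exact Real.rpow_le_rpow_of_exponent_le hN1R hmθ1.le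
  have hsum := (abs_le.mp (hC a b ha2 hab)).1
  set S : Finset ℕ := (Finset.Ioc a b).filter Nat.Prime with hSdef
  have hμ : 3 / ε ≤ ∑ p ∈ S, (1 : ℝ) / p := by
    have e1 : Real.log (m * θ / 2) ≤ Real.log (Real.log b / Real.log a) := by
      apply Real.log_le_log (by positivity)
      rw [le_div_iff₀ hloga0]
      calc m * θ / 2 * Real.log a ≤ m * θ / 2 * (L / m) := by gcongr
        _ = θ * L / 2 := by field_simp
        _ ≤ Real.log b := by linarith
    have e2 : C / Real.log a ≤ 1 := by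
      rw [div_le_one hloga0]; linarith
    linarith
  have hbN : b ≤ N := by
    have h1 : (b : ℝ) ≤ N := by
      refine hb_ub.trans ?_
      calc (N : ℝ) ^ θ ≤ (N : ℝ) ^ (1 : ℝ) :=
            Real.rpow_le_rpow_of_exponent_le hN1R hθ1
        _ = N := Real.rpow_one _
    exact_mod_cast h1
  have hS : ∀ p ∈ S, p.Prime ∧ p ≤ N := by
    intro p hp
    rw [hSdef, Finset.mem_filter, Finset.mem_Ioc] at hp
    exact ⟨hp.2, hp.1.2.trans hbN⟩
  have hTK := T.TaskD1.turan_kubilius (N := N) S hS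
  set U := (Finset.Ioc 0 N).filter (fun B => ∀ p ∈ S, ¬ p ∣ B) with hU
  have E3 : (U.card : ℝ) ≤ ε * N := by
    have h1 : (U.card : ℝ) * (3 / ε) ≤ 3 * N := by
      refine le_trans ?_ hTK
      gcongr
    have h2 : (U.card : ℝ) = (U.card : ℝ) * (3 / ε) * (ε / 3) := by field_simp
    rw [h2]
    calc (U.card : ℝ) * (3 / ε) * (ε / 3) ≤ 3 * N * (ε / 3) := by gcongr
      _ = _ := by ring
  have hsub : {B : ℕ | 0 < B ∧ B ≤ N ∧ ∀ p : ℕ, p.Prime → (N : ℝ) ^ ((1 : ℝ) / m) < p →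
      (p : ℝ) ≤ (N : ℝ) ^ θ → ¬ p ∣ B} ⊆ (U : Set ℕ) := by
    rintro B ⟨hB0, hBN, hB⟩
    rw [hU, Finset.mem_coe, Finset.mem_filter, Finset.mem_Ioc]
    refine ⟨⟨hB0, hBN⟩, fun p hp => ?_⟩
    rw [hSdef, Finset.mem_filter, Finset.mem_Ioc] at hp
    obtain ⟨⟨h1, h2⟩, h3⟩ := hp
    refine hB p h3 ?_ ?_
    · have h7 : (N : ℝ) ^ ((1 : ℝ) / m) < (a : ℝ) + 1 := Nat.lt_floor_add_one _
      have h8 : ((a : ℝ) + 1) ≤ p := by exact_mod_cast h1
      linarith
    · have h8 : (p : ℝ) ≤ b := by exact_mod_cast h2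
      linarith
  have hcard := Set.ncard_le_ncard hsub (Finset.finite_toSet U)
  rw [Set.ncard_coe_finset] at hcard
  refine le_trans ?_ E3
  exact_mod_cast hcard

end Pool.Agent.H374R2.W.DN
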