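import Pool.Agent.H374R2.W.Defs

/-! Task EQ (choice of a prime power divisor of the exponent). -/

set_option autoImplicit false

namespace Pool.Agent.H374R2.W.EQ

/-- Task EQ (choice of a prime power divisor of the exponent). -/
theorem exists_q {q₀ z C : ℕ} (hq₀ : 2 ≤ q₀) (hz : q₀ ^ q₀ ≤ z) (hC : 0 < C) :
    ∃ q U : ℕ, IsPrimePow q ∧ q₀ ≤ q ∧ 0 < U ∧ U ^ q = C ^ z ∧
      (q ≤ q₀ ^ 2 ∨ q ≤ 2 ^ q₀ ∨ (q.Prime ∧ 2 ≤ U)) := by
  have hz0 : 0 < z := lt_of_lt_of_le (by positivity) hz
  rcases Nat.lt_or_ge C 2 with hC1 | hC2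
  · have hC' : C = 1 := by omega
    subst hC'
    refine ⟨2 ^ q₀, 1, ?_, Nat.lt_two_pow_self.le, one_pos, by simp, Or.inr (Or.inl le_rfl)⟩
    exact Nat.prime_two.prime.isPrimePow.pow (by omega)
  · by_cases hbig : ∃ p, p.Prime ∧ p ∣ z ∧ q₀ ≤ p
    · obtain ⟨p, hp, hpz, hpq⟩ := hbig
      have hpos : 0 < z / p := Nat.div_pos (Nat.le_of_dvd hz0 hpz) hp.pos
      refine ⟨p, C ^ (z / p), hp.prime.isPrimePow, hpq, by positivity, ?_, Or.inr (Or.inr ⟨hp, ?_⟩)⟩
      · rw [← pow_mul, Nat.div_mul_cancel hpz]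
      · exact hC2.trans (Nat.le_self_pow hpos.ne' C)
    · push Not at hbig
      have hex : ∃ p, p.Prime ∧ p ∣ z ∧ q₀ ≤ p ^ (z.factorization p) := by
        by_contra hno
        push Not at hno
        have h1 : z = ∏ p ∈ z.primeFactors, p ^ (z.factorization p) := by
          conv_lhs => rw [← Nat.prod_factorization_pow_eq_self hz0.ne']
          rfl
        have h2 : ∏ p ∈ z.primeFactors, p ^ (z.factorization p) ≤ ∏ _p ∈ z.primeFactors, q₀ := by
          apply Finset.prod_le_prod'
          intro p hp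
          exact (hno p (Nat.prime_of_mem_primeFactors hp) (Nat.dvd_of_mem_primeFactors hp)).le
        rw [Finset.prod_const] at h2
        have h3 : z.primeFactors ⊆ Finset.Ico 1 q₀ := by
          intro p hp
          rw [Finset.mem_Ico]
          exact ⟨(Nat.prime_of_mem_primeFactors hp).one_le,
            hbig p (Nat.prime_of_mem_primeFactors hp) (Nat.dvd_of_mem_primeFactors hp)⟩
        have h4 : z.primeFactors.card ≤ q₀ - 1 := by
          have := Finset.card_le_card h3
          rwa [Nat.card_Ico] at this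
        have h5 : q₀ ^ z.primeFactors.card ≤ q₀ ^ (q₀ - 1) :=
          Nat.pow_le_pow_right (by omega) h4
        have h6 : q₀ ^ (q₀ - 1) < q₀ ^ q₀ := Nat.pow_lt_pow_right (by omega) (by omega)
        rw [← h1] at h2
        omega
      obtain ⟨p, hp, hpz, hpq⟩ := hex
      have hex2 : ∃ e, q₀ ≤ p ^ e := ⟨_, hpq⟩
      classical
      obtain ⟨e, he⟩ : ∃ e, e = Nat.find hex2 := ⟨_, rfl⟩
      have he1 : q₀ ≤ p ^ e := by rw [he]; exact Nat.find_spec hex2
      have he2 : e ≤ z.factorization p := by rw [he]; exact Nat.find_min' hex2 hpq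
      have he0 : e ≠ 0 := by
        intro h0
        rw [h0, pow_zero] at he1
        omega
      have he3 : p ^ (e - 1) < q₀ := by
        have := Nat.find_min hex2 (m := e - 1) (by rw [← he]; omega)
        exact not_le.1 this
      have hpl : p < q₀ := hbig p hp hpz
      have hdvd : p ^ e ∣ z := (pow_dvd_pow p he2).trans (Nat.ordProj_dvd z p)
      refine ⟨p ^ e, C ^ (z / p ^ e), hp.prime.isPrimePow.pow he0, he1, by positivity, ?_, Or.inl ?_⟩
      · rw [← pow_mul, Nat.div_mul_cancel hdvd]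
      · have h1 : p ^ e = p ^ (e - 1) * p := by
          rw [← pow_succ]; congr 1; omega
        rw [h1, sq]
        exact Nat.mul_le_mul he3.le hpl.le

end Pool.Agent.H374R2.W.EQ
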