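import Mathlib
import Pool.Agent.H374R2.W.Defs
import Pool.Agent.H374R2.V.QB

/-!
Task QB: the bound for a prime exponent `q` (consequence of QM and of the two logarithms).
-/

namespace Pool.Agent.H374R2.W.QB

open Finset Pool.Agent.H374R2.T.TaskU
open Pool.Agent.H374R2.V.QB (core dvd_of_pow pow_sub_le pow_add_le)

/-- Task QB (bound for a prime exponent `q`; consequence of QM and of `V.TL.two_logs`). -/
theorem q_bound
    (hQM : ∀ {A U q x : ℕ} (hA : 2 ≤ A) (hU : 2 ≤ U) (hq : q.Prime)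
      (hqx : ¬ q ∣ x) (hx : 0 < x)
      (h : |(U : ℝ) ^ q - (A : ℝ) ^ x| ≤ (A : ℝ) ^ ((x : ℝ) / 2)),
      q ≤ 10 ^ 9 * (Nat.log 2 A + 1) * (Nat.log 2 q + 1) ^ 2)
    {N P A B q x y U p : ℕ} {s σ : ℤ} (hs : s = 1 ∨ s = -1) (hσ : σ = 1 ∨ σ = -1)
    (hq : q.Prime) (hq3 : 3 ≤ q) (hA : 0 < A) (hAN : A ≤ N)
    (hAB : Nat.Coprime A B) (hB0 : 0 < B) (hBN : B ≤ N) (hx : 0 < x) (hx1 : A = 1 → q ∣ x)
    (hy : 0 < y) (hU : 2 ≤ U) (hp : p.Prime) (hp3 : 3 ≤ p) (hpP : p ≤ P) (hpB : p ∣ B)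
    (heq : (U : ℤ) ^ q - s * (A : ℤ) ^ x = σ * (B : ℤ) ^ y) :
    q ≤ 10 ^ 9 * P ^ 2 * (Nat.log 2 q + 1) ^ 2 * (Nat.log 2 N + 1) ^ 2 := by
  by_contra hcon
  rw [not_le] at hcon
  set ν := Nat.log 2 N + 1 with hν
  set lam := Nat.log 2 q + 1 with hlam
  have hR1 : 1 ≤ P := hp.one_lt.le.trans hpP
  have hν1 : 1 ≤ ν := by omega
  have hlam1 : 1 ≤ lam := by omega
  have hNν : N < 2 ^ ν := Nat.lt_pow_succ_log_self (by norm_num) N
  have hR2 : P ≤ P ^ 2 := Nat.le_self_pow (by norm_num) P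
  have hν2 : ν ≤ ν ^ 2 := Nat.le_self_pow (by norm_num) ν
  have hl2 : 1 ≤ lam ^ 2 := Nat.one_le_pow _ _ hlam1
  have hv2 : 1 ≤ ν ^ 2 := Nat.one_le_pow _ _ hν1
  have hr2 : 1 ≤ P ^ 2 := Nat.one_le_pow _ _ hR1
  have hassoc : 10 ^ 9 * P ^ 2 * lam ^ 2 * ν ^ 2 = 10 ^ 9 * (P ^ 2 * lam ^ 2 * ν ^ 2) := by ring
  have hassoc' : 10 ^ 6 * P ^ 2 * lam ^ 2 * ν ^ 2 = 10 ^ 6 * (P ^ 2 * lam ^ 2 * ν ^ 2) := by ring
  have hcon' : 10 ^ 6 * P ^ 2 * lam ^ 2 * ν ^ 2 ≤ q := by omega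
  have hqR : P < q := by
    have h1 : P ^ 2 * 1 * 1 ≤ P ^ 2 * lam ^ 2 * ν ^ 2 :=
      Nat.mul_le_mul (Nat.mul_le_mul_left _ hl2) hv2
    omega
  have hqν : 2 * ν < q := by
    have h1 : 1 * 1 * ν ^ 2 ≤ P ^ 2 * lam ^ 2 * ν ^ 2 :=
      Nat.mul_le_mul_right _ (Nat.mul_le_mul hr2 hl2)
    omega
  have hqodd : Odd q := hq.odd_of_ne_two (by omega)
  have hB3 : 3 ≤ B := hp3.trans (Nat.le_of_dvd hB0 hpB)
  have hss : s * s = 1 := by rcases hs with rfl | rfl <;> norm_num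
  have hσσ : σ * σ = 1 := by rcases hσ with rfl | rfl <;> norm_num
  have hσq : σ ^ q = σ := by
    rcases hσ with rfl | rfl
    · simp
    · exact hqodd.neg_one_pow
  have hsq : s ^ q = s := by
    rcases hs with rfl | rfl
    · simp
    · exact hqodd.neg_one_pow
  -- coprimality
  have hUA : ∀ l : ℕ, l.Prime → l ∣ U → ¬ l ∣ A := by
    intro l hl hlU hlA
    have h1 : (l : ℤ) ∣ σ * (B : ℤ) ^ y := by
      rw [← heq]
      refine dvd_sub ?_ ?_
      · exact dvd_pow (Int.natCast_dvd_natCast.mpr hlU) hq.pos.ne'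
      · exact dvd_mul_of_dvd_right (dvd_pow (Int.natCast_dvd_natCast.mpr hlA) hx.ne') _
    have h2 : (l : ℤ) ∣ (B : ℤ) ^ y := by
      have := dvd_mul_of_dvd_right h1 σ
      rwa [← mul_assoc, hσσ, one_mul] at this
    have h3 : l ∣ B ^ y := by exact_mod_cast h2
    exact hl.not_dvd_one (hAB ▸ Nat.dvd_gcd hlA (hl.dvd_of_dvd_pow h3))
  have hUB : ∀ l : ℕ, l.Prime → l ∣ U → ¬ l ∣ B := by
    intro l hl hlU hlB
    have h1 : (l : ℤ) ∣ s * (A : ℤ) ^ x := by
      have e : s * (A : ℤ) ^ x = (U : ℤ) ^ q - σ * (B : ℤ) ^ y := by linear_combination -heq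
      rw [e]
      refine dvd_sub ?_ ?_
      · exact dvd_pow (Int.natCast_dvd_natCast.mpr hlU) hq.pos.ne'
      · exact dvd_mul_of_dvd_right (dvd_pow (Int.natCast_dvd_natCast.mpr hlB) hy.ne') _
    have h2 : (l : ℤ) ∣ (A : ℤ) ^ x := by
      have := dvd_mul_of_dvd_right h1 s
      rwa [← mul_assoc, hss, one_mul] at this
    have h3 : l ∣ A ^ x := by exact_mod_cast h2
    exact hUA l hl hlU (hl.dvd_of_dvd_pow h3)
  have hAB' : ∀ l : ℕ, l.Prime → l ∣ A → ¬ l ∣ B := by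
    intro l hl h1 h2
    exact hl.not_dvd_one (hAB ▸ Nat.dvd_gcd h1 h2)
  have hpA : ¬ p ∣ A := fun h => hAB' p hp h hpB
  have hpU : ¬ p ∣ U := fun h => hUB p hp h hpB
  obtain ⟨r, hr, hrU⟩ := Nat.exists_prime_and_dvd (show U ≠ 1 by omega)
  have hUne : ∀ k, U ≠ A ^ k := by
    intro k he
    exact hUA r hr hrU (hr.dvd_of_dvd_pow (he ▸ hrU))
  have hUne' : ∀ k, U ≠ B ^ k := by
    intro k he
    exact hUB r hr hrU (hr.dvd_of_dvd_pow (he ▸ hrU))
  have hBy : B ^ y ≤ 2 ^ (ν * y) := by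
    rw [pow_mul]
    exact Nat.pow_le_pow_left (hBN.trans hNν.le) y
  have hpy : (p : ℤ) ^ y ∣ (B : ℤ) ^ y := by
    have : p ^ y ∣ B ^ y := pow_dvd_pow_of_dvd hpB y
    exact_mod_cast this
  -- case `q ∣ x`
  by_cases hqx : q ∣ x
  · obtain ⟨x1, rfl⟩ := hqx
    set V := A ^ x1 with hV
    have hpV : ¬ p ∣ V := fun hd => hpA (hp.dvd_of_dvd_pow hd)
    have heq2 : (U : ℤ) ^ q - (s * (V : ℤ)) ^ q = σ * (B : ℤ) ^ y := by
      rw [← heq, mul_pow, hsq, hV]
      push_cast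
      ring
    have hdv : (p : ℤ) ^ y ∣ (U : ℤ) - s * (V : ℤ) := by
      refine dvd_of_pow hq hy ?_ ?_
      · intro l hl hlp
        have hlp' : l = p := (Nat.prime_dvd_prime_iff_eq hl hp).mp hlp
        subst hlp'
        refine ⟨by omega, fun h => hpU (by exact_mod_cast h), fun h => hpV ?_⟩
        have := dvd_mul_of_dvd_right h s
        rw [← mul_assoc, hss, one_mul] at this
        exact_mod_cast this
      · rw [heq2]
        exact dvd_mul_of_dvd_right hpy _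
    have hne : (U : ℤ) - s * (V : ℤ) ≠ 0 := by
      intro h0
      have h1 : (U : ℤ) = s * V := by linarith
      rw [h1, sub_self] at heq2
      have h2 : (B : ℤ) ^ y = 0 := by
        have := congrArg (fun t => σ * t) heq2
        simp only [mul_zero] at this
        rw [← mul_assoc, hσσ, one_mul] at this
        exact this.symm
      have h3 : (B : ℤ) ≠ 0 := by exact_mod_cast hB0.ne'
      exact pow_ne_zero _ h3 h2
    have hle : p ^ y ≤ ((U : ℤ) - s * (V : ℤ)).natAbs := by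
      have := Int.natAbs_dvd_natAbs.mpr hdv
      rw [Int.natAbs_pow, Int.natAbs_natCast] at this
      exact Nat.le_of_dvd (Int.natAbs_pos.mpr hne) this
    -- upper bound of the power
    have hup : ((U : ℤ) - s * (V : ℤ)).natAbs ^ q ≤ 2 ^ q * B ^ y := by
      rcases hs with rfl | rfl
      · rw [one_mul] at heq2 ⊢
        rcases le_total U V with hUV | hUV
        · have e1 : ((U : ℤ) - (V : ℤ)).natAbs = V - U := by omega
          rw [e1]
          have h2 := pow_sub_le hq.pos.ne' hUV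
          have h3 : V ^ q ≤ U ^ q + B ^ y := by
            have : (V : ℤ) ^ q ≤ (U : ℤ) ^ q + (B : ℤ) ^ y := by
              have hB1 : (0 : ℤ) ≤ (B : ℤ) ^ y := by positivity
              rcases hσ with rfl | rfl <;> linarith
            exact_mod_cast this
          have h4 : B ^ y ≤ 2 ^ q * B ^ y := Nat.le_mul_of_pos_left _ (by positivity)
          omega
        · have e1 : ((U : ℤ) - (V : ℤ)).natAbs = U - V := by omega
          rw [e1]
          have h2 := pow_sub_le hq.pos.ne' hUV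
          have h3 : U ^ q ≤ V ^ q + B ^ y := by
            have : (U : ℤ) ^ q ≤ (V : ℤ) ^ q + (B : ℤ) ^ y := by
              have hB1 : (0 : ℤ) ≤ (B : ℤ) ^ y := by positivity
              rcases hσ with rfl | rfl <;> linarith
            exact_mod_cast this
          have h4 : B ^ y ≤ 2 ^ q * B ^ y := Nat.le_mul_of_pos_left _ (by positivity)
          omega
      · have e1 : ((U : ℤ) - (-1) * (V : ℤ)).natAbs = U + V := by omega
        rw [e1]
        refine (pow_add_le U V q).trans (Nat.mul_le_mul_left _ ?_)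
        have : (U : ℤ) ^ q + (V : ℤ) ^ q ≤ (B : ℤ) ^ y := by
          have hB1 : (0 : ℤ) ≤ (B : ℤ) ^ y := by positivity
          rw [mul_pow, hsq] at heq2
          rcases hσ with rfl | rfl <;> linarith
        exact_mod_cast this
    have h1 : 3 ^ (y * q) ≤ 2 ^ q * 2 ^ (ν * y) := by
      calc 3 ^ (y * q) = (3 ^ y) ^ q := by rw [pow_mul]
        _ ≤ (p ^ y) ^ q := Nat.pow_le_pow_left (Nat.pow_le_pow_left hp3 y) q
        _ ≤ _ := Nat.pow_le_pow_left hle q
        _ ≤ 2 ^ q * B ^ y := hup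
        _ ≤ _ := Nat.mul_le_mul_left _ hBy
    have h2 : 2 ^ (3 * (y * q)) ≤ 2 ^ (2 * (q + ν * y)) := by
      calc 2 ^ (3 * (y * q)) = 8 ^ (y * q) := by rw [pow_mul]; norm_num
        _ ≤ 9 ^ (y * q) := Nat.pow_le_pow_left (by norm_num) _
        _ = (3 ^ 2) ^ (y * q) := by norm_num
        _ = (3 ^ (y * q)) ^ 2 := by rw [← pow_mul, ← pow_mul, mul_comm]
        _ ≤ (2 ^ q * 2 ^ (ν * y)) ^ 2 := Nat.pow_le_pow_left h1 2
        _ = 2 ^ (2 * (q + ν * y)) := by rw [← pow_add, ← pow_mul, mul_comm]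
    have h3 := (Nat.pow_le_pow_iff_right (by norm_num : 1 < 2)).mp h2
    have h4 : q ≤ y * q := Nat.le_mul_of_pos_left q hy
    have h5 : y * q ≤ y * (2 * ν) := by
      have h7 : y * (2 * ν) = 2 * (ν * y) := by ring
      omega
    have h6 := Nat.le_of_mul_le_mul_left h5 hy
    omega
  -- case `¬ q ∣ x`
  have hA2 : 2 ≤ A := by
    by_contra h
    exact hqx (hx1 (by omega))
  set i := x % q with hi
  set x1 := x / q with hx1'
  have hxi : x = q * x1 + i := (Nat.div_add_mod x q).symm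
  have hi0 : 0 < i := Nat.pos_of_ne_zero fun h => hqx (Nat.dvd_of_mod_eq_zero h)
  have hiq : i < q := Nat.mod_lt _ hq.pos
  rcases le_or_gt (A ^ x) (B ^ (2 * y)) with hcase | hcase
  · -- (R1)
    refine absurd (core (N := N) (R := P) (q := q) (y := y) (p := p) (U := U) (V := A ^ x1)
      (A := A) (i := i) hq hp hpP hA hAN (by positivity) hU (hUne _) hpU
      (fun hd => hpA (hp.dvd_of_dvd_pow hd)) hpA hi0 hiq ?_ ?_) (not_lt.mpr hcon')
    · have e1 : (U : ℤ) ^ (2 * q) - ((A ^ x1 : ℕ) : ℤ) ^ (2 * q) * (A : ℤ) ^ (2 * i) =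
          ((U : ℤ) ^ q - s * (A : ℤ) ^ x) * ((U : ℤ) ^ q + s * (A : ℤ) ^ x) := by
        have e2 : ((A ^ x1 : ℕ) : ℤ) ^ (2 * q) * (A : ℤ) ^ (2 * i) =
            (A : ℤ) ^ x * (A : ℤ) ^ x := by
          rw [hxi]
          push_cast
          ring
        rw [e2]
        linear_combination (((A : ℤ) ^ x) ^ 2) * hss
      rw [e1, heq]
      apply Dvd.dvd.mul_right
      exact dvd_mul_of_dvd_right hpy _
    · have hB2 : B ^ (2 * y) ≤ 2 ^ (2 * (ν * y)) := by
        calc B ^ (2 * y) = (B ^ y) ^ 2 := by rw [mul_comm, pow_mul]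
          _ ≤ (2 ^ (ν * y)) ^ 2 := Nat.pow_le_pow_left hBy 2
          _ = _ := by rw [← pow_mul, mul_comm]
      have hBB : B ^ y ≤ B ^ (2 * y) := Nat.pow_le_pow_right hB0 (by omega)
      have hBlt : B ^ y < 2 ^ (ν * y) := by
        rw [pow_mul]
        exact Nat.pow_lt_pow_left (hBN.trans_lt hNν) hy.ne'
      have hB3' : B ^ (2 * y) < 2 ^ (2 * (ν * y)) := by
        calc B ^ (2 * y) = (B ^ y) ^ 2 := by rw [mul_comm, pow_mul]
          _ < (2 ^ (ν * y)) ^ 2 := Nat.pow_lt_pow_left hBlt (by norm_num)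
          _ = _ := by rw [← pow_mul, mul_comm]
      have hU1 : U ^ q ≤ A ^ x + B ^ y := by
        have : (U : ℤ) ^ q ≤ (A : ℤ) ^ x + (B : ℤ) ^ y := by
          have hB1 : (0 : ℤ) ≤ (B : ℤ) ^ y := by positivity
          have hA1 : (0 : ℤ) ≤ (A : ℤ) ^ x := by positivity
          rcases hs with rfl | rfl <;> rcases hσ with rfl | rfl <;> linarith
        exact_mod_cast this
      have hV1 : (A ^ x1) ^ q ≤ A ^ x := by
        rw [← pow_mul]
        exact Nat.pow_le_pow_right hA (by rw [hxi, mul_comm]; omega)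
      have hpow : 2 ^ (2 * (ν * y) + 1) = 2 * 2 ^ (2 * (ν * y)) := by rw [pow_succ, mul_comm]
      rw [hpow]
      rcases max_choice U (A ^ x1) with hc | hc
      · rw [hc]; omega
      · rw [hc]; omega
  · -- (R2)
    have hBB : B ^ y ≤ B ^ (2 * y) := Nat.pow_le_pow_right hB0 (by omega)
    have hs1 : s = 1 := by
      rcases hs with h | h
      · exact h
      · exfalso
        rw [h] at heq
        have hU0 : (0 : ℤ) ≤ (U : ℤ) ^ q := by positivity
        have h1 : (A : ℤ) ^ x ≤ (B : ℤ) ^ y := by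
          have hB1 : (0 : ℤ) ≤ (B : ℤ) ^ y := by positivity
          rcases hσ with rfl | rfl <;> linarith
        have h2 : A ^ x ≤ B ^ y := by exact_mod_cast h1
        omega
    rw [hs1, one_mul] at heq
    have hreal : |(U : ℝ) ^ q - (A : ℝ) ^ x| = (B : ℝ) ^ y := by
      have h1 : (U : ℝ) ^ q - (A : ℝ) ^ x = (σ : ℝ) * (B : ℝ) ^ y := by exact_mod_cast heq
      rw [h1, abs_mul]
      have h2 : |(σ : ℝ)| = 1 := by
        rcases hσ with rfl | rfl <;> simp
      rw [h2, one_mul, abs_of_nonneg (by positivity)]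
    have hle : (B : ℝ) ^ y ≤ (A : ℝ) ^ ((x : ℝ) / 2) := by
      have h1 : ((B : ℝ) ^ y) ^ 2 ≤ (A : ℝ) ^ x := by
        have h2 : (B ^ y) ^ 2 ≤ A ^ x := by
          rw [← pow_mul, mul_comm]
          exact hcase.le
        exact_mod_cast h2
      have h3 : ((A : ℝ) ^ ((x : ℝ) / 2)) ^ 2 = (A : ℝ) ^ x := by
        rw [← Real.rpow_natCast ((A : ℝ) ^ ((x : ℝ) / 2)) 2, ← Real.rpow_mul (by positivity)]
        rw [← Real.rpow_natCast (A : ℝ) x]
        congr 1
        push_cast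
        ring
      rw [← h3] at h1
      exact (pow_le_pow_iff_left₀ (by positivity) (by positivity) (by norm_num)).mp h1
    have h1 := hQM hA2 hU hq hqx hx (hreal.trans_le hle)
    rw [← hlam] at h1
    have h2 : Nat.log 2 A + 1 ≤ ν := by
      have := Nat.log_mono_right (b := 2) hAN
      omega
    have h3 : 10 ^ 9 * (Nat.log 2 A + 1) * lam ^ 2 ≤ 10 ^ 9 * (P ^ 2 * lam ^ 2 * ν ^ 2) := by
      calc 10 ^ 9 * (Nat.log 2 A + 1) * lam ^ 2 = 10 ^ 9 * (1 * lam ^ 2 * (Nat.log 2 A + 1)) := by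
            ring
        _ ≤ 10 ^ 9 * (P ^ 2 * lam ^ 2 * ν ^ 2) := by
            apply Nat.mul_le_mul_left
            exact Nat.mul_le_mul (Nat.mul_le_mul_right _ hr2) (h2.trans hν2)
    omega

end Pool.Agent.H374R2.W.QB
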