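import Mathlib
import Pool.Agent.H374R2.W.Defs
import Pool.Agent.H374R2.T.TaskZ
import Pool.Agent.H440R2.Schwarz

/-!
Task QL: an explicit lower bound for `|b log U - a log A|` (two logarithms, real case) by
interpolation determinants with binomial coefficients.
-/

namespace Pool.Agent.H374R2.W.QL

open Finset

lemma exists_det_ne_zero {ι T : Type*} [Fintype ι] [DecidableEq ι] (w : T → ι → ℚ) (T' : Set T)
    (h : ∀ c : ι → ℚ, (∀ τ ∈ T', ∑ i, c i * w τ i = 0) → c = 0) :
    ∃ j : ι → T, (∀ i, j i ∈ T') ∧ (Matrix.of fun i i' => w (j i') i).det ≠ 0 := by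
  classical
  have hspan : Submodule.span ℚ (w '' T') = ⊤ := by
    by_contra hne
    have hlt : Submodule.span ℚ (w '' T') < ⊤ := lt_top_iff_ne_top.mpr hne
    obtain ⟨f, hf0, hf⟩ := Submodule.exists_le_ker_of_lt_top _ hlt
    apply hf0
    have hc := h (fun i => f (fun j => if i = j then 1 else 0)) (by
      intro τ hτ
      have h1 : w τ ∈ Submodule.span ℚ (w '' T') := Submodule.subset_span ⟨τ, hτ, rfl⟩
      have h2 : f (w τ) = 0 := hf h1
      rw [LinearMap.pi_apply_eq_sum_univ f (w τ)] at h2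
      refine Eq.trans (sum_congr rfl ?_) h2
      intro i _
      rw [smul_eq_mul, mul_comm])
    ext x
    have h3 : ∀ i, f (fun j => if i = j then (1:ℚ) else 0) = 0 := fun i => congrFun hc i
    simp only [LinearMap.coe_comp, Function.comp_apply, LinearMap.zero_apply, LinearMap.zero_comp]
    rw [LinearMap.pi_apply_eq_sum_univ f]
    simp [h3]
  obtain ⟨f, hfs, hfspan, hfind⟩ := Submodule.exists_fun_fin_finrank_span_eq ℚ (w '' T')
  have hrank : Module.finrank ℚ (Submodule.span ℚ (w '' T')) = Fintype.card ι := by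
    rw [hspan, finrank_top, Module.finrank_fintype_fun_eq_card]
  have e : ι ≃ Fin (Module.finrank ℚ (Submodule.span ℚ (w '' T'))) :=
    (Fintype.equivFin ι).trans (finCongr hrank.symm)
  choose g hg using hfs
  refine ⟨fun i => g (e i), fun i => (hg _).1, ?_⟩
  have hind : LinearIndependent ℚ (fun i : ι => w (g (e i))) := by
    have : (fun i : ι => w (g (e i))) = f ∘ e := by
      ext i
      simp [(hg _).2]
    rw [this]
    exact hfind.comp _ e.injective
  have h2 : (Matrix.of fun i i' => w (g (e i')) i) =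
      (Matrix.of fun i => w (g (e i))).transpose := by
    ext i i'
    simp
  rw [h2, Matrix.det_transpose]
  have h3 : IsUnit (Matrix.of fun i => w (g (e i))) :=
    Matrix.linearIndependent_rows_iff_isUnit.mp hind
  rw [Matrix.isUnit_iff_isUnit_det] at h3
  exact h3.ne_zero

/-- coefficient matrix of the falling factorials -/
noncomputable def dm (K : ℕ) : Matrix (Fin K) (Fin K) ℝ :=
  Matrix.of fun k m => (descPochhammer ℝ (k : ℕ)).coeff (m : ℕ)

lemma det_dm (K : ℕ) : (dm K).det = 1 := by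
  have h : (dm K).BlockTriangular OrderDual.toDual := by
    intro k m hkm
    have hkm' : (k : ℕ) < m := hkm
    simp only [dm, Matrix.of_apply]
    apply Polynomial.coeff_eq_zero_of_natDegree_lt
    rw [descPochhammer_natDegree]
    exact hkm'
  rw [Matrix.det_of_lowerTriangular _ h]
  apply prod_eq_one
  intro k _
  simp only [dm, Matrix.of_apply]
  have := (monic_descPochhammer ℝ (k : ℕ)).coeff_natDegree
  rwa [descPochhammer_natDegree] at this

lemma fac_choose {K : ℕ} (k : Fin K) (x : ℕ) :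
    ((k : ℕ).factorial : ℝ) * (Nat.choose x k : ℝ) = ∑ m : Fin K, dm K k m * (x : ℝ) ^ (m : ℕ) := by
  have h1 : (descPochhammer ℝ (k : ℕ)).eval (x : ℝ) = (x.descFactorial k : ℝ) :=
    descPochhammer_eval_eq_descFactorial ℝ x k
  rw [Nat.descFactorial_eq_factorial_mul_choose] at h1
  push_cast at h1
  rw [← h1, Polynomial.eval_eq_sum_range' (n := K)
    (by rw [descPochhammer_natDegree]; exact k.2), Finset.sum_range]
  rfl

/-- from binomials to powers -/
lemma det_choose {K L : ℕ} (x : Fin K × Fin L → ℕ) (y : Fin K × Fin L → ℝ) :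
    (Matrix.of fun i i' : Fin K × Fin L => (x i' : ℝ) ^ (i.1 : ℕ) * y i' ^ (i.2 : ℕ)).det =
      (∏ i : Fin K × Fin L, (((i.1 : ℕ).factorial : ℕ) : ℝ)) *
        (Matrix.of fun i i' : Fin K × Fin L =>
          (Nat.choose (x i') i.1 : ℝ) * y i' ^ (i.2 : ℕ)).det := by
  classical
  set V : Matrix (Fin K × Fin L) (Fin K × Fin L) ℝ :=
    Matrix.of fun i i' : Fin K × Fin L => (x i' : ℝ) ^ (i.1 : ℕ) * y i' ^ (i.2 : ℕ) with hV
  set T : Matrix (Fin K × Fin L) (Fin K × Fin L) ℝ :=
    Matrix.kroneckerMap (fun a b => a * b) (dm K) (1 : Matrix (Fin L) (Fin L) ℝ) with hT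
  have hTdet : T.det = 1 := by
    have := Matrix.det_kronecker (dm K) (1 : Matrix (Fin L) (Fin L) ℝ)
    rw [hT]
    rw [show (Matrix.kroneckerMap (fun a b => a * b) (dm K) (1 : Matrix (Fin L) (Fin L) ℝ)).det =
      _ from this, det_dm, Matrix.det_one]
    simp
  have h1 : V.det = (T * V).det := by rw [Matrix.det_mul, hTdet, one_mul]
  have h2 : T * V = Matrix.of fun i i' : Fin K × Fin L => (((i.1 : ℕ).factorial : ℕ) : ℝ) *
      (Matrix.of fun i i' : Fin K × Fin L =>
          (Nat.choose (x i') i.1 : ℝ) * y i' ^ (i.2 : ℕ)) i i' := by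
    ext ⟨k, l⟩ i'
    rw [Matrix.mul_apply, Fintype.sum_prod_type]
    simp only [hT, hV, Matrix.kroneckerMap_apply, Matrix.of_apply, Matrix.one_apply, mul_ite,
      mul_one, mul_zero, ite_mul, zero_mul, Finset.sum_ite_eq, Finset.mem_univ, if_true]
    rw [← mul_assoc, fac_choose k, Finset.sum_mul]
    apply sum_congr rfl
    intro m _
    ring
  rw [h1, h2, Matrix.det_mul_column]

/-- Task QL (two logarithms over the reals, core estimate). -/
theorem lfl {A U a b Y Z L : ℕ} (hA : 2 ≤ A) (hU : 2 ≤ U) (ha : 1 ≤ a) (hb : 2 ≤ b)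
    (hab : Nat.Coprime a b) (hY : 1 ≤ Y) (hZ : 1 ≤ Z) (hL : 1 ≤ L) (hAY : Real.log A ≤ Y)
    (hUZ : Real.log U ≤ Z) (hYA : (Y : ℝ) ≤ 3 * Real.log A) (hZU : (Z : ℝ) ≤ 3 * Real.log U)
    (hMa : 145 * Z * L ≤ a) (hLb : 8 * (3 + Real.log b) ≤ L) :
    Real.exp (-(20880 * (Y : ℝ) * Z * (L : ℝ) ^ 2)) < |b * Real.log U - a * Real.log A| := by
  classical
  by_contra hcon
  rw [not_lt] at hcon
  set Λ : ℝ := b * Real.log U - a * Real.log A with hΛ
  set R : ℕ := 145 * Z * L with hR
  set S : ℕ := 145 * Y * L with hS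
  set K : ℕ := 20880 * Y * Z * L with hK
  have hYr : (1:ℝ) ≤ Y := by exact_mod_cast hY
  have hZr : (1:ℝ) ≤ Z := by exact_mod_cast hZ
  have hLr : (1:ℝ) ≤ L := by exact_mod_cast hL
  have har : (1:ℝ) ≤ a := by exact_mod_cast ha
  have hbr : (2:ℝ) ≤ b := by exact_mod_cast hb
  have hRr : (R:ℝ) = 145 * Z * L := by rw [hR]; push_cast; ring
  have hSr : (S:ℝ) = 145 * Y * L := by rw [hS]; push_cast; ring
  have hKr : (K:ℝ) = 20880 * Y * Z * L := by rw [hK]; push_cast; ring
  have hYZ : (1:ℝ) ≤ (Y:ℝ) * Z := one_le_mul_of_one_le_of_one_le hYr hZr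
  have hYL : (1:ℝ) ≤ (Y:ℝ) * L := one_le_mul_of_one_le_of_one_le hYr hLr
  have hYZL : (1:ℝ) ≤ (Y:ℝ) * Z * L := one_le_mul_of_one_le_of_one_le hYZ hLr
  have hKL : (K:ℝ) * L = 20880 * (Y:ℝ) * Z * (L:ℝ) ^ 2 := by rw [hKr]; ring
  have hlogA : 0 < Real.log A := Real.log_pos (by exact_mod_cast hA)
  have hlogU : 0 < Real.log U := Real.log_pos (by exact_mod_cast hU)
  have hlogA2 : 0.69 ≤ Real.log A := by
    have h1 : Real.log 2 ≤ Real.log A := Real.log_le_log (by norm_num) (by exact_mod_cast hA)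
    have := Real.log_two_gt_d9
    linarith
  -- the zero estimate
  have hzeroM : (K - 1) * L < R * S := by
    have h1 : K * L < R * S := by
      have e1 : K * L = 20880 * (Y * Z * L * L) := by rw [hK]; ring
      have e2 : R * S = 21025 * (Y * Z * L * L) := by rw [hR, hS]; ring
      have hp : 0 < Y * Z * L * L := by positivity
      rw [e1, e2]
      omega
    exact lt_of_le_of_lt (Nat.mul_le_mul_right _ (Nat.sub_le _ _)) h1
  obtain ⟨j, hjT, hdet⟩ := exists_det_ne_zero (ι := Fin K × Fin L) (T := ℕ × ℕ)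
    (fun τ i => (Nat.choose (τ.1 * b + τ.2 * a) i.1 : ℚ) * ((A : ℚ) ^ τ.1 * (U : ℚ) ^ τ.2) ^ (i.2 : ℕ))
    {τ | τ.1 < R + L - 1 ∧ τ.2 < S} (by
      intro c hc
      have hA1 : (A : ℚ) ≠ 1 := by
        have : A ≠ 1 := by omega
        exact_mod_cast this
      have := T.TaskZ.zero_estimate (K := K) (L := L) (R₂ := R) (S₂ := S) (i := b) (q := a)
        (β := A) (κ := U) (by positivity) hA1 (by positivity) hab.symm hMa hzeroM
        (fun k l => c (k, l)) (by
          intro r s hr hs
          have := hc (r, s) ⟨hr, hs⟩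
          rw [← this, Fintype.sum_prod_type]
          refine sum_congr rfl fun k _ => sum_congr rfl fun l _ => ?_
          ring)
      ext ⟨k, l⟩
      exact this k l)
  clear_value K R S
  -- integrality
  set E : Matrix (Fin K × Fin L) (Fin K × Fin L) ℝ := Matrix.of fun i i' =>
    (Nat.choose ((j i').1 * b + (j i').2 * a) i.1 : ℝ) *
      ((A : ℝ) ^ (j i').1 * (U : ℝ) ^ (j i').2) ^ (i.2 : ℕ) with hE
  have hdet1 : 1 ≤ |E.det| := by
    set Zm : Matrix (Fin K × Fin L) (Fin K × Fin L) ℤ := Matrix.of fun i i' =>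
      (Nat.choose ((j i').1 * b + (j i').2 * a) i.1 : ℤ) *
        ((A : ℤ) ^ (j i').1 * (U : ℤ) ^ (j i').2) ^ (i.2 : ℕ) with hZm
    have h1 : E = Zm.map (Int.castRingHom ℝ) := by
      ext i i'
      simp [hE, hZm]
    have h2 : E.det = (Zm.det : ℝ) := by
      rw [h1]
      have := RingHom.map_det (Int.castRingHom ℝ) Zm
      simpa [RingHom.mapMatrix_apply] using this.symm
    have h3 : Zm.det ≠ 0 := by
      intro h0
      apply hdet
      have h4 : (Matrix.of fun i i' : Fin K × Fin L =>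
          (Nat.choose ((j i').1 * b + (j i').2 * a) i.1 : ℚ) *
            ((A : ℚ) ^ (j i').1 * (U : ℚ) ^ (j i').2) ^ (i.2 : ℕ)) =
          Zm.map (Int.castRingHom ℚ) := by
        ext i i'
        simp [hZm]
      rw [h4]
      have := RingHom.map_det (Int.castRingHom ℚ) Zm
      rw [h0, map_zero] at this
      simpa [RingHom.mapMatrix_apply] using this.symm
    rw [h2, ← Int.cast_abs]
    exact_mod_cast Int.one_le_abs h3
  -- the matrix of powers
  set V : Matrix (Fin K × Fin L) (Fin K × Fin L) ℝ := Matrix.of fun i i' =>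
    (((j i').1 * b + (j i').2 * a : ℕ) : ℝ) ^ (i.1 : ℕ) *
      ((A : ℝ) ^ (j i').1 * (U : ℝ) ^ (j i').2) ^ (i.2 : ℕ) with hV
  obtain ⟨Fc, hFc⟩ : ∃ Fc : ℝ, Fc = ∏ i : Fin K × Fin L, (((i.1 : ℕ).factorial : ℕ) : ℝ) :=
    ⟨_, rfl⟩
  have hFc0 : 0 < Fc := by
    rw [hFc]
    exact prod_pos fun i _ => by exact_mod_cast Nat.factorial_pos _
  have hVdet : V.det = Fc * E.det := by
    rw [hFc]
    exact det_choose (fun i' => (j i').1 * b + (j i').2 * a)
      (fun i' => (A : ℝ) ^ (j i').1 * (U : ℝ) ^ (j i').2)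
  have hVge : Fc ≤ |V.det| := by
    rw [hVdet, abs_mul, abs_of_pos hFc0]
    exact le_mul_of_one_le_right hFc0.le hdet1
  -- analytic estimate
  set X : ℝ := (R + L) * b + S * a with hX
  have hX0 : 0 ≤ X := by rw [hX]; positivity
  set c : ℝ := Real.log A / b with hc
  have hc0 : 0 ≤ c := by rw [hc]; positivity
  have hN : Fintype.card (Fin K × Fin L) = K * L := by simp
  have hVeq : V = Matrix.of fun i i' : Fin K × Fin L =>
      (fun i' => (((j i').1 * b + (j i').2 * a : ℕ) : ℝ)) i' ^ ((fun i : Fin K × Fin L => (i.1 : ℕ)) i) *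
      Real.exp (((fun i : Fin K × Fin L => (i.2 : ℕ)) i : ℕ) *
        (c * (fun i' => (((j i').1 * b + (j i').2 * a : ℕ) : ℝ)) i' +
          (fun i' => ((j i').2 : ℝ) * Λ / b) i')) := by
    ext i i'
    simp only [hV, Matrix.of_apply]
    congr 1
    have h1 : c * (((j i').1 * b + (j i').2 * a : ℕ) : ℝ) + ((j i').2 : ℝ) * Λ / b
        = (j i').1 * Real.log A + (j i').2 * Real.log U := by
      rw [hc, hΛ]
      push_cast
      field_simp
      ring
    rw [h1]
    have hp0 : (0:ℝ) < A := by positivity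
    have hq0 : (0:ℝ) < U := by positivity
    rw [Real.exp_nat_mul, Real.exp_add, Real.exp_nat_mul, Real.exp_nat_mul, Real.exp_log hp0,
      Real.exp_log hq0]
  have hschw := H440R2.schwarz_exp (ι := Fin K × Fin L) (fun i => (i.1 : ℕ)) (fun i => (i.2 : ℕ))
    (fun i' => (((j i').1 * b + (j i').2 * a : ℕ) : ℝ))
    (fun i' => ((j i').2 : ℝ) * Λ / b) c X (S * |Λ| / b) (Real.exp 1) hc0 hX0
    (by positivity) (by rw [← Real.exp_zero]; exact Real.exp_le_exp.mpr (by norm_num))
    (by
      intro i'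
      have h1 : (j i').1 < R + L - 1 := (hjT i').1
      have h1'' : (j i').1 ≤ R + L := by omega
      have h2 : (j i').2 < S := (hjT i').2
      rw [abs_of_nonneg (by positivity), hX]
      push_cast
      have h1' : ((j i').1 : ℝ) ≤ R + L := by exact_mod_cast h1''
      have h2' : ((j i').2 : ℝ) ≤ S := by exact_mod_cast h2.le
      exact add_le_add (mul_le_mul_of_nonneg_right h1' (by linarith))
        (mul_le_mul_of_nonneg_right h2' (by linarith)))
    (by
      intro i'
      have h2 : (j i').2 < S := (hjT i').2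
      have h2' : ((j i').2 : ℝ) ≤ S := by exact_mod_cast h2.le
      rw [abs_div, abs_mul, Nat.abs_cast, Nat.abs_cast]
      gcongr)
  rw [← hVeq, hN] at hschw
  clear_value E V X c
  obtain ⟨N, hNdef⟩ : ∃ N : ℕ, N = K * L := ⟨_, rfl⟩
  rw [← hNdef] at hschw
  have hNr : (N:ℝ) = 20880 * (Y:ℝ) * Z * (L:ℝ) ^ 2 := by rw [hNdef]; push_cast; exact hKL
  have hNbig : (20880:ℝ) ≤ N := by
    rw [hNr]
    have : (1:ℝ) ≤ ((Y:ℝ) * Z) * (L:ℝ)^2 :=
      one_le_mul_of_one_le_of_one_le hYZ (one_le_pow₀ hLr)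
    linarith
  -- bound of W
  obtain ⟨W, hW⟩ : ∃ W : ℝ, W = c * (Real.exp 1 * X) + Real.exp 1 ^ N * (S * |Λ| / b) :=
    ⟨_, rfl⟩
  have he1 : Real.exp 1 < 2.7182818286 := Real.exp_one_lt_d9
  have hexpN : Real.exp 1 ^ N * |Λ| ≤ 1 := by
    rw [← Real.exp_nat_mul, mul_one]
    calc Real.exp N * |Λ| ≤ Real.exp N * Real.exp (-(20880 * (Y:ℝ) * Z * (L:ℝ) ^ 2)) := by
          gcongr
      _ = 1 := by rw [← Real.exp_add, hNr]; simp
  have hΛ1 : |Λ| ≤ 1 := by
    refine hcon.trans ?_
    rw [Real.exp_le_one_iff]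
    have : 0 ≤ 20880 * (Y:ℝ) * Z * (L:ℝ) ^ 2 := by positivity
    linarith
  have h2a : a * Real.log A / b ≤ Z + 1 := by
    have h3 : a * Real.log A = b * Real.log U - Λ := by rw [hΛ]; ring
    rw [h3, sub_div, mul_div_assoc, mul_comm, div_mul_cancel₀ _ (by positivity)]
    have h4 : -Λ / b ≤ 1 := by
      rw [div_le_one (by positivity)]
      have := neg_le_abs Λ
      linarith
    rw [neg_div] at h4
    linarith
  have hcX : c * X ≤ 436 * (Y * Z * L) := by
    have h1 : c * X = (R + L) * Real.log A + S * (a * Real.log A / b) := by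
      rw [hc, hX]
      field_simp
    have hZL : (L:ℝ) ≤ Z * L := le_mul_of_one_le_left (by linarith) hZr
    rw [h1]
    have h5 : (R + L) * Real.log A ≤ (146 * (Z * L)) * Y := by
      apply mul_le_mul _ hAY hlogA.le (by positivity)
      rw [hRr]; linarith
    have h6 : S * (a * Real.log A / b) ≤ S * (Z + Z) := by
      apply mul_le_mul_of_nonneg_left _ (by positivity)
      linarith
    rw [hSr] at h6
    have h7 : (145 * (Y:ℝ) * L) * (Z + Z) = 290 * (Y * Z * L) := by ring
    have h8 : (146 * ((Z:ℝ) * L)) * Y = 146 * (Y * Z * L) := by ring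
    rw [hSr]
    linarith
  have hW12 : W ≤ 1258 * (Y * Z * L) := by
    have h1 : c * (Real.exp 1 * X) = Real.exp 1 * (c * X) := by ring
    have h2 : Real.exp 1 ^ N * (S * |Λ| / b) ≤ 72.5 * (Y * Z * L) := by
      have h3 : Real.exp 1 ^ N * (S * |Λ| / b) = (Real.exp 1 ^ N * |Λ|) * (S / b) := by ring
      rw [h3]
      calc (Real.exp 1 ^ N * |Λ|) * (S / b) ≤ 1 * (S / b) := by gcongr
        _ ≤ S / 2 := by
          rw [one_mul]
          gcongr
        _ ≤ 72.5 * (Y * Z * L) := by
          rw [hSr]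
          have : (Y:ℝ) * L ≤ Y * Z * L := by
            have : (Y:ℝ) * Z * L = (Y * L) * Z := by ring
            rw [this]
            exact le_mul_of_one_le_right (by linarith) hZr
          linarith
    have h4 : Real.exp 1 * (c * X) ≤ 2.7182818286 * (436 * (Y * Z * L)) := by
      apply mul_le_mul he1.le hcX (by positivity) (by norm_num)
    rw [hW, h1]
    linarith
  have hW0 : 0 ≤ W := by rw [hW]; positivity
  -- the size of X
  have hXK : X ≤ b * K := by
    have h1 : (a:ℝ) * 0.69 ≤ 1.5 * (b * Z) := by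
      have h2 : a * Real.log A ≤ (Z + 1) * b := by
        rwa [div_le_iff₀ (by linarith)] at h2a
      have h3 : (a:ℝ) * Real.log A = b * Real.log U - Λ := by rw [hΛ]; ring
      have h4 : (a:ℝ) * Real.log A ≤ b * Z + 1 := by
        rw [h3]
        have := neg_le_abs Λ
        have h5 : (b:ℝ) * Real.log U ≤ b * Z := mul_le_mul_of_nonneg_left hUZ (by linarith)
        linarith
      have h5 : (a:ℝ) * 0.69 ≤ a * Real.log A := mul_le_mul_of_nonneg_left hlogA2 (by linarith)
      have h6 : (2:ℝ) ≤ b * Z := by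
        have : (2:ℝ) * 1 ≤ b * Z := mul_le_mul hbr hZr (by norm_num) (by linarith)
        linarith
      linarith
    have h2 : (S:ℝ) * a ≤ 145 * (Y * L) * (2.2 * (b * Z)) := by
      rw [hSr]
      have : (a:ℝ) ≤ 2.2 * (b * Z) := by
        have : (0:ℝ) ≤ b * Z := by positivity
        linarith
      have h3 : 145 * (Y:ℝ) * L = 145 * (Y * L) := by ring
      rw [h3]
      exact mul_le_mul_of_nonneg_left this (by positivity)
    have h3 : ((R:ℝ) + L) * b ≤ 146 * (Y * Z * L) * b := by
      apply mul_le_mul_of_nonneg_right _ (by linarith)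
      rw [hRr]
      have hZL : (L:ℝ) ≤ Z * L := le_mul_of_one_le_left (by linarith) hZr
      have : (Z:ℝ) * L ≤ Y * Z * L := by
        have e : (Y:ℝ) * Z * L = Y * (Z * L) := by ring
        rw [e]
        exact le_mul_of_one_le_left (by positivity) hYr
      linarith
    rw [hX, hKr]
    have h4 : (145 * ((Y:ℝ) * L) * (2.2 * (b * Z))) = 319 * (b * (Y * Z * L)) := by ring
    have h5 : 146 * ((Y:ℝ) * Z * L) * b = 146 * (b * (Y * Z * L)) := by ring
    have h6 : (b:ℝ) * (20880 * Y * Z * L) = 20880 * (b * (Y * Z * L)) := by ring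
    have h7 : (0:ℝ) ≤ b * (Y * Z * L) := by positivity
    linarith
  -- each factor
  have hKpos : (0:ℝ) < K := by rw [hKr]; positivity
  have hbe : 1 ≤ Real.exp 1 * b := by
    have : 1 ≤ Real.exp 1 := by
      rw [← Real.exp_zero]; exact Real.exp_le_exp.mpr (by norm_num)
    exact one_le_mul_of_one_le_of_one_le this (by linarith)
  have hfac : ∀ k : ℕ, k < K → (Real.exp 1 * X) ^ k ≤
      (k.factorial : ℝ) * ((Real.exp 1 * b) ^ K * Real.exp K) := by
    intro k hk
    have h1 : (Real.exp 1 * X) ^ k = (Real.exp 1 * X / K) ^ k * (K:ℝ) ^ k := by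
      rw [← mul_pow]
      congr 1
      field_simp
    have h2 : (K:ℝ) ^ k / k.factorial ≤ Real.exp K := Real.pow_div_factorial_le_exp _ hKpos.le k
    have h3 : (K:ℝ) ^ k ≤ k.factorial * Real.exp K := by
      rw [div_le_iff₀ (by exact_mod_cast Nat.factorial_pos k)] at h2
      linarith
    have h4 : Real.exp 1 * X / K ≤ Real.exp 1 * b := by
      rw [div_le_iff₀ hKpos, mul_assoc]
      exact mul_le_mul_of_nonneg_left hXK (Real.exp_pos 1).le
    have h5 : (Real.exp 1 * X / K) ^ k ≤ (Real.exp 1 * b) ^ K :=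
      (pow_le_pow_left₀ (by positivity) h4 k).trans (pow_le_pow_right₀ hbe hk.le)
    rw [h1]
    calc (Real.exp 1 * X / K) ^ k * (K:ℝ) ^ k
        ≤ (Real.exp 1 * b) ^ K * (k.factorial * Real.exp K) :=
          mul_le_mul h5 h3 (by positivity) (by positivity)
      _ = _ := by ring
  set F : ℝ := (Real.exp 1 * b) ^ K * Real.exp K * Real.exp (L * W) with hF
  have hF0 : 0 < F := by rw [hF]; positivity
  have hprod : ∏ i : Fin K × Fin L, ((Real.exp 1 * X) ^ (i.1 : ℕ) *
      Real.exp ((i.2 : ℕ) * (c * (Real.exp 1 * X) + Real.exp 1 ^ N * (S * |Λ| / b)))) ≤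
      Fc * F ^ N := by
    calc _ ≤ ∏ i : Fin K × Fin L, ((((i.1 : ℕ).factorial : ℕ) : ℝ) * F) := by
          apply prod_le_prod
          · intro i _
            positivity
          · intro i _
            have e0 : (((i.1 : ℕ).factorial : ℕ) : ℝ) * F =
                ((((i.1 : ℕ).factorial : ℕ) : ℝ) * ((Real.exp 1 * b) ^ K * Real.exp K)) *
                  Real.exp (L * W) := by rw [hF]; ring
            rw [e0]
            apply mul_le_mul
            · exact hfac _ i.1.2
            · apply Real.exp_le_exp.mpr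
              rw [← hW]
              apply mul_le_mul_of_nonneg_right _ hW0
              exact_mod_cast i.2.2.le
            · positivity
            · positivity
      _ = Fc * F ^ N := by rw [prod_mul_distrib, ← hFc]; simp [hNdef]
  have hmain : Real.exp 1 ^ (N * (N - 1) / 2) ≤ (N:ℝ) ^ N * F ^ N := by
    have h1 : Fc * Real.exp 1 ^ (N * (N - 1) / 2) ≤ Fc * ((N:ℝ) ^ N * F ^ N) := by
      calc Fc * Real.exp 1 ^ (N * (N - 1) / 2) ≤ |V.det| * Real.exp 1 ^ (N * (N - 1) / 2) :=
            mul_le_mul_of_nonneg_right hVge (by positivity)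
        _ ≤ N.factorial * ∏ i : Fin K × Fin L, ((Real.exp 1 * X) ^ (i.1 : ℕ) *
            Real.exp ((i.2 : ℕ) * (c * (Real.exp 1 * X) + Real.exp 1 ^ N * (S * |Λ| / b)))) :=
            hschw
        _ ≤ (N:ℝ) ^ N * (Fc * F ^ N) := by
            apply mul_le_mul _ hprod (by positivity) (by positivity)
            exact_mod_cast Nat.factorial_le_pow N
        _ = Fc * ((N:ℝ) ^ N * F ^ N) := by ring
    exact le_of_mul_le_mul_left h1 hFc0
  -- take logs
  have hNpos : (0:ℝ) < N := by linarith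
  have hlogmain : ((N * (N - 1) / 2 : ℕ) : ℝ) ≤ N * (Real.log N + Real.log F) := by
    have h1 := Real.log_le_log (by positivity) hmain
    rw [Real.log_pow, Real.log_exp, mul_one, Real.log_mul (by positivity) (by positivity),
      Real.log_pow, Real.log_pow] at h1
    linarith
  have hhalf : ((N * (N - 1) / 2 : ℕ) : ℝ) = N * (N - 1) / 2 := by
    have hN1 : 1 ≤ N := by exact_mod_cast (by linarith : (1:ℝ) ≤ N)
    rw [Nat.cast_div (even_iff_two_dvd.mp (Nat.even_mul_pred_self N)) (by norm_num)]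
    push_cast [Nat.cast_sub hN1]
    ring
  rw [hhalf] at hlogmain
  have hlog2 : (N - 1) / 2 ≤ Real.log N + Real.log F := by
    have : N * ((N - 1) / 2) ≤ N * (Real.log N + Real.log F) := by linarith
    exact le_of_mul_le_mul_left this hNpos
  have hlogF : Real.log F = K * (2 + Real.log b) + L * W := by
    rw [hF, Real.log_mul (by positivity) (by positivity),
      Real.log_mul (by positivity) (by positivity), Real.log_pow, Real.log_exp, Real.log_exp,
      Real.log_mul (by positivity) (by positivity), Real.log_exp]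
    ring
  have hA' : K * (2 + Real.log b) ≤ K * L / 8 := by
    have h10 : K * (8 * (2 + Real.log b)) ≤ K * (L:ℝ) :=
      mul_le_mul_of_nonneg_left (by linarith) hKpos.le
    linarith
  have hB : L * W ≤ K * L / 12 := by
    have : L * W ≤ L * (1258 * (Y * Z * L)) := by gcongr
    refine this.trans ?_
    rw [hKL]
    have h1 : (L:ℝ) * (1258 * (Y * Z * L)) = 1258 * (Y * Z * L ^ 2) := by ring
    have h2 : 20880 * (Y:ℝ) * Z * (L:ℝ) ^ 2 = 20880 * (Y * Z * L ^ 2) := by ring
    have h3 : (0:ℝ) ≤ Y * Z * L ^ 2 := by positivity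
    rw [h1, h2]
    linarith
  have hC : Real.log N ≤ N / 100 + 4 := by
    have h1 : Real.log N = Real.log (N / 100) + Real.log 100 := by
      rw [← Real.log_mul (by positivity) (by norm_num)]
      congr 1
      ring
    have h2 : Real.log (N / 100) ≤ N / 100 - 1 := Real.log_le_sub_one_of_pos (by positivity)
    have h3 : Real.log 100 ≤ 5 := by
      rw [Real.log_le_iff_le_exp (by norm_num)]
      have : (2.7182818283:ℝ) ^ 5 ≤ Real.exp 1 ^ 5 := by
        apply pow_le_pow_left₀ (by norm_num)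
        exact Real.exp_one_gt_d9.le
      rw [← Real.exp_nat_mul] at this
      norm_num at this ⊢
      linarith
    linarith
  have hKLN : (K:ℝ) * L = N := by rw [hNdef]; push_cast; ring
  rw [hlogF] at hlog2
  rw [hKLN] at hA' hB
  linarith

end Pool.Agent.H374R2.W.QL
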