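import Pool.Agent.H374R2.W.Defs

set_option autoImplicit false

/-!
Task QM: a consequence of the estimate for linear forms in two logarithms over the reals.
-/

namespace Pool.Agent.H374R2.W.QM

theorem ceil_facts {A : ℕ} (hA : 2 ≤ A) : 1 ≤ ⌈Real.log A⌉₊ ∧ Real.log A ≤ (⌈Real.log A⌉₊ : ℝ) ∧
    (⌈Real.log A⌉₊ : ℝ) ≤ 3 * Real.log A ∧ ⌈Real.log A⌉₊ ≤ Nat.log 2 A + 1 := by
  have h2 : Real.log 2 ≤ Real.log A := Real.log_le_log (by norm_num) (by exact_mod_cast hA)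
  have hl2 := Real.log_two_gt_d9
  have hpos : 0 < Real.log A := by linarith
  refine ⟨Nat.one_le_iff_ne_zero.2 (Nat.ceil_pos.2 hpos).ne', Nat.le_ceil _, ?_, ?_⟩
  · have := Nat.ceil_lt_add_one hpos.le
    linarith
  · rw [Nat.ceil_le]
    have h1 : A < 2 ^ (Nat.log 2 A + 1) := Nat.lt_pow_succ_log_self (by norm_num) A
    have h3 : Real.log A ≤ Real.log ((2 : ℝ) ^ (Nat.log 2 A + 1)) :=
      Real.log_le_log (by positivity) (by exact_mod_cast h1.le)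
    rw [Real.log_pow] at h3
    have h4 := Real.log_two_lt_d9
    have h5 : (0 : ℝ) ≤ ((Nat.log 2 A + 1 : ℕ) : ℝ) := by positivity
    nlinarith

theorem abs_log_le {t : ℝ} (h : |t - 1| ≤ 1 / 4) : |Real.log t| ≤ 2 * |t - 1| := by
  rw [abs_le] at h
  have ht : 0 < t := by linarith [h.1]
  have h1 := Real.log_le_sub_one_of_pos ht
  have h2 := Real.one_sub_inv_le_log_of_pos ht
  rw [abs_le]
  constructor
  · have h3 : 1 - t⁻¹ = (t - 1) / t := by field_simp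
    rw [h3] at h2
    refine le_trans ?_ h2
    rw [le_div_iff₀ ht]
    rcases abs_cases (t - 1) with ⟨h4, h5⟩ | ⟨h4, h5⟩ <;> rw [h4] <;> nlinarith [h.1, h.2]
  · have := le_abs_self (t - 1)
    have := abs_nonneg (t - 1)
    linarith

/-- Task QM (consequence of QL). -/
theorem real_two_logs
    (lfl : ∀ {A U a b Y Z L : ℕ}, 2 ≤ A → 2 ≤ U → 1 ≤ a → 2 ≤ b →
      Nat.Coprime a b → 1 ≤ Y → 1 ≤ Z → 1 ≤ L → Real.log A ≤ Y →
      Real.log U ≤ Z → (Y : ℝ) ≤ 3 * Real.log A → (Z : ℝ) ≤ 3 * Real.log U →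
      145 * Z * L ≤ a → 8 * (3 + Real.log b) ≤ L →
      Real.exp (-(20880 * (Y : ℝ) * Z * (L : ℝ) ^ 2)) < |b * Real.log U - a * Real.log A|)
    {A U q x : ℕ} (hA : 2 ≤ A) (hU : 2 ≤ U) (hq : q.Prime)
    (hqx : ¬ q ∣ x) (hx : 0 < x) (h : |(U : ℝ) ^ q - (A : ℝ) ^ x| ≤ (A : ℝ) ^ ((x : ℝ) / 2)) :
    q ≤ 10 ^ 9 * (Nat.log 2 A + 1) * (Nat.log 2 q + 1) ^ 2 := by
  by_contra hcon
  push Not at hcon
  obtain ⟨hY1, hY2, hY3, hY4⟩ := ceil_facts hA
  obtain ⟨hZ1, hZ2, hZ3, -⟩ := ceil_facts hU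
  set Y := ⌈Real.log A⌉₊ with hYdef
  set Z := ⌈Real.log U⌉₊ with hZdef
  set L := ⌈8 * (3 + Real.log q)⌉₊ with hLdef
  set lq := Nat.log 2 q + 1 with hlq
  have hlq1 : 1 ≤ lq := by omega
  have hq2 : 2 ≤ q := hq.two_le
  have hl2 := Real.log_two_gt_d9
  have hl2' := Real.log_two_lt_d9
  -- the size of `q`
  have hYq : 10 ^ 9 * Y * lq ^ 2 < q :=
    lt_of_le_of_lt (Nat.mul_le_mul_right _ (Nat.mul_le_mul_left _ hY4)) hcon
  have hqbig : 10 ^ 9 < q := by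
    refine lt_of_le_of_lt ?_ hYq
    calc 10 ^ 9 = 10 ^ 9 * 1 * 1 ^ 2 := by norm_num
      _ ≤ 10 ^ 9 * Y * lq ^ 2 := by gcongr
  -- `L`
  have hlogq : Real.log q ≤ lq := by
    have h1 : q < 2 ^ lq := Nat.lt_pow_succ_log_self (by norm_num) q
    have h3 : Real.log q ≤ Real.log ((2 : ℝ) ^ lq) :=
      Real.log_le_log (by positivity) (by exact_mod_cast h1.le)
    rw [Real.log_pow] at h3
    have h5 : (0 : ℝ) ≤ (lq : ℝ) := by positivity
    nlinarith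
  have hlogq0 : 0 ≤ Real.log q := Real.log_nonneg (by exact_mod_cast (by omega : 1 ≤ q))
  have hL1 : 8 * (3 + Real.log q) ≤ (L : ℝ) := Nat.le_ceil _
  have hL2 : (L : ℝ) < 8 * (3 + Real.log q) + 1 := Nat.ceil_lt_add_one (by positivity)
  have hlqR : (1 : ℝ) ≤ lq := by exact_mod_cast hlq1
  have hL3 : (L : ℝ) ≤ 33 * lq := by linarith
  have hL4 : 1 ≤ L := by
    have : (1 : ℝ) ≤ L := by linarith
    exact_mod_cast this
  have hL0 : (1 : ℝ) ≤ L := by exact_mod_cast hL4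
  have hYR : (1 : ℝ) ≤ Y := by exact_mod_cast hY1
  have hZR : (1 : ℝ) ≤ Z := by exact_mod_cast hZ1
  have hYqR : 10 ^ 9 * (Y : ℝ) * (lq : ℝ) ^ 2 < q := by exact_mod_cast hYq
  have hqR : (10 ^ 9 : ℝ) < q := by exact_mod_cast hqbig
  -- positivity
  have hA0 : (0 : ℝ) < A := by positivity
  have hA1 : (1 : ℝ) < A := by exact_mod_cast (by omega : 1 < A)
  have hU0 : (0 : ℝ) < U := by positivity
  have hlA : 0 < Real.log A := by linarith
  have hlU : 0 < Real.log U := by linarith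
  have hlU2 : Real.log 2 ≤ Real.log U := Real.log_le_log (by norm_num) (by exact_mod_cast hU)
  have hx1 : (1 : ℝ) ≤ x := by exact_mod_cast hx
  have hAx : (A : ℝ) ^ x = (A : ℝ) ^ ((x : ℝ) / 2) * (A : ℝ) ^ ((x : ℝ) / 2) := by
    rw [← Real.rpow_add hA0, add_halves, Real.rpow_natCast]
  set P := (A : ℝ) ^ ((x : ℝ) / 2) with hP
  have hP1 : 1 ≤ P := Real.one_le_rpow hA1.le (by positivity)
  have hP0 : 0 < P := by linarith
  have hlogP : Real.log P = (x : ℝ) / 2 * Real.log A := by rw [hP, Real.log_rpow hA0]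
  rw [hAx, abs_le] at h
  -- first bound
  have hPP : P ≤ P * P := le_mul_of_one_le_left hP0.le hP1
  have h1 : (U : ℝ) ^ q ≤ 2 * (P * P) := by linarith [h.2]
  have h2 : (q : ℝ) * Real.log U ≤ Real.log 2 + 2 * Real.log P := by
    have := Real.log_le_log (by positivity) h1
    rw [Real.log_pow, Real.log_mul (by norm_num) (by positivity),
      Real.log_mul hP0.ne' hP0.ne'] at this
    linarith
  have h3 : Real.log 4 ≤ Real.log P := by
    have e4 : Real.log 4 = 2 * Real.log 2 := by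
      rw [show (4 : ℝ) = 2 ^ 2 by norm_num, Real.log_pow]; norm_num
    rw [e4]
    have e5 : (10 : ℝ) ^ 9 * Real.log 2 ≤ q * Real.log U :=
      mul_le_mul hqR.le hlU2 (by linarith) (by positivity)
    linarith
  have hP4 : 4 ≤ P := (Real.log_le_log_iff (by norm_num) hP0).1 h3
  -- the linear form
  have h4 : |(U : ℝ) ^ q / (P * P) - 1| ≤ 1 / P := by
    have e : (U : ℝ) ^ q / (P * P) - 1 = ((U : ℝ) ^ q - P * P) / (P * P) := by
      field_simp
    rw [e, abs_div, abs_of_pos (by positivity : (0 : ℝ) < P * P), div_le_div_iff₀ (by positivity) hP0]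
    have : |(U : ℝ) ^ q - P * P| ≤ P := abs_le.2 h
    rw [one_mul]
    exact mul_le_mul_of_nonneg_right this hP0.le
  have h5 : 1 / P ≤ 1 / 4 := one_div_le_one_div_of_le (by norm_num) hP4
  have h6 := abs_log_le (h4.trans h5)
  have h7 : Real.log ((U : ℝ) ^ q / (P * P)) = q * Real.log U - x * Real.log A := by
    rw [Real.log_div (by positivity) (by positivity), Real.log_pow, Real.log_mul hP0.ne' hP0.ne',
      hlogP]
    ring
  rw [h7] at h6
  have h8 : |(q : ℝ) * Real.log U - x * Real.log A| ≤ 2 / P := by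
    refine h6.trans ?_
    calc 2 * |(U : ℝ) ^ q / (P * P) - 1| ≤ 2 * (1 / P) := by linarith
      _ = 2 / P := by ring
  have h9 : |(q : ℝ) * Real.log U - x * Real.log A| ≤ 1 := by
    refine h8.trans ?_
    rw [div_le_one hP0]; linarith
  have h10 : (q : ℝ) * Real.log U - 1 ≤ x * Real.log A := by
    have := (abs_le.1 h9).2
    linarith
  -- the condition on `x`
  have h11 : (q : ℝ) * Z ≤ 3 * (q * Real.log U) := by
    have := mul_le_mul_of_nonneg_left hZ3 (by linarith : (0 : ℝ) ≤ q)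
    linarith
  have h12 : (q : ℝ) * Z ≤ 6 * ((x : ℝ) * Y) := by
    have a1 : (2 : ℝ) ≤ q * Real.log U := by
      calc (2 : ℝ) ≤ 10 ^ 9 * (1 / 2) := by norm_num
        _ ≤ q * Real.log U := mul_le_mul hqR.le (by linarith) (by norm_num) (by positivity)
    have a2 : (x : ℝ) * Real.log A ≤ x * Y := mul_le_mul_of_nonneg_left hY2 (by linarith)
    linarith
  have h13 : 870 * (Y : ℝ) * L ≤ q := by
    have a1 : 870 * (Y : ℝ) * L ≤ 870 * (Y : ℝ) * (33 * lq) := by gcongr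
    have a2 : 870 * (Y : ℝ) * (33 * lq) ≤ 10 ^ 9 * (Y : ℝ) * (lq : ℝ) ^ 2 := by
      have : (Y : ℝ) * lq ≤ (Y : ℝ) * (lq : ℝ) ^ 2 := by
        apply mul_le_mul_of_nonneg_left _ (by positivity)
        exact le_self_pow₀ hlqR (by norm_num)
      have h0 : 0 < (Y : ℝ) * lq := mul_pos (by linarith) (by linarith)
      calc 870 * (Y : ℝ) * (33 * lq) = 28710 * ((Y : ℝ) * lq) := by ring
        _ ≤ 10 ^ 9 * ((Y : ℝ) * lq) := mul_le_mul_of_nonneg_right (by norm_num) h0.le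
        _ ≤ 10 ^ 9 * ((Y : ℝ) * (lq : ℝ) ^ 2) := mul_le_mul_of_nonneg_left this (by norm_num)
        _ = 10 ^ 9 * (Y : ℝ) * (lq : ℝ) ^ 2 := by ring
    linarith
  have h14 : 145 * Z * L ≤ x := by
    have a1 : 870 * (Y : ℝ) * L * Z ≤ 6 * ((x : ℝ) * Y) :=
      (mul_le_mul_of_nonneg_right h13 (by positivity)).trans h12
    have a2 : (Y : ℝ) * (145 * Z * L) ≤ (Y : ℝ) * x := by
      have e : (Y : ℝ) * (145 * Z * L) = (870 * (Y : ℝ) * L * Z) / 6 := by ring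
      rw [e, div_le_iff₀ (by norm_num)]
      linarith
    have a3 : (145 : ℝ) * Z * L ≤ x := le_of_mul_le_mul_left a2 (by linarith)
    exact_mod_cast a3
  have hcop : Nat.Coprime x q := ((Nat.Prime.coprime_iff_not_dvd hq).2 hqx).symm
  have main := lfl hA hU hx hq2 hcop hY1 hZ1 hL4 hY2 hZ2 hY3 hZ3 h14 hL1
  -- the contradiction
  have h15 := main.trans_le h8
  have h16 := Real.log_lt_log (Real.exp_pos _) h15
  rw [Real.log_exp, Real.log_div (by norm_num) hP0.ne', hlogP] at h16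
  have h17 : (q : ℝ) * Real.log U < 3 + 41760 * (Y : ℝ) * Z * (L : ℝ) ^ 2 := by linarith
  have h18 : (q : ℝ) * Z < (9 + 125280 * (Y : ℝ) * (L : ℝ) ^ 2) * Z := by
    calc (q : ℝ) * Z ≤ 3 * (q * Real.log U) := h11
      _ < 3 * (3 + 41760 * (Y : ℝ) * Z * (L : ℝ) ^ 2) := by linarith
      _ = 9 * 1 + 125280 * (Y : ℝ) * (L : ℝ) ^ 2 * Z := by ring
      _ ≤ 9 * Z + 125280 * (Y : ℝ) * (L : ℝ) ^ 2 * Z := by linarith
      _ = (9 + 125280 * (Y : ℝ) * (L : ℝ) ^ 2) * Z := by ring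
  have h19 : (q : ℝ) < 9 + 125280 * (Y : ℝ) * (L : ℝ) ^ 2 :=
    lt_of_mul_lt_mul_right h18 (by linarith)
  have h20 : 125280 * (Y : ℝ) * (L : ℝ) ^ 2 ≤ 125280 * (Y : ℝ) * (33 * lq) ^ 2 := by gcongr
  have h21 : (1 : ℝ) ≤ (Y : ℝ) * (lq : ℝ) ^ 2 := by
    have : (1 : ℝ) ≤ (lq : ℝ) ^ 2 := one_le_pow₀ hlqR
    calc (1 : ℝ) = 1 * 1 := by norm_num
      _ ≤ (Y : ℝ) * (lq : ℝ) ^ 2 := mul_le_mul hYR this (by norm_num) (by linarith)
  have h22 : 125280 * (Y : ℝ) * (33 * lq) ^ 2 = 136429920 * ((Y : ℝ) * (lq : ℝ) ^ 2) := by ring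
  have h23 : 10 ^ 9 * (Y : ℝ) * (lq : ℝ) ^ 2 = 10 ^ 9 * ((Y : ℝ) * (lq : ℝ) ^ 2) := by ring
  rw [h23] at hYqR
  rw [h22] at h20
  generalize (Y : ℝ) * (lq : ℝ) ^ 2 = w at *
  linarith

end Pool.Agent.H374R2.W.QM
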