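import Mathlib

/-!
Task QN (helper497): numerical lemma.
-/

set_option autoImplicit false

namespace Pool.Agent.H374R2.W.QN

/-- Task QN (numerical consequence). -/
theorem q_num (P : ℕ) : ∃ ν₀ : ℕ, ∀ ν q : ℕ, ν₀ ≤ ν →
    q ≤ 10 ^ 9 * P ^ 2 * (Nat.log 2 q + 1) ^ 2 * ν ^ 2 → q ≤ ν ^ 4 := by
  obtain ⟨K, hK⟩ : ∃ K, K = 10 ^ 9 * P ^ 2 := ⟨_, rfl⟩
  refine ⟨2 ^ (2 * (K + 7)), ?_⟩
  intro ν q hν hq
  rw [← hK] at hq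
  by_contra hcon
  push Not at hcon
  obtain ⟨L, hL⟩ : ∃ L, L = Nat.log 2 q := ⟨_, rfl⟩
  rw [← hL] at hq
  have hq0 : q ≠ 0 := by
    intro h
    rw [h] at hcon
    exact absurd hcon (Nat.not_lt_zero _)
  have hLq : 2 ^ L ≤ q := by
    rw [hL]
    exact Nat.pow_log_le_self 2 hq0
  -- L is large
  have h1 : (2 ^ (2 * (K + 7))) ^ 4 ≤ q := (Nat.pow_le_pow_left hν 4).trans hcon.le
  have h2 : 8 * (K + 7) ≤ L := by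
    rw [hL]
    apply Nat.le_log_of_pow_le (by norm_num)
    rw [← pow_mul] at h1
    have e : 2 * (K + 7) * 4 = 8 * (K + 7) := by ring
    rw [e] at h1
    exact h1
  obtain ⟨m, hm⟩ : ∃ m, m = L / 8 := ⟨_, rfl⟩
  have hm1 : 8 * m ≤ L := by omega
  have hm2 : L + 1 ≤ 8 * (m + 1) := by omega
  have hm3 : K + 7 ≤ m := by omega
  have h3 : L + 1 ≤ 2 ^ (m + 3) := by
    have : m + 1 ≤ 2 ^ m := Nat.lt_two_pow_self
    rw [pow_add]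
    omega
  have h4 : K ≤ 2 ^ K := Nat.lt_two_pow_self.le
  -- q < K^2 (L+1)^4
  have h5 : q * q ≤ (K ^ 2 * (L + 1) ^ 4) * ν ^ 4 := by
    calc q * q ≤ (K * (L + 1) ^ 2 * ν ^ 2) * (K * (L + 1) ^ 2 * ν ^ 2) := Nat.mul_le_mul hq hq
      _ = (K ^ 2 * (L + 1) ^ 4) * ν ^ 4 := by ring
  have h6 : (K ^ 2 * (L + 1) ^ 4) * ν ^ 4 ≤ (K ^ 2 * (L + 1) ^ 4) * q := Nat.mul_le_mul_left _ hcon.le
  have h7 : q ≤ K ^ 2 * (L + 1) ^ 4 := Nat.le_of_mul_le_mul_right (h5.trans h6) (Nat.pos_of_ne_zero hq0)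
  have h8 : K ^ 2 * (L + 1) ^ 4 ≤ (2 ^ K) ^ 2 * (2 ^ (m + 3)) ^ 4 :=
    Nat.mul_le_mul (Nat.pow_le_pow_left h4 2) (Nat.pow_le_pow_left h3 4)
  have h9 : (2 ^ K) ^ 2 * (2 ^ (m + 3)) ^ 4 = 2 ^ (2 * K + 4 * m + 12) := by
    rw [← pow_mul, ← pow_mul, ← pow_add]
    congr 1
    ring
  have h10 : 2 ^ (2 * K + 4 * m + 12) < 2 ^ L := Nat.pow_lt_pow_right (by norm_num) (by omega)
  have h11 : q < 2 ^ L := lt_of_le_of_lt (h7.trans (h8.trans h9.le)) h10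
  exact absurd hLq (not_le.mpr h11)

end Pool.Agent.H374R2.W.QN
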