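import Pool.Agent.H374R2.W.Defs

/-! Task P (helper617): divisibility of the value of a form. -/

namespace Pool.Agent.H374R2.W.P

open Finset Polynomial
open Pool.Agent.H374R2.V (HH)

/-- Task P (divisibility of the value of a form). -/
theorem val_dvd {m q n k p e e' : ℕ} {c : ℕ → ℕ → ℤ} (hc : Form m q n k c) {X Y u v : ℤ}
    (hv : IsCoprime v (p : ℤ)) (h1 : (p : ℤ) ^ e ∣ u - v)
    (h2 : (p : ℤ) ^ e' ∣ X * u ^ q - Y * v ^ q) :
    (p : ℤ) ^ (min e' ((m + 1) * n * e)) ∣ val m n c X Y (fun j => u ^ j * v ^ (m - j)) := by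
  set W := min e' ((m + 1) * n * e) with hW
  have hcop : IsCoprime v ((p : ℤ) ^ W) := hv.pow_right
  obtain ⟨a, b, hab⟩ := hcop
  have key : ∀ z : ℤ, ((z : ZMod (p ^ W)) = 0) ↔ (p : ℤ) ^ W ∣ z := by
    intro z
    rw [CharP.intCast_eq_zero_iff (ZMod (p ^ W)) (p ^ W) z]
    push_cast
    exact Iff.rfl
  have hw : (a : ZMod (p ^ W)) * (v : ZMod (p ^ W)) = 1 := by
    have h3 : ((p : ℤ) ^ W : ℤ) ∣ a * v - 1 := ⟨-b, by linear_combination hab⟩
    rw [← key] at h3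
    push_cast at h3
    exact sub_eq_zero.1 h3
  have hd1 : ((u : ZMod (p ^ W)) - (v : ZMod (p ^ W))) ^ ((m + 1) * n) = 0 := by
    have h3 : (p : ℤ) ^ W ∣ (u - v) ^ ((m + 1) * n) := by
      have h4 : ((p : ℤ) ^ e) ^ ((m + 1) * n) ∣ (u - v) ^ ((m + 1) * n) := pow_dvd_pow_of_dvd h1 _
      rw [← pow_mul] at h4
      refine dvd_trans (pow_dvd_pow _ ?_) h4
      rw [mul_comm e]
      exact min_le_right _ _
    rw [← key] at h3
    push_cast at h3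
    exact h3
  have hd2 : (X : ZMod (p ^ W)) * (u : ZMod (p ^ W)) ^ q =
      (Y : ZMod (p ^ W)) * (v : ZMod (p ^ W)) ^ q := by
    have h3 : (p : ℤ) ^ W ∣ X * u ^ q - Y * v ^ q :=
      dvd_trans (pow_dvd_pow _ (min_le_left _ _)) h2
    rw [← key] at h3
    push_cast at h3
    exact sub_eq_zero.1 h3
  -- the quotient `u / v`
  set ρ : ZMod (p ^ W) := (u : ZMod (p ^ W)) * (a : ZMod (p ^ W)) with hρ
  have hρv : ρ * (v : ZMod (p ^ W)) = (u : ZMod (p ^ W)) := by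
    rw [hρ, mul_assoc, hw, mul_one]
  have hρ1 : (ρ - 1) ^ ((m + 1) * n) = 0 := by
    have h3 : ρ - 1 = ((u : ZMod (p ^ W)) - (v : ZMod (p ^ W))) * (a : ZMod (p ^ W)) := by
      rw [hρ, sub_mul, mul_comm (v : ZMod (p ^ W)) (a : ZMod (p ^ W)), hw]
    rw [h3, mul_pow, hd1, zero_mul]
  have hY : (Y : ZMod (p ^ W)) = (X : ZMod (p ^ W)) * ρ ^ q := by
    have h3 : (a : ZMod (p ^ W)) ^ q * (v : ZMod (p ^ W)) ^ q = 1 := by
      rw [← mul_pow, hw, one_pow]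
    calc (Y : ZMod (p ^ W)) = (Y : ZMod (p ^ W)) * ((a : ZMod (p ^ W)) ^ q *
          (v : ZMod (p ^ W)) ^ q) := by rw [h3, mul_one]
      _ = ((Y : ZMod (p ^ W)) * (v : ZMod (p ^ W)) ^ q) * (a : ZMod (p ^ W)) ^ q := by ring
      _ = ((X : ZMod (p ^ W)) * (u : ZMod (p ^ W)) ^ q) * (a : ZMod (p ^ W)) ^ q := by rw [hd2]
      _ = (X : ZMod (p ^ W)) * ρ ^ q := by rw [hρ, mul_pow]; ring
  clear_value ρ
  -- the polynomial vanishes at `ρ`
  obtain ⟨G, hG⟩ := hc.van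
  have hB : ∑ j ∈ range (m + 1), ∑ l ∈ range (n + 1),
      (c j l : ZMod (p ^ W)) * ρ ^ (q * l + j) = 0 := by
    have h3 := congrArg (fun P : ℤ[X] => P.eval₂ (Int.castRingHom (ZMod (p ^ W))) ρ) hG
    simp only [eval₂_finsetSum, eval₂_mul, eval₂_C, eval₂_pow, eval₂_sub, eval₂_X,
      eval₂_one] at h3
    rw [hρ1, zero_mul] at h3
    exact h3
  rw [← key]
  unfold val
  push_cast
  have h5 : ∀ j ∈ range (m + 1), ∑ l ∈ range (n + 1),
      (c j l : ZMod (p ^ W)) * (Y : ZMod (p ^ W)) ^ l * (X : ZMod (p ^ W)) ^ (n - l) *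
        ((u : ZMod (p ^ W)) ^ j * (v : ZMod (p ^ W)) ^ (m - j)) =
      (X : ZMod (p ^ W)) ^ n * (v : ZMod (p ^ W)) ^ m * ∑ l ∈ range (n + 1),
        (c j l : ZMod (p ^ W)) * ρ ^ (q * l + j) := by
    intro j hj
    rw [mem_range] at hj
    rw [mul_sum]
    apply sum_congr rfl
    intro l hl
    rw [mem_range] at hl
    have e1 : (X : ZMod (p ^ W)) ^ n = (X : ZMod (p ^ W)) ^ l * (X : ZMod (p ^ W)) ^ (n - l) := by
      rw [← pow_add]
      congr 1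
      omega
    have e2 : (v : ZMod (p ^ W)) ^ m = (v : ZMod (p ^ W)) ^ j * (v : ZMod (p ^ W)) ^ (m - j) := by
      rw [← pow_add]
      congr 1
      omega
    have e3 : ρ ^ (q * l + j) = (ρ ^ q) ^ l * ρ ^ j := by rw [pow_add, pow_mul]
    rw [hY, e1, e2, e3, ← hρv, mul_pow (X : ZMod (p ^ W)) (ρ ^ q) l,
      mul_pow ρ (v : ZMod (p ^ W)) j]
    ring
  rw [sum_congr rfl h5, ← mul_sum, hB, mul_zero]

end Pool.Agent.H374R2.W.P
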