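import Pool.Agent.H374R2.W.Defs
import Pool.Agent.H374R2.W.P
import Pool.Agent.H374R2.W.AR
import Pool.Agent.H374R2.W.B

/-! Task UP (helper672): uniqueness of the solutions, `p`-adic kind. -/

set_option autoImplicit false

namespace Pool.Agent.H374R2.W.UP

open Finset Polynomial
open Pool.Agent.H374R2.V (HH)

/-- Two integers with the same `q`-th power modulo `d ^ y` which agree modulo all prime factors of
`d` are congruent modulo `d ^ y`. (Copy of `T.TaskU.dvd_sub_of_pow`.) -/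
theorem dvd_sub_of_pow {q d y : ℕ} {w₁ w₂ : ℤ}
    (hq : ∀ p : ℕ, p.Prime → p ∣ d → ¬ p ∣ q)
    (hC : ∀ p : ℕ, p.Prime → p ∣ d → ¬ (p : ℤ) ∣ w₁)
    (hmod : ∀ p : ℕ, p.Prime → p ∣ d → (p : ℤ) ∣ w₁ - w₂)
    (hpow : (d : ℤ) ^ y ∣ w₁ ^ q - w₂ ^ q) : (d : ℤ) ^ y ∣ w₁ - w₂ := by
  set G : ℤ := ∑ i ∈ range q, w₁ ^ i * w₂ ^ (q - 1 - i) with hG
  have hfac : G * (w₁ - w₂) = w₁ ^ q - w₂ ^ q := (Commute.all w₁ w₂).geom_sum₂_mul q
  have hcop : Nat.Coprime d G.natAbs := by
    apply Nat.coprime_of_dvd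
    intro p hp hpd hpG
    have : Fact p.Prime := ⟨hp⟩
    have e1 : (p : ℤ) ∣ G := Int.natCast_dvd.mpr hpG
    have e2 : (G : ZMod p) = 0 := (ZMod.intCast_zmod_eq_zero_iff_dvd _ _).mpr e1
    have e0 : (w₁ : ZMod p) = w₂ := by
      have := (ZMod.intCast_zmod_eq_zero_iff_dvd _ p).mpr (hmod p hp hpd)
      push_cast at this
      linear_combination this
    have e3 : (G : ZMod p) = (q : ZMod p) * (w₁ : ZMod p) ^ (q - 1) := by
      rw [hG]
      push_cast
      rw [← e0]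
      have : ∀ i ∈ range q, (w₁ : ZMod p) ^ i * (w₁ : ZMod p) ^ (q - 1 - i) =
          (w₁ : ZMod p) ^ (q - 1) := by
        intro i hi
        rw [Finset.mem_range] at hi
        rw [← pow_add]
        congr 1
        omega
      rw [Finset.sum_congr rfl this, Finset.sum_const, Finset.card_range, nsmul_eq_mul]
    rw [e3] at e2
    rcases mul_eq_zero.mp e2 with e4 | e4
    · exact hq p hp hpd ((ZMod.natCast_eq_zero_iff _ _).mp e4)
    · exact hC p hp hpd ((ZMod.intCast_zmod_eq_zero_iff_dvd _ _).mp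
        (by_contra fun h => pow_ne_zero _ h e4))
  have hcop2 : IsCoprime ((d : ℤ) ^ y) G := by
    apply IsCoprime.pow_left
    rw [Int.isCoprime_iff_gcd_eq_one]
    simpa [Int.gcd] using hcop
  rw [← hfac] at hpow
  exact hcop2.dvd_of_dvd_mul_left hpow

theorem cross_ne {U V U' V' : ℕ} (hU : 0 < U) (c : Nat.Coprime U V)
    (c' : Nat.Coprime U' V') (hne : ¬ (U = U' ∧ V = V')) : U * V' ≠ U' * V := by
  intro h
  have h1 : U ∣ U' := by
    have : U ∣ U' * V := ⟨V', h.symm⟩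
    exact c.dvd_of_dvd_mul_right this
  have h2 : U' ∣ U := by
    have : U' ∣ U * V' := ⟨V, h⟩
    exact c'.dvd_of_dvd_mul_right this
  have h3 : U = U' := Nat.dvd_antisymm h1 h2
  subst h3
  have h4 : V' = V := Nat.eq_of_mul_eq_mul_left hU h
  exact hne ⟨rfl, h4.symm⟩

/-- The upper bound of the value of a form. -/
theorem val_le {m q n k : ℕ} {c : ℕ → ℕ → ℤ} (hc : Form m q n k c) {X Y : ℤ} {H M : ℕ}
    (hX : |X| ≤ H) (hY : |Y| ≤ H) {u v : ℕ} (hu : u ≤ M) (hv : v ≤ M) :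
    |val m n c X Y (fun j => (u : ℤ) ^ j * (v : ℤ) ^ (m - j))| ≤
      (((m + 1) * (n + 1) * (cst m q ^ n * H ^ n * M ^ m) : ℕ) : ℤ) := by
  have key : ∀ j ∈ range (m + 1), ∀ l ∈ range (n + 1),
      |c j l * Y ^ l * X ^ (n - l) * ((u : ℤ) ^ j * (v : ℤ) ^ (m - j))| ≤
        (cst m q : ℤ) ^ n * (H : ℤ) ^ n * (M : ℤ) ^ m := by
    intro j hj l hl
    rw [Finset.mem_range] at hj hl
    rw [abs_mul, abs_mul, abs_mul, abs_pow, abs_pow]
    have h1 : |Y| ^ l * |X| ^ (n - l) ≤ (H : ℤ) ^ n := by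
      calc |Y| ^ l * |X| ^ (n - l) ≤ (H : ℤ) ^ l * (H : ℤ) ^ (n - l) :=
            mul_le_mul (pow_le_pow_left₀ (abs_nonneg _) hY _)
              (pow_le_pow_left₀ (abs_nonneg _) hX _) (by positivity) (by positivity)
        _ = (H : ℤ) ^ n := by rw [← pow_add]; congr 1; omega
    have h2 : |(u : ℤ) ^ j * (v : ℤ) ^ (m - j)| ≤ (M : ℤ) ^ m := by
      rw [abs_of_nonneg (by positivity)]
      have hu' : (u : ℤ) ≤ M := by exact_mod_cast hu
      have hv' : (v : ℤ) ≤ M := by exact_mod_cast hv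
      calc (u : ℤ) ^ j * (v : ℤ) ^ (m - j) ≤ (M : ℤ) ^ j * (M : ℤ) ^ (m - j) :=
            mul_le_mul (pow_le_pow_left₀ (by positivity) hu' _)
              (pow_le_pow_left₀ (by positivity) hv' _) (by positivity) (by positivity)
        _ = (M : ℤ) ^ m := by rw [← pow_add]; congr 1; omega
    have h3 : |c j l| * |Y| ^ l * |X| ^ (n - l) ≤ (cst m q : ℤ) ^ n * (H : ℤ) ^ n := by
      rw [mul_assoc]
      exact mul_le_mul (hc.bound j l) h1 (by positivity) (by positivity)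
    exact mul_le_mul h3 h2 (abs_nonneg _) (by positivity)
  unfold val
  refine (Finset.abs_sum_le_sum_abs _ _).trans ?_
  have h4 : ∀ j ∈ range (m + 1),
      |∑ l ∈ range (n + 1), c j l * Y ^ l * X ^ (n - l) * ((u : ℤ) ^ j * (v : ℤ) ^ (m - j))| ≤
        (n + 1) * ((cst m q : ℤ) ^ n * (H : ℤ) ^ n * (M : ℤ) ^ m) := by
    intro j hj
    refine (Finset.abs_sum_le_sum_abs _ _).trans ?_
    refine (Finset.sum_le_sum (key j hj)).trans ?_
    rw [Finset.sum_const, Finset.card_range, nsmul_eq_mul]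
    push_cast
    exact le_rfl
  refine (Finset.sum_le_sum h4).trans ?_
  rw [Finset.sum_const, Finset.card_range, nsmul_eq_mul]
  push_cast
  refine le_of_eq ?_
  ring

theorem pow_bound {t : ℕ} (ht : 1 ≤ t) : 2 * t ≤ 4 ^ t := by
  induction t with
  | zero => omega
  | succ t ih =>
    rcases Nat.eq_zero_or_pos t with h | h
    · subst h; norm_num
    · have := ih h
      rw [pow_succ]
      omega

/-- the first solution is the smaller one -/
theorem aux {κ : ℝ} {q p U V U' V' : ℕ} {a T T' : ℤ} (hκ0 : 0 < κ) (hκ1 : κ ≤ 1)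
    (hq : IsPrimePow q) (hqκ : 100 / κ ^ 2 ≤ q) (hp : p.Prime) (hpq : ¬ p ∣ q)
    (hA3 : ∀ {m q n k : ℕ}, IsPrimePow q → m < q → k ≤ m → 1 ≤ n →
      ∃ c : ℕ → ℕ → ℤ, Form m q n k c)
    (S : SolP κ q p a U V T) (S' : SolP κ q p a U' V' T') (hroot : U * V' ≡ U' * V [MOD p])
    (hH : HH q a U V ≤ HH q a U' V') : U = U' ∧ V = V' := by
  by_contra hne
  have hcross : U * V' ≠ U' * V := cross_ne S.U0 S.UV S'.UV hne
  have hq0 : 0 < q := hq.pos
  have hqR : (0 : ℝ) < q := by exact_mod_cast hq0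
  set H := HH q a U V with hHdef
  set H' := HH q a U' V' with hHdef'
  have hU1 : U ^ q ≤ H := le_max_left _ _
  have hV1 : a.natAbs * V ^ q ≤ H := le_max_right _ _
  have hU1' : U' ^ q ≤ H' := le_max_left _ _
  have hV1' : a.natAbs * V' ^ q ≤ H' := le_max_right _ _
  have ha1 : 1 ≤ a.natAbs := Int.natAbs_pos.mpr S.a0
  have hV2 : V ^ q ≤ H := (Nat.le_mul_of_pos_left _ ha1).trans hV1
  have hV2' : V' ^ q ≤ H' := (Nat.le_mul_of_pos_left _ ha1).trans hV1'
  have hHpos : 0 < H := lt_of_lt_of_le (pow_pos S.U0 q) hU1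
  have hHpos' : 0 < H' := lt_of_lt_of_le (pow_pos S'.U0 q) hU1'
  set h := Real.log (H : ℝ) with hh
  set h' := Real.log (H' : ℝ) with hh'
  have hle : h ≤ h' := Real.log_le_log (by exact_mod_cast hHpos) (by exact_mod_cast hH)
  -- the large height
  set Lg := Real.log (10 ^ 8 * (q : ℝ) ^ 9) with hLg
  have hq1 : (1 : ℝ) ≤ q := by exact_mod_cast hq0
  have hq9 : (1 : ℝ) ≤ (q : ℝ) ^ 9 := one_le_pow₀ hq1
  have hLg0 : 0 < Lg := Real.log_pos (by nlinarith)
  have hlarge : 50 * (3 / κ + 1) * Lg ≤ h := S.large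
  have h3κ : 0 < 3 / κ := by positivity
  have h0 : 0 < h := lt_of_lt_of_le (by positivity) hlarge
  -- the exponents
  obtain ⟨y, hy1, hy2⟩ := S.good
  obtain ⟨y', hy1', hy2'⟩ := S'.good
  have hlp : 0 < Real.log (p : ℝ) := Real.log_pos (by exact_mod_cast hp.one_lt)
  set e := min y y' with he
  have hee : κ * h ≤ (e : ℝ) * Real.log p := by
    rcases min_choice y y' with h1 | h1
    · rw [he, h1]; exact hy2
    · rw [he, h1]
      exact (mul_le_mul_of_nonneg_left hle hκ0.le).trans hy2'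
  have hpe : (p : ℤ) ^ e ∣ T := (pow_dvd_pow _ (min_le_left _ _)).trans hy1
  have hpe' : (p : ℤ) ^ e ∣ T' := (pow_dvd_pow _ (min_le_right _ _)).trans hy1'
  set u := U' * V with hu
  set v := U * V' with hv
  have hpu : ¬ p ∣ u := fun h1 => (hp.dvd_mul.mp h1).elim S'.Up S.Vp
  have hpv : ¬ p ∣ v := fun h1 => (hp.dvd_mul.mp h1).elim S.Up S'.Vp
  have hu0 : 0 < u := Nat.mul_pos S'.U0 S.V0
  have hv0 : 0 < v := Nat.mul_pos S.U0 S'.V0
  have hlp1 : ∀ l : ℕ, l.Prime → l ∣ p → l = p := fun l hl hlp => (Nat.prime_dvd_prime_iff_eq hl hp).1 hlp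
  have hgap1 : (p : ℤ) ^ e ∣ (u : ℤ) - (v : ℤ) := by
    apply dvd_sub_of_pow (q := q)
    · intro l hl hlp
      rw [hlp1 l hl hlp]; exact hpq
    · intro l hl hlp
      rw [hlp1 l hl hlp]
      intro h1
      exact hpu (by exact_mod_cast h1)
    · intro l hl hlp
      rw [hlp1 l hl hlp]
      exact Nat.modEq_iff_dvd.mp hroot
    · have e1 : ((u : ℕ) : ℤ) ^ q - ((v : ℕ) : ℤ) ^ q =
          T' * (V : ℤ) ^ q - T * (V' : ℤ) ^ q := by
        rw [hu, hv]
        push_cast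
        rw [mul_pow, mul_pow, ← S.eq, ← S'.eq]
        ring
      rw [e1]
      exact dvd_sub (hpe'.mul_right _) (hpe.mul_right _)
  -- sizes
  set M := max u v with hM
  have huM : u ≤ M := le_max_left _ _
  have hvM : v ≤ M := le_max_right _ _
  have hM0 : 0 < M := lt_of_lt_of_le hu0 huM
  have hMq : M ^ q ≤ H * H' := by
    rcases max_choice u v with h1 | h1
    · rw [hM, h1, hu, mul_pow, mul_comm H]
      exact Nat.mul_le_mul hU1' hV2
    · rw [hM, h1, hv, mul_pow]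
      exact Nat.mul_le_mul hU1 hV2'
  have hlM : Real.log (M : ℝ) ≤ (h + h') / q := by
    rw [le_div_iff₀ hqR]
    have h1 : Real.log ((M : ℝ) ^ q) ≤ Real.log ((H : ℝ) * H') :=
      Real.log_le_log (by positivity) (by exact_mod_cast hMq)
    rw [Real.log_pow, Real.log_mul (by positivity) (by positivity)] at h1
    linarith
  have hpeM : p ^ e ≤ M := by
    have h1 : (u : ℤ) - (v : ℤ) ≠ 0 := by
      intro h1
      apply hcross
      have : (u : ℤ) = (v : ℤ) := by linarith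
      have h2 : u = v := by exact_mod_cast this
      exact h2.symm
    have h2 : (p : ℤ) ^ e ≤ |(u : ℤ) - (v : ℤ)| :=
      Int.le_of_dvd (abs_pos.mpr h1) ((dvd_abs _ _).mpr hgap1)
    have h3 : |(u : ℤ) - (v : ℤ)| ≤ (M : ℤ) := by
      have e1 : (u : ℤ) ≤ M := by exact_mod_cast huM
      have e2 : (v : ℤ) ≤ M := by exact_mod_cast hvM
      have e3 : (0 : ℤ) ≤ u := by positivity
      have e4 : (0 : ℤ) ≤ v := by positivity
      rw [abs_le]
      constructor <;> linarith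
    exact_mod_cast h2.trans h3
  have hpeM2 : (e : ℝ) * Real.log p ≤ Real.log M := by
    rw [← Real.log_pow]
    exact Real.log_le_log (by have := hp.pos; positivity) (by exact_mod_cast hpeM)
  -- the parameter `m`
  set m := ⌊3 / κ⌋₊ with hm
  have hm1 : (m : ℝ) ≤ 3 / κ := Nat.floor_le h3κ.le
  have hm2 : 3 / κ ≤ (m : ℝ) + 1 := (Nat.lt_floor_add_one _).le
  have hmq : m < q := by
    have h1 : 3 / κ < 100 / κ ^ 2 := by
      rw [div_lt_div_iff₀ hκ0 (by positivity)]
      nlinarith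
    exact_mod_cast lt_of_le_of_lt hm1 (h1.trans_le hqκ)
  refine AR.arith hκ0 hκ1 hm2 hm1 hqκ h0 hle ?_ ?_
  · have := hee.trans (hpeM2.trans hlM)
    have h1 : 0 ≤ κ * h := by positivity
    linarith
  · intro n hn
    choose! c hc using fun (k : ℕ) (hk : k ≤ m) => hA3 (q := q) (n := n) hq hmq hk hn
    have hX : ((U : ℤ) ^ q) ≠ 0 := pow_ne_zero _ (by exact_mod_cast S.U0.ne')
    have hXY : (U : ℤ) ^ q ≠ a * (V : ℤ) ^ q := by
      intro h1
      apply S.T0
      rw [← S.eq, h1, sub_self]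
    have hx0 : (fun j => (u : ℤ) ^ j * (v : ℤ) ^ (m - j)) 0 ≠ 0 := by
      simp only [pow_zero, one_mul]
      exact pow_ne_zero _ (by exact_mod_cast hv0.ne')
    obtain ⟨k, hk, hval⟩ := B.exists_ne hq0 c hc hX hXY
      (fun j => (u : ℤ) ^ j * (v : ℤ) ^ (m - j)) hx0
    have hcop : IsCoprime (v : ℤ) (p : ℤ) :=
      Nat.isCoprime_iff_coprime.mpr ((Nat.Prime.coprime_iff_not_dvd hp).2 hpv).symm
    have hdiv2 : (p : ℤ) ^ y' ∣ (U : ℤ) ^ q * (u : ℤ) ^ q - a * (V : ℤ) ^ q * (v : ℤ) ^ q := by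
      have e1 : (U : ℤ) ^ q * (u : ℤ) ^ q - a * (V : ℤ) ^ q * (v : ℤ) ^ q =
          T' * ((U : ℤ) ^ q * (V : ℤ) ^ q) := by
        rw [hu, hv]
        push_cast
        rw [mul_pow, mul_pow, ← S'.eq]
        ring
      rw [e1]
      exact hy1'.mul_right _
    have hdvd := P.val_dvd (hc k hk) hcop hgap1 hdiv2
    set Z := val m n (c k) ((U : ℤ) ^ q) (a * (V : ℤ) ^ q)
      (fun j => (u : ℤ) ^ j * (v : ℤ) ^ (m - j)) with hZ
    have hlow : (p : ℤ) ^ (min y' ((m + 1) * n * e)) ≤ |Z| :=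
      Int.le_of_dvd (abs_pos.mpr hval) ((dvd_abs _ _).mpr hdvd)
    have hXH : |(U : ℤ) ^ q| ≤ (H : ℤ) := by
      rw [abs_of_nonneg (by positivity)]
      exact_mod_cast hU1
    have hYH : |a * (V : ℤ) ^ q| ≤ (H : ℤ) := by
      rw [abs_mul, abs_of_nonneg (by positivity : (0 : ℤ) ≤ (V : ℤ) ^ q), Int.abs_eq_natAbs]
      exact_mod_cast hV1
    have hup := val_le (hc k hk) hXH hYH huM hvM
    rw [← hZ] at hup
    have hnat : p ^ (min y' ((m + 1) * n * e)) ≤
        (m + 1) * (n + 1) * (cst m q ^ n * H ^ n * M ^ m) := by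
      exact_mod_cast hlow.trans hup
    have hnat2 : p ^ (min y' ((m + 1) * n * e)) ≤
        4 ^ ((m + 1) * n) * (cst m q ^ n * H ^ n * M ^ m) := by
      refine hnat.trans (Nat.mul_le_mul_right _ ?_)
      have h1 : 1 ≤ (m + 1) * n := Nat.mul_pos (Nat.succ_pos _) hn
      calc (m + 1) * (n + 1) ≤ (m + 1) * (2 * n) := Nat.mul_le_mul_left _ (by omega)
        _ = 2 * ((m + 1) * n) := by ring
        _ ≤ 4 ^ ((m + 1) * n) := pow_bound h1
    have hcpos : 0 < cst m q := by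
      unfold cst
      positivity
    have hlog : ((min y' ((m + 1) * n * e) : ℕ) : ℝ) * Real.log p ≤
        ((m + 1) * n : ℕ) * Real.log 4 + (n * Real.log (cst m q) + n * h + m * Real.log M) := by
      have h1 : Real.log (((p ^ (min y' ((m + 1) * n * e)) : ℕ) : ℝ)) ≤
          Real.log (((4 ^ ((m + 1) * n) * (cst m q ^ n * H ^ n * M ^ m) : ℕ) : ℝ)) :=
        Real.log_le_log (by have := hp.pos; positivity) (by exact_mod_cast hnat2)
      have hc0 : (cst m q : ℝ) ≠ 0 := by exact_mod_cast hcpos.ne'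
      have hH0 : (H : ℝ) ≠ 0 := by exact_mod_cast hHpos.ne'
      have hM0' : (M : ℝ) ≠ 0 := by exact_mod_cast hM0.ne'
      rw [Nat.cast_pow, Real.log_pow, Nat.cast_mul, Nat.cast_mul, Nat.cast_mul, Nat.cast_pow,
        Nat.cast_pow, Nat.cast_pow, Nat.cast_pow,
        Real.log_mul (by positivity) (by positivity),
        Real.log_mul (by positivity) (by positivity),
        Real.log_mul (by positivity) (by positivity), Real.log_pow, Real.log_pow, Real.log_pow,
        Real.log_pow] at h1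
      exact_mod_cast h1
    have hlc : Real.log (cst m q : ℝ) = (m + 1) * Real.log (15000 * (q : ℝ) ^ 9) := by
      unfold cst
      push_cast
      rw [Real.log_pow]
      push_cast
      rfl
    have hsum : Real.log 4 + Real.log (15000 * (q : ℝ) ^ 9) ≤ Lg := by
      rw [← Real.log_mul (by norm_num) (by positivity)]
      refine Real.log_le_log (by positivity) ?_
      nlinarith
    have hlowr : min (κ * (((m : ℝ) + 1) * n) * h) (κ * h') ≤
        ((min y' ((m + 1) * n * e) : ℕ) : ℝ) * Real.log p := by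
      rcases min_choice y' ((m + 1) * n * e) with h1 | h1
      · rw [h1]
        exact (min_le_right _ _).trans hy2'
      · rw [h1]
        refine (min_le_left _ _).trans ?_
        push_cast
        have h2 := mul_le_mul_of_nonneg_left hee (by positivity : (0 : ℝ) ≤ ((m : ℝ) + 1) * n)
        linarith
    refine hlowr.trans (hlog.trans ?_)
    rw [hlc]
    push_cast
    have hmM : (m : ℝ) * Real.log M ≤ (m / q) * (h + h') := by
      calc (m : ℝ) * Real.log M ≤ m * ((h + h') / q) :=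
            mul_le_mul_of_nonneg_left hlM (by positivity)
        _ = (m / q) * (h + h') := by ring
    have hmain : ((m : ℝ) + 1) * n * Real.log 4 +
        n * ((m + 1) * Real.log (15000 * (q : ℝ) ^ 9)) ≤ n * (h / 50) := by
      have h1 : ((m : ℝ) + 1) * (Real.log 4 + Real.log (15000 * (q : ℝ) ^ 9)) ≤ h / 50 := by
        calc ((m : ℝ) + 1) * (Real.log 4 + Real.log (15000 * (q : ℝ) ^ 9))
            ≤ (3 / κ + 1) * Lg :=
              mul_le_mul (by linarith) hsum (by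
                have := Real.log_nonneg (by norm_num : (1 : ℝ) ≤ 4)
                have := Real.log_nonneg (by nlinarith : (1 : ℝ) ≤ 15000 * (q : ℝ) ^ 9)
                linarith) (by positivity)
          _ ≤ h / 50 := by linarith
      have h2 := mul_le_mul_of_nonneg_left h1 (by positivity : (0 : ℝ) ≤ (n : ℝ))
      linarith
    linarith

/-- Task UP (uniqueness, `p`-adic; consequence of A3, B, P, AR). -/
theorem unique_p
    (hA3 : ∀ {m q n k : ℕ}, IsPrimePow q → m < q → k ≤ m → 1 ≤ n →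
      ∃ c : ℕ → ℕ → ℤ, Form m q n k c)
    {κ : ℝ} {q p U V U' V' : ℕ} {a T T' : ℤ} (hκ0 : 0 < κ) (hκ1 : κ ≤ 1)
    (hq : IsPrimePow q) (hqκ : 100 / κ ^ 2 ≤ q) (hp : p.Prime) (hpq : ¬ p ∣ q)
    (S : SolP κ q p a U V T) (S' : SolP κ q p a U' V' T') (hroot : U * V' ≡ U' * V [MOD p]) :
    U = U' ∧ V = V' := by
  rcases le_total (HH q a U V) (HH q a U' V') with h | h
  · exact aux hκ0 hκ1 hq hqκ hp hpq hA3 S S' hroot h
  · have h1 := aux hκ0 hκ1 hq hqκ hp hpq hA3 S' S hroot.symm h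
    exact ⟨h1.1.symm, h1.2.symm⟩

end Pool.Agent.H374R2.W.UP
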