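import Mathlib
import Pool.Agent.H374R2.W.Defs

/-! Task R: size of the value of a form over the reals (helper794). -/

set_option autoImplicit false

namespace Pool.Agent.H374R2.W.R

open Finset Polynomial
open Pool.Agent.H374R2.W

/-- the Taylor coefficients at `1` below the order of the zero vanish -/
theorem coef_zero {m q n k : ℕ} {c : ℕ → ℕ → ℤ} (hc : Form m q n k c) {i : ℕ}
    (hi : i < (m + 1) * n) :
    ∑ j ∈ range (m + 1), ∑ l ∈ range (n + 1), c j l * ((q * l + j).choose i : ℤ) = 0 := by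
  obtain ⟨G, hG⟩ := hc.van
  have h1 : taylor (1 : ℤ) (∑ j ∈ range (m + 1), ∑ l ∈ range (n + 1), C (c j l) * X ^ (q * l + j)) =
      X ^ ((m + 1) * n) * taylor 1 G := by
    rw [hG, taylor_mul, taylor_pow]
    congr 2
    simp
  have h2 := congrArg (fun p : ℤ[X] => p.coeff i) h1
  simp only [coeff_X_pow_mul', if_neg (not_le.2 hi)] at h2
  rw [← h2]
  simp only [map_sum, taylor_mul, taylor_C, taylor_X_pow, map_one, finsetSum_coeff, coeff_C_mul,
    coeff_X_add_one_pow]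

theorem pow_expand {t : ℝ} {s M : ℕ} (hs : s ≤ M) :
    (1 + t) ^ s = ∑ i ∈ range (M + 1), ((s.choose i : ℕ) : ℝ) * t ^ i := by
  rw [add_comm, add_pow]
  have hsub : range (s + 1) ⊆ range (M + 1) := by
    intro x hx; rw [mem_range] at hx ⊢; omega
  rw [← Finset.sum_subset hsub]
  · refine Finset.sum_congr rfl (fun i _ => ?_)
    rw [one_pow, mul_one, mul_comm]
  · intro i _ hi
    rw [mem_range, not_lt] at hi
    rw [Nat.choose_eq_zero_of_lt (by omega)]
    simp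

theorem tail_le {t : ℝ} {q n m s K : ℕ} (hq : 0 < q) (hn : 1 ≤ n) (hmq : m < q)
    (hs : s ≤ q * n + m) (ht : (q : ℝ) * |t| ≤ 1) :
    |∑ i ∈ (range (q * n + m + 1)).filter (fun i => K ≤ i), ((s.choose i : ℕ) : ℝ) * t ^ i| ≤
      ((q : ℝ) * |t|) ^ K * 8 ^ n := by
  have hq' : (0 : ℝ) < q := by exact_mod_cast hq
  have hqt : 0 ≤ (q : ℝ) * |t| := by positivity
  have h1 : ∀ i ∈ (range (q * n + m + 1)).filter (fun i => K ≤ i),
      |((s.choose i : ℕ) : ℝ) * t ^ i| ≤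
        ((q : ℝ) * |t|) ^ K * (((s.choose i : ℕ) : ℝ) * (1 / (q : ℝ)) ^ i) := by
    intro i hi
    have hKi : K ≤ i := (Finset.mem_filter.1 hi).2
    rw [abs_mul, abs_pow, abs_of_nonneg (Nat.cast_nonneg _)]
    have e : |t| ^ i = ((q : ℝ) * |t|) ^ i * (1 / (q : ℝ)) ^ i := by
      rw [← mul_pow]; congr 1; field_simp
    rw [e]
    have h2 : ((q : ℝ) * |t|) ^ i ≤ ((q : ℝ) * |t|) ^ K := pow_le_pow_of_le_one hqt ht hKi
    have h3 : 0 ≤ ((s.choose i : ℕ) : ℝ) * (1 / (q : ℝ)) ^ i := by positivity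
    calc ((s.choose i : ℕ) : ℝ) * (((q : ℝ) * |t|) ^ i * (1 / (q : ℝ)) ^ i)
        = ((q : ℝ) * |t|) ^ i * (((s.choose i : ℕ) : ℝ) * (1 / (q : ℝ)) ^ i) := by ring
      _ ≤ _ := by gcongr
  have h4 : ∑ i ∈ (range (q * n + m + 1)).filter (fun i => K ≤ i),
      ((s.choose i : ℕ) : ℝ) * (1 / (q : ℝ)) ^ i ≤ (1 + 1 / (q : ℝ)) ^ s := by
    rw [pow_expand (t := 1 / (q : ℝ)) hs]
    apply Finset.sum_le_sum_of_subset_of_nonneg (Finset.filter_subset _ _)
    intro i _ _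
    positivity
  have h5 : (1 + 1 / (q : ℝ)) ^ s ≤ 8 ^ n := by
    have a1 : (1 + 1 / (q : ℝ)) ≤ Real.exp (1 / (q : ℝ)) := by
      have := Real.add_one_le_exp (1 / (q : ℝ)); linarith
    have a2 : (1 + 1 / (q : ℝ)) ^ s ≤ Real.exp (1 / (q : ℝ)) ^ s := by
      gcongr
    have a3 : Real.exp (1 / (q : ℝ)) ^ s = Real.exp ((s : ℝ) / q) := by
      rw [← Real.exp_nat_mul]; congr 1; field_simp
    have a4 : (s : ℝ) / q ≤ n + 1 := by
      rw [div_le_iff₀ hq']
      have b1 : (s : ℝ) ≤ q * n + m := by exact_mod_cast hs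
      have b2 : (m : ℝ) ≤ q := by exact_mod_cast hmq.le
      nlinarith
    have a5 : Real.exp ((s : ℝ) / q) ≤ Real.exp ((2 * n : ℕ) : ℝ) := by
      apply Real.exp_le_exp.2
      have : (1 : ℝ) ≤ n := by exact_mod_cast hn
      push_cast
      linarith
    have a6 : Real.exp ((2 * n : ℕ) : ℝ) ≤ 8 ^ n := by
      have e1 : Real.exp ((2 * n : ℕ) : ℝ) = (Real.exp 1 ^ 2) ^ n := by
        rw [← pow_mul, ← Real.exp_nat_mul, mul_one]
      rw [e1]
      have e2 : Real.exp 1 ^ 2 ≤ 8 := by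
        have := Real.exp_one_lt_d9
        have h0 := Real.exp_pos 1
        nlinarith
      gcongr
    rw [a3] at a2
    exact a2.trans (a5.trans a6)
  calc |∑ i ∈ (range (q * n + m + 1)).filter (fun i => K ≤ i), ((s.choose i : ℕ) : ℝ) * t ^ i|
      ≤ ∑ i ∈ (range (q * n + m + 1)).filter (fun i => K ≤ i),
          |((s.choose i : ℕ) : ℝ) * t ^ i| := Finset.abs_sum_le_sum_abs _ _
    _ ≤ ∑ i ∈ (range (q * n + m + 1)).filter (fun i => K ≤ i),
          ((q : ℝ) * |t|) ^ K * (((s.choose i : ℕ) : ℝ) * (1 / (q : ℝ)) ^ i) :=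
        Finset.sum_le_sum h1
    _ = ((q : ℝ) * |t|) ^ K * ∑ i ∈ (range (q * n + m + 1)).filter (fun i => K ≤ i),
          ((s.choose i : ℕ) : ℝ) * (1 / (q : ℝ)) ^ i := by rw [Finset.mul_sum]
    _ ≤ ((q : ℝ) * |t|) ^ K * 8 ^ n := by
        have := h4.trans h5
        gcongr

theorem sum2_le {m n : ℕ} (F : ℕ → ℕ → ℝ) {b : ℝ}
    (h : ∀ j ∈ range (m + 1), ∀ l ∈ range (n + 1), |F j l| ≤ b) :
    |∑ j ∈ range (m + 1), ∑ l ∈ range (n + 1), F j l| ≤ (m + 1) * (n + 1) * b := by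
  calc |∑ j ∈ range (m + 1), ∑ l ∈ range (n + 1), F j l|
      ≤ ∑ j ∈ range (m + 1), |∑ l ∈ range (n + 1), F j l| := Finset.abs_sum_le_sum_abs _ _
    _ ≤ ∑ j ∈ range (m + 1), ∑ l ∈ range (n + 1), |F j l| :=
        Finset.sum_le_sum (fun j _ => Finset.abs_sum_le_sum_abs _ _)
    _ ≤ ∑ j ∈ range (m + 1), ∑ l ∈ range (n + 1), b :=
        Finset.sum_le_sum (fun j hj => Finset.sum_le_sum (fun l hl => h j hj l hl))
    _ = (m + 1) * (n + 1) * b := by
        simp only [Finset.sum_const, Finset.card_range, nsmul_eq_mul]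
        push_cast
        ring

/-- the main part -/
theorem main_part {m q n k : ℕ} {c : ℕ → ℕ → ℤ} (hc : Form m q n k c) (hmq : m < q) (hn : 1 ≤ n)
    {t : ℝ} (ht : (q : ℝ) * |t| ≤ 1) :
    |∑ j ∈ range (m + 1), ∑ l ∈ range (n + 1), (c j l : ℝ) * (1 + t) ^ (q * l + j)| ≤
      (m + 1) * (n + 1) * ((cst m q : ℝ) ^ n * (((q : ℝ) * |t|) ^ ((m + 1) * n) * 8 ^ n)) := by
  have hq : 0 < q := by omega
  set K := (m + 1) * n with hK
  set M := q * n + m with hM
  have hs : ∀ j ∈ range (m + 1), ∀ l ∈ range (n + 1), q * l + j ≤ M := by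
    intro j hj l hl
    rw [mem_range] at hj hl
    have : q * l ≤ q * n := Nat.mul_le_mul_left q (by omega)
    omega
  have e1 : ∑ j ∈ range (m + 1), ∑ l ∈ range (n + 1), (c j l : ℝ) * (1 + t) ^ (q * l + j) =
      ∑ j ∈ range (m + 1), ∑ l ∈ range (n + 1), (c j l : ℝ) *
        ∑ i ∈ (range (M + 1)).filter (fun i => K ≤ i), (((q * l + j).choose i : ℕ) : ℝ) * t ^ i := by
    have e2 : ∀ j ∈ range (m + 1), ∀ l ∈ range (n + 1),
        (c j l : ℝ) * (1 + t) ^ (q * l + j) = (c j l : ℝ) *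
          ∑ i ∈ (range (M + 1)).filter (fun i => K ≤ i),
            (((q * l + j).choose i : ℕ) : ℝ) * t ^ i +
        (c j l : ℝ) * ∑ i ∈ (range (M + 1)).filter (fun i => ¬ K ≤ i),
            (((q * l + j).choose i : ℕ) : ℝ) * t ^ i := by
      intro j hj l hl
      rw [pow_expand (hs j hj l hl), ← mul_add, Finset.sum_filter_add_sum_filter_not]
    have e3 : ∑ j ∈ range (m + 1), ∑ l ∈ range (n + 1), (c j l : ℝ) *
        ∑ i ∈ (range (M + 1)).filter (fun i => ¬ K ≤ i),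
          (((q * l + j).choose i : ℕ) : ℝ) * t ^ i = 0 := by
      have e4 : ∀ i ∈ (range (M + 1)).filter (fun i => ¬ K ≤ i),
          ∑ j ∈ range (m + 1), ∑ l ∈ range (n + 1),
            (c j l : ℝ) * ((((q * l + j).choose i : ℕ) : ℝ) * t ^ i) = 0 := by
        intro i hi
        have hi' : i < K := not_le.1 (Finset.mem_filter.1 hi).2
        have h0 := coef_zero hc hi'
        have h0' : ∑ j ∈ range (m + 1), ∑ l ∈ range (n + 1),
            (c j l : ℝ) * (((q * l + j).choose i : ℕ) : ℝ) = 0 := by exact_mod_cast h0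
        have h00 : ∑ j ∈ range (m + 1), ∑ l ∈ range (n + 1),
            (c j l : ℝ) * ((((q * l + j).choose i : ℕ) : ℝ) * t ^ i) =
            (∑ j ∈ range (m + 1), ∑ l ∈ range (n + 1),
              (c j l : ℝ) * (((q * l + j).choose i : ℕ) : ℝ)) * t ^ i := by
          rw [Finset.sum_mul]
          refine Finset.sum_congr rfl (fun j _ => ?_)
          rw [Finset.sum_mul]
          refine Finset.sum_congr rfl (fun l _ => ?_)
          ring
        rw [h00, h0', zero_mul]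
      have e5 : ∑ j ∈ range (m + 1), ∑ l ∈ range (n + 1), (c j l : ℝ) *
          ∑ i ∈ (range (M + 1)).filter (fun i => ¬ K ≤ i),
            (((q * l + j).choose i : ℕ) : ℝ) * t ^ i =
          ∑ i ∈ (range (M + 1)).filter (fun i => ¬ K ≤ i),
            ∑ j ∈ range (m + 1), ∑ l ∈ range (n + 1),
              (c j l : ℝ) * ((((q * l + j).choose i : ℕ) : ℝ) * t ^ i) := by
        simp only [Finset.mul_sum]
        rw [Finset.sum_comm]
        rw [Finset.sum_comm (s := (range (M + 1)).filter (fun i => ¬ K ≤ i))]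
        rw [Finset.sum_comm]
        refine Finset.sum_congr rfl (fun j _ => ?_)
        rw [Finset.sum_comm]
      rw [e5]
      exact Finset.sum_eq_zero e4
    rw [Finset.sum_congr rfl (fun j hj => Finset.sum_congr rfl (fun l hl => e2 j hj l hl))]
    simp only [Finset.sum_add_distrib]
    rw [e3, add_zero]
  rw [e1]
  apply sum2_le
  intro j hj l hl
  rw [abs_mul]
  have b1 : |(c j l : ℝ)| ≤ (cst m q : ℝ) ^ n := by exact_mod_cast hc.bound j l
  have b2 := tail_le (t := t) (K := K) hq hn hmq (hs j hj l hl) ht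
  exact mul_le_mul b1 b2 (abs_nonneg _) (by positivity)

end Pool.Agent.H374R2.W.R

namespace Pool.Agent.H374R2.W.R

open Finset Polynomial

/-- Task R (size of the value of a form over the reals). -/
theorem val_real {m q n k : ℕ} {c : ℕ → ℕ → ℤ} (hc : Form m q n k c) (hmq : m < q) (hn : 1 ≤ n)
    {X Y u v : ℤ} (hX : 0 < X) (hY : 0 < Y) (hu : 0 < u) (hv : 0 < v) {δ δ' Δ : ℝ}
    (h1 : |(Y : ℝ) / X - 1| ≤ δ) (h2 : |((Y : ℝ) * v ^ q) / (X * u ^ q) - 1| ≤ δ')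
    (hδ : δ ≤ Δ) (hδ' : δ' ≤ Δ) (hΔ : Δ ≤ 1 / 10) :
    |((u : ℝ) / v) - 1| ≤ 3 * Δ / q ∧
    |((val m n c X Y (fun j => u ^ j * v ^ (m - j)) : ℤ) : ℝ)| ≤
      2 * (m + 1) * (n + 1) * 8 ^ n * (cst m q : ℝ) ^ n * (X : ℝ) ^ n * (v : ℝ) ^ m *
        max ((9 * Δ) ^ ((m + 1) * n)) δ' := by
  have hq : 0 < q := by omega
  have hq' : (0 : ℝ) < q := by exact_mod_cast hq
  have hX' : (0 : ℝ) < X := by exact_mod_cast hX
  have hY' : (0 : ℝ) < Y := by exact_mod_cast hY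
  have hu' : (0 : ℝ) < u := by exact_mod_cast hu
  have hv' : (0 : ℝ) < v := by exact_mod_cast hv
  have hΔ0 : 0 ≤ Δ := (abs_nonneg _).trans (h1.trans hδ)
  have hδ'0 : 0 ≤ δ' := (abs_nonneg _).trans h2
  set w : ℝ := (Y : ℝ) / X with hw
  set ρ : ℝ := (u : ℝ) / v with hρ
  have hρ0 : 0 < ρ := div_pos hu' hv'
  have hw0 : 0 < w := div_pos hY' hX'
  set P : ℝ := ρ ^ q with hP
  have hP0 : 0 < P := pow_pos hρ0 q
  have hwP : (Y : ℝ) * v ^ q / (X * u ^ q) = w / P := by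
    rw [hw, hP, hρ, div_pow]
    field_simp
  rw [hwP] at h2
  obtain ⟨w1, w2⟩ := abs_le.1 (h1.trans hδ)
  obtain ⟨p1, p2⟩ := abs_le.1 (h2.trans hδ')
  -- w = P (1 + e)
  have hwe : w = P * (1 + (w / P - 1)) := by field_simp; ring
  set e : ℝ := w / P - 1 with he
  have hP54 : P ≤ 5 / 4 := by
    nlinarith
  have hwPd : |w - P| ≤ 5 / 4 * δ' := by
    have : w - P = P * e := by rw [hwe]; ring
    rw [this, abs_mul, abs_of_pos hP0]
    exact mul_le_mul hP54 h2 (abs_nonneg _) (by norm_num)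
  have hPm1 : P - 1 ≤ 9 / 4 * Δ := by
    have h3 : w - P ≥ -(5 / 4 * Δ) := by
      have h4 := (abs_le.1 hwPd).1
      linarith
    linarith
  have hPinv : 1 / P - 1 ≤ 9 / 4 * Δ := by
    have h3 : 1 / P = (1 + e) / w := by
      rw [eq_div_iff hw0.ne']
      rw [he]; field_simp; ring
    rw [h3]
    rw [sub_le_iff_le_add, div_le_iff₀ hw0]
    nlinarith
  have hB1 : (q : ℝ) * (ρ - 1) ≤ 9 / 4 * Δ := by
    have h3 := one_add_mul_le_pow (a := ρ - 1) (by linarith) q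
    rw [show 1 + (ρ - 1) = ρ by ring] at h3
    linarith
  have hB2 : (q : ℝ) * (1 / ρ - 1) ≤ 9 / 4 * Δ := by
    have h4 : 0 < 1 / ρ := by positivity
    have h3 := one_add_mul_le_pow (a := 1 / ρ - 1) (by linarith) q
    rw [show 1 + (1 / ρ - 1) = 1 / ρ by ring, one_div_pow] at h3
    linarith
  have hqt : (q : ℝ) * |ρ - 1| ≤ 9 / 4 * Δ := by
    rcases le_total 1 ρ with h | h
    · rw [abs_of_nonneg (by linarith)]; exact hB1
    · rw [abs_of_nonpos (by linarith)]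
      have h3 : -(ρ - 1) ≤ 1 / ρ - 1 := by
        have h5 : 1 / ρ - 1 - (-(ρ - 1)) = (1 - ρ) ^ 2 / ρ := by field_simp; ring
        have h6 : 0 ≤ (1 - ρ) ^ 2 / ρ := by positivity
        linarith
      calc (q : ℝ) * (-(ρ - 1)) ≤ q * (1 / ρ - 1) := by gcongr
        _ ≤ _ := hB2
  refine ⟨?_, ?_⟩
  · rw [le_div_iff₀ hq']
    nlinarith
  -- value
  have hval : ((val m n c X Y (fun j => u ^ j * v ^ (m - j)) : ℤ) : ℝ) =
      (X : ℝ) ^ n * (v : ℝ) ^ m * ((∑ j ∈ range (m + 1), ∑ l ∈ range (n + 1),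
        (c j l : ℝ) * (1 + (ρ - 1)) ^ (q * l + j)) +
      ∑ j ∈ range (m + 1), ∑ l ∈ range (n + 1), (c j l : ℝ) * ((w ^ l - P ^ l) * ρ ^ j)) := by
    simp only [val]
    push_cast
    rw [← Finset.sum_add_distrib, Finset.mul_sum]
    refine Finset.sum_congr rfl (fun j hj => ?_)
    rw [← Finset.sum_add_distrib, Finset.mul_sum]
    refine Finset.sum_congr rfl (fun l hl => ?_)
    rw [mem_range] at hj hl
    have e1 : (1 + (ρ - 1)) ^ (q * l + j) = P ^ l * ρ ^ j := by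
      rw [show 1 + (ρ - 1) = ρ by ring, pow_add, hP, ← pow_mul]
    have e2 : (X : ℝ) ^ n = X ^ l * X ^ (n - l) := by rw [← pow_add]; congr 1; omega
    have e3 : (v : ℝ) ^ m = v ^ j * v ^ (m - j) := by rw [← pow_add]; congr 1; omega
    have e4 : (Y : ℝ) ^ l = w ^ l * X ^ l := by rw [hw, ← mul_pow]; congr 1; field_simp
    have e5 : (u : ℝ) ^ j = ρ ^ j * v ^ j := by rw [hρ, ← mul_pow]; congr 1; field_simp
    rw [e1, e2, e3, e4, e5]
    ring
  rw [hval, abs_mul, abs_of_pos (by positivity : (0 : ℝ) < (X : ℝ) ^ n * (v : ℝ) ^ m)]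
  have hm1 := main_part hc hmq hn (t := ρ - 1) (by linarith)
  have hm2 : |∑ j ∈ range (m + 1), ∑ l ∈ range (n + 1), (c j l : ℝ) * ((w ^ l - P ^ l) * ρ ^ j)| ≤
      (m + 1) * (n + 1) * ((cst m q : ℝ) ^ n * (8 ^ n * δ')) := by
    apply sum2_le
    intro j hj l hl
    rw [mem_range] at hj hl
    rw [abs_mul]
    have b1 : |(c j l : ℝ)| ≤ (cst m q : ℝ) ^ n := by exact_mod_cast hc.bound j l
    have b2 : |(w ^ l - P ^ l) * ρ ^ j| ≤ 8 ^ n * δ' := by
      rw [abs_mul, abs_of_pos (pow_pos hρ0 j)]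
      have b3 : ρ ^ j ≤ 5 / 4 := by
        rcases le_total 1 ρ with h | h
        · exact (pow_le_pow_right₀ h (by omega : j ≤ q)).trans hP54
        · exact (pow_le_one₀ hρ0.le h).trans (by norm_num)
      have b4 : |w ^ l - P ^ l| ≤ 5 / 4 * δ' * (2 ^ n * (5 / 4) ^ n) := by
        have b5 := abs_pow_sub_pow_le w P l
        have b6 : max |w| |P| ≤ 5 / 4 := by
          apply max_le
          · rw [abs_of_pos hw0]; linarith
          · rw [abs_of_pos hP0]; exact hP54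
        have b7 : max |w| |P| ^ (l - 1) ≤ (5 / 4 : ℝ) ^ n := by
          calc max |w| |P| ^ (l - 1) ≤ (5 / 4 : ℝ) ^ (l - 1) := by gcongr
            _ ≤ (5 / 4 : ℝ) ^ n := pow_le_pow_right₀ (by norm_num) (by omega)
        have b8 : (l : ℝ) ≤ 2 ^ n := by
          have h9 : l ≤ 2 ^ n := (by omega : l ≤ n).trans (Nat.lt_two_pow_self).le
          exact_mod_cast h9
        calc |w ^ l - P ^ l| ≤ |w - P| * l * max |w| |P| ^ (l - 1) := b5
          _ ≤ (5 / 4 * δ') * 2 ^ n * (5 / 4) ^ n := by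
              gcongr
          _ = _ := by ring
      calc |w ^ l - P ^ l| * ρ ^ j ≤ (5 / 4 * δ' * (2 ^ n * (5 / 4) ^ n)) * (5 / 4) := by
            gcongr
        _ = (25 / 16) * (5 / 2) ^ n * δ' := by
            rw [← mul_pow]; norm_num; ring
        _ ≤ (25 / 16) ^ n * (5 / 2) ^ n * δ' := by
            have : (25 / 16 : ℝ) ≤ (25 / 16) ^ n := by
              calc (25 / 16 : ℝ) = (25 / 16) ^ 1 := by norm_num
                _ ≤ (25 / 16) ^ n := pow_le_pow_right₀ (by norm_num) hn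
            gcongr
        _ ≤ 8 ^ n * δ' := by
            rw [← mul_pow]
            have : ((25 / 16 : ℝ) * (5 / 2)) ^ n ≤ 8 ^ n := by
              gcongr
              norm_num
            gcongr
    exact mul_le_mul b1 b2 (abs_nonneg _) (by positivity)
  have hK : ((q : ℝ) * |ρ - 1|) ^ ((m + 1) * n) ≤ max ((9 * Δ) ^ ((m + 1) * n)) δ' := by
    refine le_trans ?_ (le_max_left _ _)
    have : (q : ℝ) * |ρ - 1| ≤ 9 * Δ := by linarith
    gcongr
  have hK2 : δ' ≤ max ((9 * Δ) ^ ((m + 1) * n)) δ' := le_max_right _ _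
  set Z := max ((9 * Δ) ^ ((m + 1) * n)) δ' with hZ
  have hcst : (0 : ℝ) ≤ (cst m q : ℝ) ^ n := by positivity
  have hsum : |(∑ j ∈ range (m + 1), ∑ l ∈ range (n + 1),
        (c j l : ℝ) * (1 + (ρ - 1)) ^ (q * l + j)) +
      ∑ j ∈ range (m + 1), ∑ l ∈ range (n + 1), (c j l : ℝ) * ((w ^ l - P ^ l) * ρ ^ j)| ≤
      2 * (m + 1) * (n + 1) * 8 ^ n * (cst m q : ℝ) ^ n * Z := by
    refine (abs_add_le _ _).trans ((add_le_add hm1 hm2).trans ?_)
    have c1 : (m + 1 : ℝ) * (n + 1) * ((cst m q : ℝ) ^ n * (((q : ℝ) * |ρ - 1|) ^ ((m + 1) * n) * 8 ^ n))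
        ≤ (m + 1 : ℝ) * (n + 1) * ((cst m q : ℝ) ^ n * (Z * 8 ^ n)) := by
      gcongr
    have c2 : (m + 1 : ℝ) * (n + 1) * ((cst m q : ℝ) ^ n * (8 ^ n * δ')) ≤
        (m + 1 : ℝ) * (n + 1) * ((cst m q : ℝ) ^ n * (8 ^ n * Z)) := by
      gcongr
    calc _ ≤ _ := add_le_add c1 c2
      _ = _ := by ring
  calc (X : ℝ) ^ n * (v : ℝ) ^ m * _ ≤ (X : ℝ) ^ n * (v : ℝ) ^ m *
        (2 * (m + 1) * (n + 1) * 8 ^ n * (cst m q : ℝ) ^ n * Z) := by
        gcongr
    _ = _ := by ring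

end Pool.Agent.H374R2.W.R
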