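import Mathlib
import Pool.Agent.H374R2.W.Defs
import Pool.Agent.H374R2.W.B
import Pool.Agent.H374R2.W.R
import Pool.Agent.H374R2.W.AR

/-! Task UR: uniqueness over the reals (by helper379). -/

set_option autoImplicit false

namespace Pool.Agent.H374R2.W.UR

open Finset Polynomial
open Pool.Agent.H374R2.V (HH)
open Pool.Agent.H374R2.W

theorem cross_ne {U V U' V' : ℕ} (hU : 0 < U) (c : Nat.Coprime U V)
    (c' : Nat.Coprime U' V') (hne : U ≠ U' ∨ V ≠ V') : U * V' ≠ U' * V := by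
  intro h
  have h1 : U ∣ U' := by
    have : U ∣ U' * V := ⟨V', h.symm⟩
    exact c.dvd_of_dvd_mul_right this
  have h2 : U' ∣ U := by
    have : U' ∣ U * V' := ⟨V, h⟩
    exact c'.dvd_of_dvd_mul_right this
  have h3 : U = U' := Nat.dvd_antisymm h1 h2
  subst h3
  have h4 : V' = V := Nat.eq_of_mul_eq_mul_left hU h
  rcases hne with h5 | h5
  · exact h5 rfl
  · exact h5 h4.symm

theorem log_big {q : ℕ} (hq1 : 1 ≤ q) : 1 ≤ Real.log (10 ^ 8 * (q : ℝ) ^ 9) := by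
  have hq : (1 : ℝ) ≤ q := by exact_mod_cast hq1
  rw [Real.le_log_iff_exp_le (by positivity)]
  have h1 : Real.exp 1 < 3 := by
    have := Real.exp_one_lt_d9
    linarith
  have h2 : (1 : ℝ) ≤ (q : ℝ) ^ 9 := one_le_pow₀ hq
  nlinarith

/-- facts on one solution -/
theorem sol_facts {κ : ℝ} {q U V : ℕ} {a T : ℤ} (hκ0 : 0 < κ) (hq1 : 1 ≤ q)
    (S : SolR κ q a U V T) :
    0 < Real.log (HH q a U V) ∧ Real.exp (-(κ * Real.log (HH q a U V))) ≤ 1 / 20 ∧
      |((a : ℝ) * (V : ℝ) ^ q) / (U : ℝ) ^ q - 1| ≤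
        2 * Real.exp (-(κ * Real.log (HH q a U V))) ∧
      q * Real.log U ≤ Real.log (HH q a U V) ∧ q * Real.log V ≤ Real.log (HH q a U V) := by
  have hU : (0 : ℝ) < U := by exact_mod_cast S.U0
  have hV : (0 : ℝ) < V := by exact_mod_cast S.V0
  have ha : (0 : ℝ) < a := by exact_mod_cast S.a0
  have ha1 : (1 : ℝ) ≤ a := by exact_mod_cast S.a0
  have hUq : (0 : ℝ) < (U : ℝ) ^ q := by positivity
  have hVq : (0 : ℝ) < (V : ℝ) ^ q := by positivity
  have hHcast : ((HH q a U V : ℕ) : ℝ) = max ((U : ℝ) ^ q) ((a : ℝ) * (V : ℝ) ^ q) := by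
    unfold HH
    rw [Nat.cast_max]
    push_cast
    have : ((a.natAbs : ℕ) : ℝ) = (a : ℝ) := by
      rw [Nat.cast_natAbs, abs_of_pos S.a0]
    rw [Nat.cast_natAbs, abs_of_pos S.a0]
  set H : ℝ := ((HH q a U V : ℕ) : ℝ) with hH
  have hHU : (U : ℝ) ^ q ≤ H := by rw [hHcast]; exact le_max_left _ _
  have hHV : (a : ℝ) * (V : ℝ) ^ q ≤ H := by rw [hHcast]; exact le_max_right _ _
  have hHpos : 0 < H := lt_of_lt_of_le hUq hHU
  have hL := log_big hq1
  have hlarge := S.large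
  rw [← hH] at hlarge
  set L := Real.log (10 ^ 8 * (q : ℝ) ^ 9) with hLdef
  set h := Real.log H with hh
  have hκ3 : 0 < 3 / κ := by positivity
  have h1 : 150 * L ≤ κ * h := by
    have h2 : κ * (50 * (3 / κ + 1) * L) ≤ κ * h := mul_le_mul_of_nonneg_left hlarge hκ0.le
    have h3 : κ * (50 * (3 / κ + 1) * L) = 150 * L + 50 * (κ * L) := by
      field_simp
      ring
    have h4 : 0 ≤ κ * L := by positivity
    linarith
  have hh0 : 0 < h := by
    have : 0 < 50 * (3 / κ + 1) * L := by positivity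
    linarith
  have hη : Real.exp (-(κ * h)) ≤ 1 / 20 := by
    rw [Real.exp_neg, ← one_div]
    apply one_div_le_one_div_of_le (by norm_num)
    have := Real.add_one_le_exp (κ * h)
    linarith
  set η := Real.exp (-(κ * h)) with hηdef
  have hη0 : 0 < η := Real.exp_pos _
  have hT0 : (T : ℝ) ≠ 0 := by exact_mod_cast S.T0
  have hT : |(T : ℝ)| ≤ H * η := by
    have h2 := S.good
    rw [← hH, ← hh] at h2
    have h3 : |(T : ℝ)| = Real.exp (Real.log |(T : ℝ)|) := (Real.exp_log (abs_pos.2 hT0)).symm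
    have h4 : Real.exp ((1 - κ) * h) = H * η := by
      have : (1 - κ) * h = h + -(κ * h) := by ring
      rw [this, Real.exp_add, hh, Real.exp_log hHpos]
    rw [h3, ← h4]
    exact Real.exp_le_exp.2 h2
  have heq : (U : ℝ) ^ q - (a : ℝ) * (V : ℝ) ^ q = T := by exact_mod_cast S.eq
  have hH2 : H ≤ 2 * (U : ℝ) ^ q := by
    have h2 : H * η ≤ H * (1 / 20) := mul_le_mul_of_nonneg_left hη hHpos.le
    have h3 := neg_abs_le (T : ℝ)
    have h4 : H ≤ (U : ℝ) ^ q + |(T : ℝ)| := by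
      conv_lhs => rw [hHcast]
      apply max_le
      · linarith [abs_nonneg (T : ℝ)]
      · linarith
    linarith
  refine ⟨hh0, hη, ?_, ?_, ?_⟩
  · have h2 : (a : ℝ) * (V : ℝ) ^ q / (U : ℝ) ^ q - 1 = -(T : ℝ) / (U : ℝ) ^ q := by
      rw [← heq]
      field_simp
      ring
    rw [h2, abs_div, abs_neg, abs_of_pos hUq, div_le_iff₀ hUq]
    calc |(T : ℝ)| ≤ H * η := hT
      _ ≤ (2 * (U : ℝ) ^ q) * η := mul_le_mul_of_nonneg_right hH2 hη0.le
      _ = 2 * η * (U : ℝ) ^ q := by ring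
  · rw [← Real.log_pow]
    exact Real.log_le_log hUq hHU
  · rw [← Real.log_pow]
    apply Real.log_le_log hVq
    nlinarith

theorem count_le {m n : ℕ} (hn : 1 ≤ n) :
    Real.log (2 * ((m : ℝ) + 1) * ((n : ℝ) + 1)) ≤ (((m : ℝ) + 1) * n) * Real.log 4 := by
  have h1 : 2 * (m + 1) * (n + 1) ≤ 4 ^ ((m + 1) * n) := by
    set N := (m + 1) * n with hN
    have hN1 : 1 ≤ N := Nat.mul_pos (by omega) hn
    have h2 : (m + 1) * (n + 1) ≤ 2 * N := by
      rw [hN]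
      nlinarith
    have h3 : N ≤ 4 ^ (N - 1) := by
      have := Nat.lt_pow_self (n := N - 1) (show 1 < 4 by norm_num)
      omega
    have h4 : 4 ^ N = 4 * 4 ^ (N - 1) := by
      rw [← pow_succ']
      congr 1
      omega
    rw [h4]
    calc 2 * (m + 1) * (n + 1) = 2 * ((m + 1) * (n + 1)) := by ring
      _ ≤ 2 * (2 * N) := Nat.mul_le_mul_left _ h2
      _ = 4 * N := by ring
      _ ≤ 4 * 4 ^ (N - 1) := Nat.mul_le_mul_left _ h3
  have h5 : (2 * ((m : ℝ) + 1) * ((n : ℝ) + 1)) ≤ (4 : ℝ) ^ ((m + 1) * n) := by exact_mod_cast h1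
  have h6 := Real.log_le_log (by positivity) h5
  rw [Real.log_pow] at h6
  push_cast at h6
  exact h6

/-- the logarithms of the constants -/
theorem consts {q : ℕ} (hq1 : 1 ≤ q) :
    Real.log 4 + Real.log 8 + Real.log (15000 * (q : ℝ) ^ 9) + Real.log 18 ≤
      Real.log (10 ^ 8 * (q : ℝ) ^ 9) := by
  have hq : (0 : ℝ) < q := by exact_mod_cast hq1
  rw [← Real.log_mul (by norm_num) (by norm_num), ← Real.log_mul (by norm_num) (by positivity),
    ← Real.log_mul (by positivity) (by norm_num)]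
  apply Real.log_le_log (by positivity)
  have : 0 < (q : ℝ) ^ 9 := by positivity
  nlinarith

theorem core
    (hA3 : ∀ {m q n k : ℕ}, IsPrimePow q → m < q → k ≤ m → 1 ≤ n →
      ∃ c : ℕ → ℕ → ℤ, Form m q n k c)
    (hB : ∀ {m q n : ℕ}, 0 < q → ∀ (c : ℕ → ℕ → ℕ → ℤ), (∀ k ≤ m, Form m q n k (c k)) →
      ∀ {X Y : ℤ}, X ≠ 0 → X ≠ Y → ∀ (x : ℕ → ℤ), x 0 ≠ 0 →
        ∃ k ≤ m, val m n (c k) X Y x ≠ 0)
    (hR : ∀ {m q n k : ℕ} {c : ℕ → ℕ → ℤ}, Form m q n k c → m < q → 1 ≤ n →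
      ∀ {X Y u v : ℤ}, 0 < X → 0 < Y → 0 < u → 0 < v → ∀ {δ δ' Δ : ℝ},
      |(Y : ℝ) / X - 1| ≤ δ → |((Y : ℝ) * v ^ q) / (X * u ^ q) - 1| ≤ δ' →
      δ ≤ Δ → δ' ≤ Δ → Δ ≤ 1 / 10 →
      |((u : ℝ) / v) - 1| ≤ 3 * Δ / q ∧
      |((val m n c X Y (fun j => u ^ j * v ^ (m - j)) : ℤ) : ℝ)| ≤
        2 * (m + 1) * (n + 1) * 8 ^ n * (cst m q : ℝ) ^ n * (X : ℝ) ^ n * (v : ℝ) ^ m *
          max ((9 * Δ) ^ ((m + 1) * n)) δ')
    (hAR : ∀ {κ h h' : ℝ} {m q : ℕ}, 0 < κ → κ ≤ 1 → 3 / κ ≤ m + 1 →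
      (m : ℝ) ≤ 3 / κ → 100 / κ ^ 2 ≤ q → 0 < h → h ≤ h' →
      κ * h ≤ κ * h / 100 + (h + h') / q →
      (∀ n : ℕ, 1 ≤ n → min (κ * ((m + 1) * n) * h) (κ * h') ≤
        n * (1 + 1 / 50) * h + (m / q) * (h + h')) → False)
    {κ : ℝ} {q U V U' V' : ℕ} {a T T' : ℤ} (hκ0 : 0 < κ) (hκ1 : κ ≤ 1)
    (hq : IsPrimePow q) (hqκ : 100 / κ ^ 2 ≤ q)
    (S : SolR κ q a U V T) (S' : SolR κ q a U' V' T')
    (hHH : HH q a U V ≤ HH q a U' V') : U = U' ∧ V = V' := by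
  by_contra hne
  have hne' : U ≠ U' ∨ V ≠ V' := by
    by_contra hc
    apply hne
    constructor
    · by_contra h1; exact hc (Or.inl h1)
    · by_contra h1; exact hc (Or.inr h1)
  have hcross := cross_ne S.U0 S.UV S'.UV hne'
  have hq1 : 1 ≤ q := hq.pos
  have hqR : (0 : ℝ) < q := by exact_mod_cast hq1
  have hκ2 : κ ^ 2 ≤ κ := by nlinarith
  have hqκ1 : 100 ≤ κ ^ 2 * q := by
    rw [div_le_iff₀ (by positivity)] at hqκ
    linarith
  have hqκ' : 100 ≤ κ * q := by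
    have := mul_le_mul_of_nonneg_right hκ2 hqR.le
    linarith
  have hq100 : (100 : ℝ) ≤ q := by
    have : κ * q ≤ 1 * q := mul_le_mul_of_nonneg_right hκ1 hqR.le
    linarith
  obtain ⟨hh0, hη, hrat, hlU, hlV⟩ := sol_facts hκ0 hq1 S
  obtain ⟨hh0', hη', hrat', hlU', hlV'⟩ := sol_facts hκ0 hq1 S'
  have hHpos : (0 : ℝ) < (HH q a U V : ℕ) := by
    have : 0 < HH q a U V := lt_of_lt_of_le (pow_pos S.U0 q) (le_max_left _ _)
    exact_mod_cast this
  have hhh : Real.log (HH q a U V) ≤ Real.log (HH q a U' V') :=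
    Real.log_le_log hHpos (by exact_mod_cast hHH)
  have hlarge := S.large
  set h := Real.log (HH q a U V) with hh
  set h' := Real.log (HH q a U' V') with hh'
  set η := Real.exp (-(κ * h)) with hηdef
  set η' := Real.exp (-(κ * h')) with hηdef'
  have hη0 : 0 < η := Real.exp_pos _
  have hη0' : 0 < η' := Real.exp_pos _
  have hηη : η' ≤ η := by
    apply Real.exp_le_exp.2
    have := mul_le_mul_of_nonneg_left hhh hκ0.le
    linarith
  have hU : (0 : ℝ) < U := by exact_mod_cast S.U0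
  have hV : (0 : ℝ) < V := by exact_mod_cast S.V0
  have hU' : (0 : ℝ) < U' := by exact_mod_cast S'.U0
  have hV' : (0 : ℝ) < V' := by exact_mod_cast S'.V0
  have hUq : (0 : ℝ) < (U : ℝ) ^ q := by positivity
  have ha : (0 : ℝ) < a := by exact_mod_cast S.a0
  -- the integers
  set X : ℤ := (U : ℤ) ^ q with hX
  set Y : ℤ := a * (V : ℤ) ^ q with hY
  set u : ℤ := (U' : ℤ) * V with hu
  set v : ℤ := (U : ℤ) * V' with hv
  have hX0 : 0 < X := by
    have : (0 : ℤ) < U := by exact_mod_cast S.U0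
    positivity
  have hY0 : 0 < Y := by
    have h1 : (0 : ℤ) < V := by exact_mod_cast S.V0
    have h2 := S.a0
    positivity
  have hu0 : 0 < u := by
    have h1 : (0 : ℤ) < V := by exact_mod_cast S.V0
    have h2 : (0 : ℤ) < U' := by exact_mod_cast S'.U0
    positivity
  have hv0 : 0 < v := by
    have h1 : (0 : ℤ) < U := by exact_mod_cast S.U0
    have h2 : (0 : ℤ) < V' := by exact_mod_cast S'.V0
    positivity
  have hXR : (X : ℝ) = (U : ℝ) ^ q := by rw [hX]; push_cast; rfl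
  have hYR : (Y : ℝ) = (a : ℝ) * (V : ℝ) ^ q := by rw [hY]; push_cast; rfl
  have huR : (u : ℝ) = (U' : ℝ) * V := by rw [hu]; push_cast; rfl
  have hvR : (v : ℝ) = (U : ℝ) * V' := by rw [hv]; push_cast; rfl
  have r1 : |(Y : ℝ) / X - 1| ≤ 2 * η := by rw [hYR, hXR]; exact hrat
  have r2 : |((Y : ℝ) * v ^ q) / (X * u ^ q) - 1| ≤ 2 * η' := by
    have e1 : ((Y : ℝ) * v ^ q) / (X * u ^ q) = ((a : ℝ) * (V' : ℝ) ^ q) / (U' : ℝ) ^ q := by
      rw [hYR, hXR, huR, hvR, mul_pow, mul_pow]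
      field_simp
    rw [e1]
    exact hrat'
  have hΔ : 2 * η ≤ 1 / 10 := by linarith
  have hδ' : 2 * η' ≤ 2 * η := by linarith
  -- the number m
  set m : ℕ := ⌊3 / κ⌋₊ with hm
  have hκ3 : 0 < 3 / κ := by positivity
  have hm1 : (m : ℝ) ≤ 3 / κ := Nat.floor_le hκ3.le
  have hm2 : 3 / κ ≤ m + 1 := (Nat.lt_floor_add_one _).le
  have hmq : m < q := by
    have h1 : 3 / κ < q := by
      rw [div_lt_iff₀ hκ0]
      linarith
    exact_mod_cast lt_of_le_of_lt hm1 h1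
  have hlogv : Real.log v ≤ (h + h') / q := by
    rw [hvR, Real.log_mul hU.ne' hV'.ne', le_div_iff₀ hqR]
    linarith
  have hlogv0 : 0 ≤ Real.log v := by
    apply Real.log_nonneg
    exact_mod_cast hv0
  have hvpos : (0 : ℝ) < v := by exact_mod_cast hv0
  -- the gap
  have hgap : κ * h ≤ κ * h / 100 + (h + h') / q := by
    obtain ⟨c, hc⟩ := hA3 (n := 1) hq hmq (Nat.zero_le m) le_rfl
    have h1 := (hR hc hmq le_rfl hX0 hY0 hu0 hv0 r1 r2 le_rfl hδ' hΔ).1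
    have hne2 : u - v ≠ 0 := by
      intro h2
      apply hcross
      have h3 : (U : ℤ) * V' = (U' : ℤ) * V := by
        rw [hu, hv] at h2
        linarith
      exact_mod_cast h3
    have h2 : (1 : ℝ) ≤ |(u : ℝ) - v| := by
      have : (1 : ℤ) ≤ |u - v| := Int.one_le_abs hne2
      have h3 : ((1 : ℤ) : ℝ) ≤ ((|u - v| : ℤ) : ℝ) := by exact_mod_cast this
      rw [Int.cast_abs, Int.cast_sub, Int.cast_one] at h3
      exact h3
    have h3 : (u : ℝ) / v - 1 = ((u : ℝ) - v) / v := by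
      field_simp
    rw [h3, abs_div, abs_of_pos hvpos, div_le_div_iff₀ hvpos hqR] at h1
    have h4 : (q : ℝ) ≤ 6 * η * v := by
      have : 1 * (q : ℝ) ≤ |(u : ℝ) - v| * q := mul_le_mul_of_nonneg_right h2 hqR.le
      linarith
    have h5 : 1 ≤ η * v := by linarith
    have h6 : 0 ≤ Real.log (η * v) := Real.log_nonneg h5
    rw [Real.log_mul hη0.ne' hvpos.ne', hηdef, Real.log_exp] at h6
    have h7 : 0 ≤ κ * h / 100 := by positivity
    linarith
  refine hAR hκ0 hκ1 hm2 hm1 hqκ hh0 hhh hgap ?_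
  intro n hn
  have hn1 : (1 : ℝ) ≤ n := by exact_mod_cast hn
  have hm0 : (0 : ℝ) ≤ m := Nat.cast_nonneg m
  -- a form with non-zero value
  have hex : ∀ k : ℕ, ∃ c : ℕ → ℕ → ℤ, k ≤ m → Form m q n k c := by
    intro k
    by_cases hk : k ≤ m
    · obtain ⟨c, hc⟩ := hA3 (n := n) hq hmq hk hn
      exact ⟨c, fun _ => hc⟩
    · exact ⟨fun _ _ => 0, fun h1 => absurd h1 hk⟩
  choose c hc using hex
  have hXY : X ≠ Y := by
    intro h1
    apply S.T0
    rw [← S.eq, ← hX, ← hY, h1, sub_self]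
  obtain ⟨k, hk, hval⟩ := hB hq1 c hc hX0.ne' hXY (fun j => u ^ j * v ^ (m - j)) (by
    simp only [pow_zero, one_mul]
    exact pow_ne_zero _ hv0.ne')
  have hR2 := (hR (hc k hk) hmq hn hX0 hY0 hu0 hv0 r1 r2 le_rfl hδ' hΔ).2
  have hval1 : (1 : ℝ) ≤
      |((val m n (c k) X Y (fun j => u ^ j * v ^ (m - j)) : ℤ) : ℝ)| := by
    have h1 : (1 : ℤ) ≤ |val m n (c k) X Y (fun j => u ^ j * v ^ (m - j))| :=
      Int.one_le_abs hval
    rw [← Int.cast_abs]
    exact_mod_cast h1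
  have hA := hval1.trans hR2
  have hcst : (cst m q : ℝ) = (15000 * (q : ℝ) ^ 9) ^ (m + 1) := by
    unfold cst
    push_cast
    rfl
  have hcst0 : (0 : ℝ) < cst m q := by rw [hcst]; positivity
  have hXpos : (0 : ℝ) < X := by exact_mod_cast hX0
  set B : ℝ := 2 * (m + 1) * (n + 1) * 8 ^ n * (cst m q : ℝ) ^ n * (X : ℝ) ^ n * (v : ℝ) ^ m
    with hBdef
  have hB0 : 0 < B := by positivity
  have hlogB : Real.log B = Real.log (2 * ((m : ℝ) + 1) * ((n : ℝ) + 1)) + n * Real.log 8 +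
      n * ((m + 1) * Real.log (15000 * (q : ℝ) ^ 9)) + n * Real.log X + m * Real.log v := by
    rw [hBdef, Real.log_mul (by positivity) (by positivity), Real.log_mul (by positivity)
      (by positivity), Real.log_mul (by positivity) (by positivity), Real.log_mul (by positivity)
      (by positivity), Real.log_pow, Real.log_pow, Real.log_pow, Real.log_pow, hcst, Real.log_pow]
    push_cast
    ring
  have hlogX : Real.log X ≤ h := by
    rw [hXR, Real.log_pow]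
    exact hlU
  have hmlogv : (m : ℝ) * Real.log v ≤ (m / q) * (h + h') := by
    have : (m : ℝ) * Real.log v ≤ m * ((h + h') / q) := mul_le_mul_of_nonneg_left hlogv hm0
    calc (m : ℝ) * Real.log v ≤ m * ((h + h') / q) := this
      _ = (m / q) * (h + h') := by ring
  have hcount := count_le (m := m) hn
  have hconsts := consts hq1
  set L := Real.log (10 ^ 8 * (q : ℝ) ^ 9) with hL
  have hL1 : 1 ≤ L := log_big hq1
  set N : ℝ := ((m : ℝ) + 1) * n with hN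
  have hN0 : 0 < N := by positivity
  have hN1 : (1 : ℝ) ≤ N := one_le_mul_of_one_le_of_one_le (by linarith) hn1
  have hlog18 : 0 ≤ Real.log 18 := Real.log_nonneg (by norm_num)
  have hlog8 : 0 ≤ Real.log 8 := Real.log_nonneg (by norm_num)
  have hnN : (n : ℝ) ≤ N := le_mul_of_one_le_left (by linarith) (by linarith)
  -- the upper bound of the logarithm of B
  have hBup : Real.log B ≤ N * L - N * Real.log 18 + n * h + (m / q) * (h + h') := by
    rw [hlogB]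
    have h1 : (n : ℝ) * Real.log 8 ≤ N * Real.log 8 := mul_le_mul_of_nonneg_right hnN hlog8
    have h2 : (n : ℝ) * ((m + 1) * Real.log (15000 * (q : ℝ) ^ 9)) =
        N * Real.log (15000 * (q : ℝ) ^ 9) := by
      rw [hN]
      ring
    have h3 : (n : ℝ) * Real.log X ≤ n * h := mul_le_mul_of_nonneg_left hlogX (by linarith)
    have h4 := mul_le_mul_of_nonneg_left hconsts hN0.le
    have h5 : N * (Real.log 4 + Real.log 8 + Real.log (15000 * (q : ℝ) ^ 9) + Real.log 18) =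
        N * Real.log 4 + N * Real.log 8 + N * Real.log (15000 * (q : ℝ) ^ 9) +
          N * Real.log 18 := by ring
    rw [h5] at h4
    rw [h2]
    linarith
  -- N L is small
  have hNL : N * L ≤ n * h / 50 := by
    have h1 : (m : ℝ) + 1 ≤ 3 / κ + 1 := by linarith
    have h2 : (m + 1 : ℝ) * L ≤ (3 / κ + 1) * L := mul_le_mul_of_nonneg_right h1 (by linarith)
    have h3 : (m + 1 : ℝ) * L ≤ h / 50 := by
      rw [le_div_iff₀ (by norm_num)]
      calc (m + 1 : ℝ) * L * 50 ≤ (3 / κ + 1) * L * 50 :=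
            mul_le_mul_of_nonneg_right h2 (by norm_num)
        _ = 50 * (3 / κ + 1) * L := by ring
        _ ≤ h := hlarge
    calc N * L = n * ((m + 1 : ℝ) * L) := by rw [hN]; ring
      _ ≤ n * (h / 50) := mul_le_mul_of_nonneg_left h3 (by linarith)
      _ = n * h / 50 := by ring
  have hfin : ∀ μ : ℝ, μ ≤ Real.log B + N * Real.log 18 →
      μ ≤ n * (1 + 1 / 50) * h + (m / q) * (h + h') := by
    intro μ hμ
    have : (n : ℝ) * (1 + 1 / 50) * h = n * h + n * h / 50 := by ring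
    rw [this]
    linarith
  rcases le_total (2 * η') ((9 * (2 * η)) ^ ((m + 1) * n)) with hmax | hmax
  · rw [max_eq_left hmax] at hA
    have h1 : 0 ≤ Real.log (B * (9 * (2 * η)) ^ ((m + 1) * n)) := Real.log_nonneg hA
    rw [Real.log_mul hB0.ne' (by positivity), Real.log_pow] at h1
    have h2 : Real.log (9 * (2 * η)) = Real.log 18 - κ * h := by
      have : 9 * (2 * η) = 18 * η := by ring
      rw [this, Real.log_mul (by norm_num) hη0.ne', hηdef, Real.log_exp]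
      ring
    rw [h2] at h1
    have h3 : (((m + 1) * n : ℕ) : ℝ) = N := by
      rw [hN]
      push_cast
      ring
    rw [h3] at h1
    apply hfin
    refine (min_le_left _ _).trans ?_
    have h4 : κ * N * h = N * (κ * h) := by ring
    have h5 : κ * (((m : ℝ) + 1) * n) * h = κ * N * h := by rw [hN]
    rw [h5, h4]
    have h6 : N * (Real.log 18 - κ * h) = N * Real.log 18 - N * (κ * h) := by ring
    rw [h6] at h1
    linarith
  · rw [max_eq_right hmax] at hA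
    have h1 : 0 ≤ Real.log (B * (2 * η')) := Real.log_nonneg hA
    rw [Real.log_mul hB0.ne' (by positivity), Real.log_mul (by norm_num) hη0'.ne', hηdef',
      Real.log_exp] at h1
    apply hfin
    refine (min_le_right _ _).trans ?_
    have h2 : Real.log 2 ≤ Real.log 18 := Real.log_le_log (by norm_num) (by norm_num)
    have h3 : 1 * Real.log 18 ≤ N * Real.log 18 := mul_le_mul_of_nonneg_right hN1 hlog18
    linarith

/-- The version with all hypotheses. -/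
theorem unique_r_of
    (hA3 : ∀ {m q n k : ℕ}, IsPrimePow q → m < q → k ≤ m → 1 ≤ n →
      ∃ c : ℕ → ℕ → ℤ, Form m q n k c)
    (hB : ∀ {m q n : ℕ}, 0 < q → ∀ (c : ℕ → ℕ → ℕ → ℤ), (∀ k ≤ m, Form m q n k (c k)) →
      ∀ {X Y : ℤ}, X ≠ 0 → X ≠ Y → ∀ (x : ℕ → ℤ), x 0 ≠ 0 →
        ∃ k ≤ m, val m n (c k) X Y x ≠ 0)
    (hR : ∀ {m q n k : ℕ} {c : ℕ → ℕ → ℤ}, Form m q n k c → m < q → 1 ≤ n →
      ∀ {X Y u v : ℤ}, 0 < X → 0 < Y → 0 < u → 0 < v → ∀ {δ δ' Δ : ℝ},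
      |(Y : ℝ) / X - 1| ≤ δ → |((Y : ℝ) * v ^ q) / (X * u ^ q) - 1| ≤ δ' →
      δ ≤ Δ → δ' ≤ Δ → Δ ≤ 1 / 10 →
      |((u : ℝ) / v) - 1| ≤ 3 * Δ / q ∧
      |((val m n c X Y (fun j => u ^ j * v ^ (m - j)) : ℤ) : ℝ)| ≤
        2 * (m + 1) * (n + 1) * 8 ^ n * (cst m q : ℝ) ^ n * (X : ℝ) ^ n * (v : ℝ) ^ m *
          max ((9 * Δ) ^ ((m + 1) * n)) δ')
    (hAR : ∀ {κ h h' : ℝ} {m q : ℕ}, 0 < κ → κ ≤ 1 → 3 / κ ≤ m + 1 →
      (m : ℝ) ≤ 3 / κ → 100 / κ ^ 2 ≤ q → 0 < h → h ≤ h' →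
      κ * h ≤ κ * h / 100 + (h + h') / q →
      (∀ n : ℕ, 1 ≤ n → min (κ * ((m + 1) * n) * h) (κ * h') ≤
        n * (1 + 1 / 50) * h + (m / q) * (h + h')) → False)
    {κ : ℝ} {q U V U' V' : ℕ} {a T T' : ℤ} (hκ0 : 0 < κ) (hκ1 : κ ≤ 1)
    (hq : IsPrimePow q) (hqκ : 100 / κ ^ 2 ≤ q)
    (S : SolR κ q a U V T) (S' : SolR κ q a U' V' T') : U = U' ∧ V = V' := by
  rcases le_total (HH q a U V) (HH q a U' V') with h | h
  · exact core hA3 hB hR hAR hκ0 hκ1 hq hqκ S S' h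
  · obtain ⟨h1, h2⟩ := core hA3 hB hR hAR hκ0 hκ1 hq hqκ S' S h
    exact ⟨h1.symm, h2.symm⟩

/-- Task UR (uniqueness, real; consequence of A3, B, R, AR). -/
theorem unique_r
    (hA3 : ∀ {m q n k : ℕ}, IsPrimePow q → m < q → k ≤ m → 1 ≤ n →
      ∃ c : ℕ → ℕ → ℤ, Form m q n k c)
    {κ : ℝ} {q U V U' V' : ℕ} {a T T' : ℤ} (hκ0 : 0 < κ) (hκ1 : κ ≤ 1)
    (hq : IsPrimePow q) (hqκ : 100 / κ ^ 2 ≤ q)
    (S : SolR κ q a U V T) (S' : SolR κ q a U' V' T') : U = U' ∧ V = V' :=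
  unique_r_of hA3
    (fun h1 c h2 _ _ h3 h4 x h5 => Pool.Agent.H374R2.W.B.exists_ne h1 c h2 h3 h4 x h5)
    (fun h1 h2 h3 _ _ _ _ h4 h5 h6 h7 _ _ _ h8 h9 h10 h11 h12 =>
      Pool.Agent.H374R2.W.R.val_real h1 h2 h3 h4 h5 h6 h7 h8 h9 h10 h11 h12)
    (fun h1 h2 h3 h4 h5 h6 h7 h8 h9 => Pool.Agent.H374R2.W.AR.arith h1 h2 h3 h4 h5 h6 h7 h8 h9)
    hκ0 hκ1 hq hqκ S S'

end Pool.Agent.H374R2.W.UR
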