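import Mathlib
import Pool.Agent.H374R2.W.Defs
import Pool.Agent.H374R2.W.A3
import Pool.Agent.H374R2.W.UP
import Pool.Agent.H374R2.W.UR
import Pool.Agent.H374R2.W.CP
import Pool.Agent.H374R2.W.CR
import Pool.Agent.H374R2.W.DN
import Pool.Agent.H374R2.W.EQ
import Pool.Agent.H374R2.W.QL
import Pool.Agent.H374R2.W.QM
import Pool.Agent.H374R2.W.QB
import Pool.Agent.H374R2.W.QN

/-!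
The finished tasks, put together.
-/

namespace Pool.Agent.H374R2.W

open Finset Polynomial
open Pool.Agent.H374R2.V (HH)

theorem exists_form {m q n k : ℕ} (hq : IsPrimePow q) (hmq : m < q) (hk : k ≤ m) (hn : 1 ≤ n) :
    ∃ c : ℕ → ℕ → ℤ, Form m q n k c :=
  A3.exists_form hq hmq hk hn

theorem unique_p {κ : ℝ} {q p U V U' V' : ℕ} {a T T' : ℤ} (hκ0 : 0 < κ) (hκ1 : κ ≤ 1)
    (hq : IsPrimePow q) (hqκ : 100 / κ ^ 2 ≤ q) (hp : p.Prime) (hpq : ¬ p ∣ q)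
    (S : SolP κ q p a U V T) (S' : SolP κ q p a U' V' T') (hroot : U * V' ≡ U' * V [MOD p]) :
    U = U' ∧ V = V' :=
  UP.unique_p (fun h1 h2 h3 h4 => exists_form h1 h2 h3 h4) hκ0 hκ1 hq hqκ hp hpq S S' hroot

theorem unique_r {κ : ℝ} {q U V U' V' : ℕ} {a T T' : ℤ} (hκ0 : 0 < κ) (hκ1 : κ ≤ 1)
    (hq : IsPrimePow q) (hqκ : 100 / κ ^ 2 ≤ q)
    (S : SolR κ q a U V T) (S' : SolR κ q a U' V' T') : U = U' ∧ V = V' :=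
  UR.unique_r (fun h1 h2 h3 h4 => exists_form h1 h2 h3 h4) hκ0 hκ1 hq hqκ S S'

theorem setP_card {κ : ℝ} {N q i p A : ℕ} {s σ : ℤ} (hκ0 : 0 < κ) (hκ1 : κ ≤ 1)
    (hq : IsPrimePow q) (hqκ : 100 / κ ^ 2 ≤ q) (hp : p.Prime) (hpq : ¬ p ∣ q) (hA : 0 < A)
    (hs : s = 1 ∨ s = -1) (hσ : σ = 1 ∨ σ = -1) :
    (SetP κ N q i p A s σ).Finite ∧ (SetP κ N q i p A s σ).ncard ≤ q :=
  CP.setP_card (fun h1 h2 h3 h4 h5 h6 h7 h8 h9 => unique_p h1 h2 h3 h4 h5 h6 h7 h8 h9)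
    hκ0 hκ1 hq hqκ hp hpq hA hs hσ

theorem setR_card {κ : ℝ} {N q i A : ℕ} {σ : ℤ} (hκ0 : 0 < κ) (hκ1 : κ ≤ 1)
    (hq : IsPrimePow q) (hqκ : 100 / κ ^ 2 ≤ q) (hA : 0 < A) (hσ : σ = 1 ∨ σ = -1) :
    (SetR κ N q i A σ).Finite ∧ (SetR κ N q i A σ).ncard ≤ 1 :=
  CR.setR_card (fun h1 h2 h3 h4 h5 h6 => unique_r h1 h2 h3 h4 h5 h6) hκ0 hκ1 hq hqκ hA hσ

theorem prime_between {ε θ : ℝ} (hε : 0 < ε) (hθ : 0 < θ) (hθ1 : θ ≤ 1) :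
    ∃ κ : ℝ, 0 < κ ∧ κ < θ ∧ ∃ N₀ : ℕ, ∀ N : ℕ, N₀ ≤ N →
      (({B : ℕ | 0 < B ∧ B ≤ N ∧ ∀ p : ℕ, p.Prime → (N : ℝ) ^ κ < p → (p : ℝ) ≤ (N : ℝ) ^ θ →
        ¬ p ∣ B}.ncard : ℕ) : ℝ) ≤ ε * N :=
  DN.prime_between hε hθ hθ1

theorem exists_q {q₀ z C : ℕ} (hq₀ : 2 ≤ q₀) (hz : q₀ ^ q₀ ≤ z) (hC : 0 < C) :
    ∃ q U : ℕ, IsPrimePow q ∧ q₀ ≤ q ∧ 0 < U ∧ U ^ q = C ^ z ∧
      (q ≤ q₀ ^ 2 ∨ q ≤ 2 ^ q₀ ∨ (q.Prime ∧ 2 ≤ U)) :=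
  EQ.exists_q hq₀ hz hC

theorem real_two_logs {A U q x : ℕ} (hA : 2 ≤ A) (hU : 2 ≤ U) (hq : q.Prime)
    (hqx : ¬ q ∣ x) (hx : 0 < x) (h : |(U : ℝ) ^ q - (A : ℝ) ^ x| ≤ (A : ℝ) ^ ((x : ℝ) / 2)) :
    q ≤ 10 ^ 9 * (Nat.log 2 A + 1) * (Nat.log 2 q + 1) ^ 2 :=
  QM.real_two_logs
    (fun h1 h2 h3 h4 h5 h6 h7 h8 h9 h10 h11 h12 h13 h14 =>
      QL.lfl h1 h2 h3 h4 h5 h6 h7 h8 h9 h10 h11 h12 h13 h14) hA hU hq hqx hx h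

theorem q_bound {N P A B q x y U p : ℕ} {s σ : ℤ} (hs : s = 1 ∨ s = -1) (hσ : σ = 1 ∨ σ = -1)
    (hq : q.Prime) (hq3 : 3 ≤ q) (hA : 0 < A) (hAN : A ≤ N)
    (hAB : Nat.Coprime A B) (hB0 : 0 < B) (hBN : B ≤ N) (hx : 0 < x) (hx1 : A = 1 → q ∣ x)
    (hy : 0 < y) (hU : 2 ≤ U) (hp : p.Prime) (hp3 : 3 ≤ p) (hpP : p ≤ P) (hpB : p ∣ B)
    (heq : (U : ℤ) ^ q - s * (A : ℤ) ^ x = σ * (B : ℤ) ^ y) :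
    q ≤ 10 ^ 9 * P ^ 2 * (Nat.log 2 q + 1) ^ 2 * (Nat.log 2 N + 1) ^ 2 :=
  QB.q_bound (fun h1 h2 h3 h4 h5 h6 => real_two_logs h1 h2 h3 h4 h5 h6) hs hσ hq hq3 hA hAN hAB
    hB0 hBN hx hx1 hy hU hp hp3 hpP hpB heq

theorem q_num (P : ℕ) : ∃ ν₀ : ℕ, ∀ ν q : ℕ, ν₀ ≤ ν →
    q ≤ 10 ^ 9 * P ^ 2 * (Nat.log 2 q + 1) ^ 2 * ν ^ 2 → q ≤ ν ^ 4 :=
  QN.q_num P

end Pool.Agent.H374R2.W
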