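import Mathlib
import Pool.Agent.H374R2.GcE
import Pool.Agent.H374R2.T.TaskD2
import Pool.Agent.H374R2.V.Final
import Pool.Agent.H374R2.W.Glue

/-!
Assembly of Theorem W.
-/

namespace Pool.Agent.H374R2.W

open Finset Filter Topology

/-- Typical integers. -/
structure Typ (N P₀ : ℕ) (κ θ : ℝ) (B : ℕ) : Prop where
  mid : ∃ p : ℕ, p.Prime ∧ (N : ℝ) ^ κ < p ∧ (p : ℝ) ≤ (N : ℝ) ^ θ ∧ p ∣ B
  three : ∃ p, p ≤ P₀ ∧ p.Prime ∧ p % 4 = 3 ∧ p ∣ B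
  np : ¬ ∃ w k : ℕ, 2 ≤ k ∧ B = w ^ k
  big : N ≤ B ^ 2

/-- The integers `B` in a solution of the `p`-adic kind. -/
def BadP (κ : ℝ) (N q₀ Q R P : ℕ) : Set ℕ :=
  {B | ∃ (A q i p : ℕ) (s σ : ℤ), 0 < A ∧ A ≤ R ∧ IsPrimePow q ∧ q₀ ≤ q ∧ q ≤ Q ∧ i < q ∧
    (s = 1 ∨ s = -1) ∧ (σ = 1 ∨ σ = -1) ∧ p.Prime ∧ p ≤ P ∧ Q < p ∧ B ∈ SetP κ N q i p A s σ}

/-- The integers `B` in a solution of the real kind. -/
def BadR (κ : ℝ) (N q₀ Q R : ℕ) : Set ℕ :=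
  {B | ∃ (A q i : ℕ) (σ : ℤ), 0 < A ∧ A ≤ R ∧ IsPrimePow q ∧ q₀ ≤ q ∧ q ≤ Q ∧ i < q ∧
    (σ = 1 ∨ σ = -1) ∧ B ∈ SetR κ N q i A σ}

theorem badP_card {κ : ℝ} {N q₀ Q R P : ℕ} (hκ0 : 0 < κ) (hκ1 : κ ≤ 1)
    (hq₀ : 100 / κ ^ 2 ≤ (q₀ : ℝ)) :
    (BadP κ N q₀ Q R P).Finite ∧
      (BadP κ N q₀ Q R P).ncard ≤ (R * ((Q + 1) * ((Q + 1) * (P * 4)))) * Q := by
  classical
  set J : Finset (ℕ × ℕ × ℕ × ℕ × ℤ × ℤ) := (Finset.Icc 1 R ×ˢ Finset.range (Q + 1) ×ˢ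
    Finset.range (Q + 1) ×ˢ Finset.Icc 1 P ×ˢ ({1, -1} : Finset ℤ) ×ˢ
      ({1, -1} : Finset ℤ)).filter (fun j => IsPrimePow j.2.1 ∧ q₀ ≤ j.2.1 ∧
      j.2.2.2.1.Prime ∧ Q < j.2.2.2.1) with hJ
  have hJc : J.card ≤ R * ((Q + 1) * ((Q + 1) * (P * 4))) := by
    refine (Finset.card_filter_le _ _).trans (le_of_eq ?_)
    rw [Finset.card_product, Finset.card_product, Finset.card_product, Finset.card_product,
      Finset.card_product, Finset.card_range, Nat.card_Icc, Nat.card_Icc, Nat.add_sub_cancel,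
      Nat.add_sub_cancel]
    congr 1
  have h := V.ncard_le_of_cover (K := Q) J
    (fun j => SetP κ N j.2.1 j.2.2.1 j.2.2.2.1 j.1 j.2.2.2.2.1 j.2.2.2.2.2) (by
      rintro ⟨A, q, i, p, s, σ⟩ hj
      rw [hJ, Finset.mem_filter] at hj
      obtain ⟨hj1, hq, hqq, hp, hQp⟩ := hj
      simp only [Finset.mem_product, Finset.mem_range, Finset.mem_Icc, Finset.mem_insert,
        Finset.mem_singleton] at hj1
      simp only at hq hqq hp hQp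
      obtain ⟨⟨hA0, hAR⟩, hqQ', hi, ⟨hp0, hpP⟩, hs, hσ⟩ := hj1
      have hqQ : q ≤ Q := by omega
      have hq0 : 0 < q := hq.pos
      have hpq : ¬ p ∣ q := by
        intro h
        have := Nat.le_of_dvd hq0 h
        omega
      have hqR : 100 / κ ^ 2 ≤ (q : ℝ) := hq₀.trans (by exact_mod_cast hqq)
      have h1 := setP_card (N := N) (i := i) (A := A) hκ0 hκ1 hq hqR hp hpq (by omega) hs hσ
      exact ⟨h1.1, h1.2.trans hqQ⟩)
    (BadP κ N q₀ Q R P) (by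
      rintro B ⟨A, q, i, p, s, σ, hA0, hAR, hq, hqq, hqQ, hiq, hs, hσ, hp, hpP, hQp, hsol⟩
      refine ⟨(A, q, i, p, s, σ), ?_, hsol⟩
      rw [hJ, Finset.mem_filter]
      refine ⟨?_, hq, hqq, hp, hQp⟩
      simp only [Finset.mem_product, Finset.mem_range, Finset.mem_Icc, Finset.mem_insert,
        Finset.mem_singleton]
      exact ⟨⟨hA0, hAR⟩, by omega, by omega, ⟨hp.one_lt.le, hpP⟩, hs, hσ⟩)
  exact ⟨h.1, h.2.trans (Nat.mul_le_mul_right _ hJc)⟩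

theorem badR_card {κ : ℝ} {N q₀ Q R : ℕ} (hκ0 : 0 < κ) (hκ1 : κ ≤ 1)
    (hq₀ : 100 / κ ^ 2 ≤ (q₀ : ℝ)) :
    (BadR κ N q₀ Q R).Finite ∧
      (BadR κ N q₀ Q R).ncard ≤ (R * ((Q + 1) * ((Q + 1) * 2))) * 1 := by
  classical
  set J : Finset (ℕ × ℕ × ℕ × ℤ) := (Finset.Icc 1 R ×ˢ Finset.range (Q + 1) ×ˢ
    Finset.range (Q + 1) ×ˢ ({1, -1} : Finset ℤ)).filter
      (fun j => IsPrimePow j.2.1 ∧ q₀ ≤ j.2.1) with hJ
  have hJc : J.card ≤ R * ((Q + 1) * ((Q + 1) * 2)) := by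
    refine (Finset.card_filter_le _ _).trans (le_of_eq ?_)
    rw [Finset.card_product, Finset.card_product, Finset.card_product,
      Finset.card_range, Nat.card_Icc, Nat.add_sub_cancel]
    congr 1
  have h := V.ncard_le_of_cover (K := 1) J
    (fun j => SetR κ N j.2.1 j.2.2.1 j.1 j.2.2.2) (by
      rintro ⟨A, q, i, σ⟩ hj
      rw [hJ, Finset.mem_filter] at hj
      obtain ⟨hj1, hq, hqq⟩ := hj
      simp only [Finset.mem_product, Finset.mem_range, Finset.mem_Icc, Finset.mem_insert,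
        Finset.mem_singleton] at hj1
      simp only at hq hqq
      obtain ⟨⟨hA0, hAR⟩, hqQ', hi, hσ⟩ := hj1
      have hqR : 100 / κ ^ 2 ≤ (q : ℝ) := hq₀.trans (by exact_mod_cast hqq)
      exact setR_card (N := N) (i := i) (A := A) hκ0 hκ1 hq hqR (by omega) hσ)
    (BadR κ N q₀ Q R) (by
      rintro B ⟨A, q, i, σ, hA0, hAR, hq, hqq, hqQ, hiq, hσ, hsol⟩
      refine ⟨(A, q, i, σ), ?_, hsol⟩
      rw [hJ, Finset.mem_filter]
      refine ⟨?_, hq, hqq⟩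
      simp only [Finset.mem_product, Finset.mem_range, Finset.mem_Icc, Finset.mem_insert,
        Finset.mem_singleton]
      exact ⟨⟨hA0, hAR⟩, by omega, by omega, hσ⟩)
  exact ⟨h.1, h.2.trans (Nat.mul_le_mul_right _ hJc)⟩

/-- Solutions with typical `B` are in `BadP` or in `BadR`. -/
theorem mem_bad {N P₀ P Q R q₀ A B x y z C : ℕ} {κ₁ θ : ℝ} (hκ0 : 0 < κ₁) (hκ1 : κ₁ ≤ 1)
    (hq₀ : 3 ≤ q₀) (hN1 : 1 ≤ N)
    (hQ : ∀ q : ℕ, q ≤ 10 ^ 9 * P₀ ^ 2 * (Nat.log 2 q + 1) ^ 2 * (Nat.log 2 N + 1) ^ 2 → q ≤ Q)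
    (hQ1 : q₀ ^ 2 ≤ Q) (hQ2 : 2 ^ q₀ ≤ Q) (hRN : R ≤ N)
    (hP : ∀ p : ℕ, (p : ℝ) ≤ (N : ℝ) ^ θ → p ≤ P) (hQκ : (Q : ℝ) ≤ (N : ℝ) ^ κ₁)
    (hlarge : 50 * (3 / (κ₁ / 2) + 1) * Real.log (10 ^ 8 * (Q : ℝ) ^ 9) ≤
      Real.log N / 2 - Real.log 2)
    (hA0 : 0 < A) (hAR : A ≤ R) (hB0 : 0 < B) (hBN : B ≤ N) (hAB : Nat.Coprime A B)
    (hB : Typ N P₀ κ₁ θ B) (hx : 0 < x) (hy : 0 < y) (hz : q₀ ^ q₀ ≤ z) (hC : 0 < C)
    (h : A ^ x + B ^ y = C ^ z ∨ A ^ x + C ^ z = B ^ y ∨ B ^ y + C ^ z = A ^ x) :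
    B ∈ BadP (κ₁ / 2) N q₀ Q R P ∪ BadR (κ₁ / 2) N q₀ Q R := by
  obtain ⟨p, hp, hpl, hpu, hpB⟩ := hB.mid
  obtain ⟨p', hp'P, hp', hp'3, hp'B⟩ := hB.three
  obtain ⟨q, U, hqp, hqq, hU0, hUq, hqU⟩ := exists_q (by omega : 2 ≤ q₀) hz hC
  obtain ⟨x₂, hx2, hAx, hx1⟩ : ∃ x₂ : ℕ, 0 < x₂ ∧ A ^ x₂ = A ^ x ∧ (A = 1 → q ∣ x₂) := by
    by_cases h1 : A = 1
    · exact ⟨q, by omega, by rw [h1]; simp, fun _ => dvd_rfl⟩
    · exact ⟨x, hx, rfl, fun h2 => absurd h2 h1⟩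
  obtain ⟨s, σ, hs, hσ, heq⟩ : ∃ s σ : ℤ, (s = 1 ∨ s = -1) ∧ (σ = 1 ∨ σ = -1) ∧
      (U : ℤ) ^ q - s * (A : ℤ) ^ x₂ = σ * (B : ℤ) ^ y := by
    have e1 : (U : ℤ) ^ q = (C : ℤ) ^ z := by exact_mod_cast hUq
    have e2 : (A : ℤ) ^ x₂ = (A : ℤ) ^ x := by exact_mod_cast hAx
    rw [e1, e2]
    rcases h with h | h | h
    · have h' : (A : ℤ) ^ x + (B : ℤ) ^ y = (C : ℤ) ^ z := by exact_mod_cast h
      exact ⟨1, 1, Or.inl rfl, Or.inl rfl, by rw [← h']; ring⟩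
    · have h' : (A : ℤ) ^ x + (C : ℤ) ^ z = (B : ℤ) ^ y := by exact_mod_cast h
      exact ⟨-1, 1, Or.inr rfl, Or.inl rfl, by rw [← h']; ring⟩
    · have h' : (B : ℤ) ^ y + (C : ℤ) ^ z = (A : ℤ) ^ x := by exact_mod_cast h
      exact ⟨1, -1, Or.inl rfl, Or.inr rfl, by rw [← h']; ring⟩
  have hqQ : q ≤ Q := by
    rcases hqU with h4 | h4 | ⟨hqprime, hU2⟩
    · exact h4.trans hQ1
    · exact h4.trans hQ2
    · apply hQ
      have hp3' : 3 ≤ p' := by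
        have := hp'.two_le
        rcases Nat.lt_or_ge p' 3 with h | h
        · have : p' = 2 := by omega
          subst this
          norm_num at hp'3
        · exact h
      exact q_bound hs hσ hqprime (by omega) hA0 (hAR.trans hRN) hAB hB0 hBN hx2 hx1 hy hU2 hp'
        hp3' hp'P hp'B heq
  have hqpos : 0 < q := hqp.pos
  have hx2q : q * (x₂ / q) + x₂ % q = x₂ := Nat.div_add_mod x₂ q
  -- sizes
  have hNR : (0 : ℝ) < N := by exact_mod_cast hN1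
  have hBR : (0 : ℝ) < B := by exact_mod_cast hB0
  have hlogB : 0 ≤ Real.log B := Real.log_natCast_nonneg B
  have hy1 : (1 : ℝ) ≤ y := by exact_mod_cast hy
  have hHge : B ^ y ≤ 2 * ht q A U x₂ := by
    have h1 : (B : ℤ) ^ y ≤ (U : ℤ) ^ q + (A : ℤ) ^ x₂ := by
      have hB1 : (0 : ℤ) ≤ (B : ℤ) ^ y := by positivity
      have hA1 : (0 : ℤ) ≤ (A : ℤ) ^ x₂ := by positivity
      have hU1 : (0 : ℤ) ≤ (U : ℤ) ^ q := by positivity
      rcases hs with rfl | rfl <;> rcases hσ with rfl | rfl <;> linarith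
    have h2 : B ^ y ≤ U ^ q + A ^ x₂ := by exact_mod_cast h1
    have h3 : U ^ q ≤ ht q A U x₂ := le_max_left _ _
    have h4 : A ^ x₂ ≤ ht q A U x₂ := le_max_right _ _
    omega
  have hH0 : 0 < ht q A U x₂ := lt_of_lt_of_le (pow_pos hU0 q) (le_max_left _ _)
  have hH0R : (0 : ℝ) < ht q A U x₂ := by exact_mod_cast hH0
  have hlogH : 0 ≤ Real.log (ht q A U x₂) := Real.log_natCast_nonneg _
  have hHlog : y * Real.log B ≤ Real.log 2 + Real.log (ht q A U x₂) := by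
    rw [← Real.log_pow, ← Real.log_mul (by norm_num) hH0R.ne']
    apply Real.log_le_log (by positivity)
    exact_mod_cast hHge
  have hBbig : Real.log N / 2 ≤ Real.log B := by
    have h1 : (N : ℝ) ≤ (B : ℝ) ^ 2 := by exact_mod_cast hB.big
    have h2 := Real.log_le_log hNR h1
    rw [Real.log_pow] at h2
    push_cast at h2
    linarith
  have hyB : Real.log B ≤ y * Real.log B := le_mul_of_one_le_left hlogB hy1
  have hlg : 50 * (3 / (κ₁ / 2) + 1) * Real.log (10 ^ 8 * (q : ℝ) ^ 9) ≤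
      Real.log (ht q A U x₂) := by
    have h1 : Real.log (10 ^ 8 * (q : ℝ) ^ 9) ≤ Real.log (10 ^ 8 * (Q : ℝ) ^ 9) := by
      have hqR : (0 : ℝ) < q := by exact_mod_cast hqpos
      have hqQR : (q : ℝ) ≤ Q := by exact_mod_cast hqQ
      apply Real.log_le_log (by positivity)
      gcongr
    have h2 : (0 : ℝ) ≤ 50 * (3 / (κ₁ / 2) + 1) := by positivity
    have h3 := mul_le_mul_of_nonneg_left h1 h2
    linarith
  rcases le_or_gt (Real.log (ht q A U x₂)) (2 * (y * Real.log B)) with hcase | hcase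
  · left
    have hQp : Q < p := by
      have : (Q : ℝ) < p := hQκ.trans_lt hpl
      exact_mod_cast this
    refine ⟨A, q, x₂ % q, p, s, σ, hA0, hAR, hqp, hqq, hqQ, Nat.mod_lt _ hqpos, hs, hσ, hp,
      hP p hpu, hQp, hB0, hBN, hpB, hAB, hB.np, x₂ / q, y, U, hy, hU0, ?_, ?_, ?_⟩
    · rw [hx2q]; exact heq
    · rw [hx2q]
      have h1 : κ₁ * Real.log N ≤ Real.log p := by
        rw [← Real.log_rpow hNR]
        exact Real.log_le_log (Real.rpow_pos_of_pos hNR _) hpl.le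
      have h2 : Real.log B ≤ Real.log N := Real.log_le_log hBR (by exact_mod_cast hBN)
      calc κ₁ / 2 * Real.log (ht q A U x₂) ≤ κ₁ / 2 * (2 * (y * Real.log B)) := by gcongr
        _ = y * (κ₁ * Real.log B) := by ring
        _ ≤ y * (κ₁ * Real.log N) := by gcongr
        _ ≤ y * Real.log p := by gcongr
    · rw [hx2q]; exact hlg
  · right
    have hs1 : s = 1 := by
      rcases hs with h1 | h1
      · exact h1
      · exfalso
        rw [h1] at heq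
        have h2 : U ^ q + A ^ x₂ ≤ B ^ y := by
          have hA1 : (0 : ℤ) ≤ (A : ℤ) ^ x₂ := by positivity
          have hU1 : (0 : ℤ) ≤ (U : ℤ) ^ q := by positivity
          have hB1 : (0 : ℤ) ≤ (B : ℤ) ^ y := by positivity
          have : (U : ℤ) ^ q + (A : ℤ) ^ x₂ ≤ (B : ℤ) ^ y := by
            rcases hσ with rfl | rfl <;> linarith
          exact_mod_cast this
        have h3 : ht q A U x₂ ≤ B ^ y := by
          unfold ht
          apply max_le <;> omega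
        have h4 : Real.log (ht q A U x₂) ≤ y * Real.log B := by
          rw [← Real.log_pow]
          apply Real.log_le_log hH0R
          exact_mod_cast h3
        have h5 : 0 ≤ y * Real.log B := by positivity
        linarith
    refine ⟨A, q, x₂ % q, σ, hA0, hAR, hqp, hqq, hqQ, Nat.mod_lt _ hqpos, hσ, hB0, hBN, hAB,
      hB.np, x₂ / q, y, U, hy, hU0, ?_, ?_, ?_⟩
    · rw [hx2q]
      rw [hs1, one_mul] at heq
      exact heq
    · rw [hx2q]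
      have h1 : (1 / 2 : ℝ) * Real.log (ht q A U x₂) ≤
          (1 - κ₁ / 2) * Real.log (ht q A U x₂) := by
        apply mul_le_mul_of_nonneg_right _ hlogH
        linarith
      linarith
    · rw [hx2q]; exact hlg

/-- The set of `B ≤ N` occurring in a solution with some `A ≤ N ^ (1 - ε)` and `z ≥ Z₀`. -/
def AllW (N : ℕ) (ε : ℝ) (Z₀ : ℕ) : Set ℕ :=
  {B : ℕ | 0 < B ∧ B ≤ N ∧ ∃ A x y z C : ℕ, 0 < A ∧ (A : ℝ) ≤ (N : ℝ) ^ (1 - ε) ∧
    Nat.Coprime A B ∧ 0 < x ∧ 0 < y ∧ Z₀ ≤ z ∧ 0 < C ∧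
    (A ^ x + B ^ y = C ^ z ∨ A ^ x + C ^ z = B ^ y ∨ B ^ y + C ^ z = A ^ x)}

theorem main_lt {ε : ℝ} (hε : 0 < ε) (hε1 : ε < 1) : ∃ Z₀ N₀ : ℕ, ∀ N : ℕ, N₀ ≤ N →
    ((AllW N ε Z₀).ncard : ℝ) ≤ ε * N := by
  obtain ⟨κ₁, hκ0, hκθ, N₁, hN₁⟩ := prime_between (ε := ε / 8) (θ := ε / 4) (by positivity)
    (by positivity) (by linarith)
  obtain ⟨P₀, N₂, hN₂⟩ := Gc.three_prime (ε := ε / 8) (by positivity)
  obtain ⟨N₃, hN₃⟩ := T.TaskD2.perfect_powers (ε := ε / 8) (by positivity)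
  obtain ⟨ν₀, hν₀⟩ := q_num P₀
  have hκ1 : κ₁ ≤ 1 := by linarith
  set q₀ : ℕ := ⌈100 / (κ₁ / 2) ^ 2⌉₊ + 3 with hq₀
  have hq₀R : 100 / (κ₁ / 2) ^ 2 ≤ (q₀ : ℝ) := by
    rw [hq₀]
    push_cast
    have := Nat.le_ceil (100 / (κ₁ / 2) ^ 2)
    linarith
  have hq₀3 : 3 ≤ q₀ := by omega
  refine ⟨q₀ ^ q₀, ?_⟩
  -- the exponent for the size of `Q`
  set G : ℝ := 50 * (3 / (κ₁ / 2) + 1) with hG
  have hG0 : 0 < G := by positivity
  set c : ℝ := min (κ₁ / 2) (min (ε / 16) (1 / (72 * G))) with hc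
  have hc0 : 0 < c := by
    rw [hc]
    refine lt_min (by positivity) (lt_min (by positivity) (by positivity))
  have hc1 : c ≤ κ₁ := (min_le_left _ _).trans (by linarith)
  have hc2 : c ≤ ε / 16 := (min_le_right _ _).trans (min_le_left _ _)
  have hc3 : c * (72 * G) ≤ 1 := by
    have h1 : c ≤ 1 / (72 * G) := (min_le_right _ _).trans (min_le_right _ _)
    calc c * (72 * G) ≤ 1 / (72 * G) * (72 * G) := by gcongr
      _ = 1 := by field_simp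
  have e1 := Gc.log_pow_le (k := 4) hc0 (show (0 : ℝ) < 81 by norm_num)
  have e2 := Gc.log_pow_le (k := 0) hc0 (show (0 : ℝ) < (q₀ : ℝ) ^ 2 + 2 ^ q₀ by positivity)
  have e3 := Gc.log_pow_le (k := 0) (show (0 : ℝ) < ε / 4 by positivity)
    (show (0 : ℝ) < 256 / ε by positivity)
  obtain ⟨N₆, hN₆⟩ := eventually_atTop.mp (((e1.and e2).and e3).and
    ((Gc.tendsto_log_nat.eventually (eventually_ge_atTop (max 1 (max (ν₀ : ℝ)
      (4 * (G * Real.log (10 ^ 8) + Real.log 2)))))).and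
      (eventually_ge_atTop (max 2 (⌈(8 / ε) ^ 2⌉₊ + 1)))))
  refine ⟨max N₁ (max N₂ (max N₃ N₆)), fun N hN => ?_⟩
  simp only [max_le_iff] at hN
  obtain ⟨g1, g2, g3, g6⟩ := hN
  obtain ⟨⟨⟨b1, b2⟩, b3⟩, b5, b6⟩ := hN₆ N g6
  rw [pow_zero, mul_one] at b2 b3
  have hN2 : 2 ≤ N := (le_max_left _ _).trans b6
  have hNpos : 0 < N := by omega
  have hNR : (0 : ℝ) < N := by exact_mod_cast hNpos
  have hN1 : (1 : ℝ) ≤ N := by exact_mod_cast hNpos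
  set L := Real.log N with hL
  have hL1 : 1 ≤ L := (le_max_left _ _).trans b5
  have hLν : (ν₀ : ℝ) ≤ L := ((le_max_left _ _).trans (le_max_right _ _)).trans b5
  have hLG : 4 * (G * Real.log (10 ^ 8) + Real.log 2) ≤ L :=
    ((le_max_right _ _).trans (le_max_right _ _)).trans b5
  set ν : ℕ := Nat.log 2 N + 1 with hν
  have hνL : (ν : ℝ) ≤ 3 * L := by
    have e1 : (2 : ℝ) ^ (Nat.log 2 N) ≤ N := by exact_mod_cast Nat.pow_log_le_self 2 (by omega)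
    have e2 := Real.log_le_log (by positivity) e1
    rw [Real.log_pow, ← hL] at e2
    have e3 := Real.log_two_gt_d9
    have e4 : (Nat.log 2 N : ℝ) * (1 / 2) ≤ Nat.log 2 N * Real.log 2 := by
      apply mul_le_mul_of_nonneg_left _ (by positivity)
      linarith
    rw [hν]
    push_cast
    linarith
  have hNν : N < 2 ^ ν := Nat.lt_pow_succ_log_self (by norm_num) N
  have hLν' : L ≤ ν := by
    have e2 : (N : ℝ) < 2 ^ ν := by exact_mod_cast hNν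
    have e3 := Real.log_lt_log hNR e2
    rw [Real.log_pow, ← hL] at e3
    have e4 : Real.log 2 ≤ 1 := by have := Real.log_two_lt_d9; linarith
    calc L ≤ ν * Real.log 2 := e3.le
      _ ≤ ν * 1 := by gcongr
      _ = _ := by ring
  have hνν : ν₀ ≤ ν := by exact_mod_cast hLν.trans hLν'
  -- parameters
  set R : ℕ := ⌊(N : ℝ) ^ (1 - ε)⌋₊ with hR
  have hRle : (R : ℝ) ≤ (N : ℝ) ^ (1 - ε) := Nat.floor_le (Real.rpow_nonneg hNR.le _)
  have hRN : R ≤ N := by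
    have : (R : ℝ) ≤ N := by
      calc (R : ℝ) ≤ (N : ℝ) ^ (1 - ε) := hRle
        _ ≤ (N : ℝ) ^ (1 : ℝ) := Real.rpow_le_rpow_of_exponent_le hN1 (by linarith)
        _ = N := Real.rpow_one _
    exact_mod_cast this
  set P : ℕ := ⌊(N : ℝ) ^ (ε / 4)⌋₊ with hP
  have hPle : (P : ℝ) ≤ (N : ℝ) ^ (ε / 4) := Nat.floor_le (Real.rpow_nonneg hNR.le _)
  set Q : ℕ := ν ^ 4 + (q₀ ^ 2 + 2 ^ q₀) with hQ
  have hQbd : ∀ q : ℕ, q ≤ 10 ^ 9 * P₀ ^ 2 * (Nat.log 2 q + 1) ^ 2 * (Nat.log 2 N + 1) ^ 2 →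
      q ≤ Q := by
    intro q hq
    exact (hν₀ ν q hνν hq).trans (Nat.le_add_right _ _)
  have hQle : (Q : ℝ) ≤ 2 * (N : ℝ) ^ c := by
    rw [hQ]
    push_cast
    have h1 : (ν : ℝ) ^ 4 ≤ (N : ℝ) ^ c := by
      calc (ν : ℝ) ^ 4 ≤ (3 * L) ^ 4 := by gcongr
        _ = 81 * L ^ 4 := by ring
        _ ≤ _ := b1
    linarith
  have hc4 : 2 * c ≤ κ₁ := by
    have h1 : c ≤ κ₁ / 2 := min_le_left _ _
    linarith
  have hNc2 : (2 : ℝ) ≤ (N : ℝ) ^ c := by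
    refine le_trans ?_ b2
    have h1 : (3 : ℝ) ≤ q₀ := by exact_mod_cast hq₀3
    have h2 : (0 : ℝ) < 2 ^ q₀ := by positivity
    nlinarith
  have hQle' : (Q : ℝ) ≤ (N : ℝ) ^ (2 * c) := by
    calc (Q : ℝ) ≤ 2 * (N : ℝ) ^ c := hQle
      _ ≤ (N : ℝ) ^ c * (N : ℝ) ^ c := by gcongr
      _ = (N : ℝ) ^ (2 * c) := by
          rw [← Real.rpow_add hNR]
          congr 1
          ring
  have hQκ : (Q : ℝ) ≤ (N : ℝ) ^ κ₁ :=
    hQle'.trans (Real.rpow_le_rpow_of_exponent_le hN1 hc4)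
  have hQ0 : 0 < Q := by
    have : 0 < 2 ^ q₀ := by positivity
    have h2 : 2 ^ q₀ ≤ Q := by
      rw [hQ]
      exact (Nat.le_add_left _ _).trans (Nat.le_add_left _ _)
    omega
  have hQR0 : (0 : ℝ) < Q := by exact_mod_cast hQ0
  have hlarge : 50 * (3 / (κ₁ / 2) + 1) * Real.log (10 ^ 8 * (Q : ℝ) ^ 9) ≤
      Real.log N / 2 - Real.log 2 := by
    have h0 : Real.log (10 ^ 8 * (Q : ℝ) ^ 9) = Real.log (10 ^ 8) + 9 * Real.log Q := by
      rw [Real.log_mul (by norm_num) (by positivity)]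
      congr 1
      rw [Real.log_pow]
      push_cast
      ring
    rw [← hG, ← hL, h0]
    have h1 : Real.log Q ≤ 2 * c * L := by
      rw [hL, ← Real.log_rpow hNR]
      exact Real.log_le_log hQR0 hQle'
    have h2 : G * (9 * Real.log Q) ≤ G * (9 * (2 * c * L)) := by gcongr
    have h3 : G * (9 * (2 * c * L)) = (c * (72 * G)) * (L / 4) := by ring
    have h4 : (c * (72 * G)) * (L / 4) ≤ 1 * (L / 4) := by
      apply mul_le_mul_of_nonneg_right hc3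
      linarith
    have h5 : G * (Real.log (10 ^ 8) + 9 * Real.log Q) =
        G * Real.log (10 ^ 8) + G * (9 * Real.log Q) := by ring
    rw [h5]
    have h6 : G * (9 * Real.log Q) ≤ L / 4 := by
      calc G * (9 * Real.log Q) ≤ G * (9 * (2 * c * L)) := h2
        _ = (c * (72 * G)) * (L / 4) := h3
        _ ≤ 1 * (L / 4) := h4
        _ = L / 4 := one_mul _
    clear h2 h3 h4 h5
    generalize G * (9 * Real.log Q) = a1 at *
    generalize G * Real.log (10 ^ 8) = a2 at *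
    linarith
  -- the pieces
  have k1 := hN₁ N g1
  have k2 := hN₂ N g2
  have k3 := hN₃ N g3
  have hκ2 : 0 < κ₁ / 2 := by positivity
  have hκ2' : κ₁ / 2 ≤ 1 := by linarith
  obtain ⟨hPfin, k6⟩ := badP_card (N := N) (Q := Q) (R := R) (P := P) hκ2 hκ2' hq₀R
  obtain ⟨hRfin, k7⟩ := badR_card (N := N) (Q := Q) (R := R) hκ2 hκ2' hq₀R
  set S : Set ℕ := {B | 0 < B ∧ B ≤ N ∧ ¬ Typ N P₀ κ₁ (ε / 4) B} with hS
  have hSfin : S.Finite := (Set.finite_Icc 0 N).subset (fun B hB => ⟨Nat.zero_le _, hB.2.1⟩)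
  set T1 : Set ℕ := {B : ℕ | 0 < B ∧ B ≤ N ∧ ∀ p : ℕ, p.Prime → (N : ℝ) ^ κ₁ < p →
    (p : ℝ) ≤ (N : ℝ) ^ (ε / 4) → ¬ p ∣ B} with hT1
  set T2 : Set ℕ := {B : ℕ | 0 < B ∧ B ≤ N ∧ ∀ p : ℕ, p ≤ P₀ → p.Prime → p % 4 = 3 → ¬ p ∣ B} with hT2
  set T3 : Set ℕ := {B : ℕ | 0 < B ∧ B ≤ N ∧ ∃ w k : ℕ, 2 ≤ k ∧ B = w ^ k} with hT3
  set T4 : Set ℕ := Set.Icc 0 (Nat.sqrt N) with hT4
  have hSsub : S ⊆ T1 ∪ (T2 ∪ (T3 ∪ T4)) := by
    rintro B ⟨hB0, hBN, hB⟩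
    by_contra hcon
    simp only [Set.mem_union, not_or] at hcon
    obtain ⟨c1, c2, c3, c4⟩ := hcon
    apply hB
    refine ⟨?_, ?_, ?_, ?_⟩
    · by_contra hn
      apply c1
      exact ⟨hB0, hBN, fun p hp hpl hpu hpB => hn ⟨p, hp, hpl, hpu, hpB⟩⟩
    · by_contra hn
      apply c2
      exact ⟨hB0, hBN, fun p hp hpp hp2 hpB => hn ⟨p, hp, hpp, hp2, hpB⟩⟩
    · intro hn
      exact c3 ⟨hB0, hBN, hn⟩
    · by_contra hn
      apply c4
      refine ⟨Nat.zero_le _, ?_⟩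
      rw [Nat.le_sqrt', ]
      omega
  have hTfin : (T1 ∪ (T2 ∪ (T3 ∪ T4))).Finite := by
    apply (Set.finite_Icc 0 N).subset
    intro B hB
    rcases hB with h | h | h | h
    · exact ⟨Nat.zero_le _, h.2.1⟩
    · exact ⟨Nat.zero_le _, h.2.1⟩
    · exact ⟨Nat.zero_le _, h.2.1⟩
    · exact ⟨Nat.zero_le _, h.2.trans (Nat.sqrt_le_self N)⟩
  have hT4card : (T4.ncard : ℝ) ≤ ε / 4 * N := by
    have h1 : T4.ncard = Nat.sqrt N + 1 := by
      rw [hT4, ← Finset.coe_Icc, Set.ncard_coe_finset, Nat.card_Icc]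
      omega
    rw [h1]
    push_cast
    have h2 : ((Nat.sqrt N : ℕ) : ℝ) ≤ Real.sqrt N := Real.nat_sqrt_le_real_sqrt
    have h3 : (8 / ε) ^ 2 ≤ (N : ℝ) := by
      have h4 : ⌈(8 / ε) ^ 2⌉₊ ≤ N := by
        have := (le_max_right _ _).trans b6
        omega
      exact (Nat.le_ceil _).trans (by exact_mod_cast h4)
    have h4 : 8 / ε ≤ Real.sqrt N := Real.le_sqrt_of_sq_le h3
    have h5 : Real.sqrt N * Real.sqrt N = N := Real.mul_self_sqrt hNR.le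
    have h6 : (1 : ℝ) ≤ Real.sqrt N := by
      rw [Real.one_le_sqrt]
      exact hN1
    have h7 : 8 ≤ Real.sqrt N * ε := by
      rw [div_le_iff₀ hε] at h4
      exact h4
    have h8 : 8 * Real.sqrt N ≤ ε * N := by
      calc 8 * Real.sqrt N ≤ (Real.sqrt N * ε) * Real.sqrt N := by gcongr
        _ = ε * (Real.sqrt N * Real.sqrt N) := by ring
        _ = ε * N := by rw [h5]
    linarith
  have hScard : (S.ncard : ℝ) ≤ (5 * ε / 8) * N := by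
    have h1 := Set.ncard_le_ncard hSsub hTfin
    have h2 := Set.ncard_union_le T1 (T2 ∪ (T3 ∪ T4))
    have h3 := Set.ncard_union_le T2 (T3 ∪ T4)
    have h4 := Set.ncard_union_le T3 T4
    have h6 : S.ncard ≤ T1.ncard + (T2.ncard + (T3.ncard + T4.ncard)) := by omega
    have h7 : (S.ncard : ℝ) ≤ T1.ncard + (T2.ncard + (T3.ncard + T4.ncard)) := by
      exact_mod_cast h6
    linarith
  -- the counts
  have hX1 : (1 : ℝ) ≤ (N : ℝ) ^ (2 * c) := Real.one_le_rpow hN1 (by positivity)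
  have hQ1 : (Q : ℝ) + 1 ≤ 2 * (N : ℝ) ^ (2 * c) := by linarith
  have hfin : 16 * (N : ℝ) ^ (1 - ε / 4) ≤ ε / 16 * N := by
    calc 16 * (N : ℝ) ^ (1 - ε / 4) = ε / 16 * ((256 / ε) * (N : ℝ) ^ (1 - ε / 4)) := by
          field_simp
          ring
      _ ≤ ε / 16 * ((N : ℝ) ^ (ε / 4) * (N : ℝ) ^ (1 - ε / 4)) := by gcongr
      _ = ε / 16 * N := by
          rw [← Real.rpow_add hNR]
          have : ε / 4 + (1 - ε / 4) = 1 := by ring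
          rw [this, Real.rpow_one]
  have k6R : ((BadP (κ₁ / 2) N q₀ Q R P).ncard : ℝ) ≤ ε / 16 * N := by
    have h1 : ((BadP (κ₁ / 2) N q₀ Q R P).ncard : ℝ) ≤
        ((R : ℝ) * (((Q : ℝ) + 1) * (((Q : ℝ) + 1) * (P * 4)))) * Q := by
      exact_mod_cast k6
    have hpow : (N : ℝ) ^ (1 - ε) * ((N : ℝ) ^ (2 * c) * ((N : ℝ) ^ (2 * c) *
        (N : ℝ) ^ (ε / 4))) * (N : ℝ) ^ (2 * c) ≤ (N : ℝ) ^ (1 - ε / 4) := by
      rw [← Real.rpow_add hNR, ← Real.rpow_add hNR, ← Real.rpow_add hNR, ← Real.rpow_add hNR]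
      apply Real.rpow_le_rpow_of_exponent_le hN1
      linarith
    calc ((BadP (κ₁ / 2) N q₀ Q R P).ncard : ℝ) ≤ _ := h1
      _ ≤ ((N : ℝ) ^ (1 - ε) * ((2 * (N : ℝ) ^ (2 * c)) * ((2 * (N : ℝ) ^ (2 * c)) *
            ((N : ℝ) ^ (ε / 4) * 4)))) * (N : ℝ) ^ (2 * c) := by gcongr
      _ = 16 * ((N : ℝ) ^ (1 - ε) * ((N : ℝ) ^ (2 * c) * ((N : ℝ) ^ (2 * c) *
            (N : ℝ) ^ (ε / 4))) * (N : ℝ) ^ (2 * c)) := by ring
      _ ≤ 16 * (N : ℝ) ^ (1 - ε / 4) := by gcongr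
      _ ≤ _ := hfin
  have k7R : ((BadR (κ₁ / 2) N q₀ Q R).ncard : ℝ) ≤ ε / 16 * N := by
    have h1 : ((BadR (κ₁ / 2) N q₀ Q R).ncard : ℝ) ≤
        ((R : ℝ) * (((Q : ℝ) + 1) * (((Q : ℝ) + 1) * 2))) * 1 := by
      exact_mod_cast k7
    have hpow : (N : ℝ) ^ (1 - ε) * ((N : ℝ) ^ (2 * c) * (N : ℝ) ^ (2 * c)) ≤
        (N : ℝ) ^ (1 - ε / 4) := by
      rw [← Real.rpow_add hNR, ← Real.rpow_add hNR]
      apply Real.rpow_le_rpow_of_exponent_le hN1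
      linarith
    calc ((BadR (κ₁ / 2) N q₀ Q R).ncard : ℝ) ≤ _ := h1
      _ ≤ ((N : ℝ) ^ (1 - ε) * ((2 * (N : ℝ) ^ (2 * c)) * ((2 * (N : ℝ) ^ (2 * c)) * 2))) * 1 := by
          gcongr
      _ = 8 * ((N : ℝ) ^ (1 - ε) * ((N : ℝ) ^ (2 * c) * (N : ℝ) ^ (2 * c))) := by ring
      _ ≤ 16 * (N : ℝ) ^ (1 - ε / 4) := by
          have h2 : (0 : ℝ) ≤ (N : ℝ) ^ (1 - ε / 4) := Real.rpow_nonneg hNR.le _
          nlinarith
      _ ≤ _ := hfin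
  have hsub : AllW N ε (q₀ ^ q₀) ⊆
      S ∪ (BadP (κ₁ / 2) N q₀ Q R P ∪ BadR (κ₁ / 2) N q₀ Q R) := by
    rintro B ⟨hB0, hBN, A, x, y, z, C, hA0, hAc, hAB, hx, hy, hz, hC, h⟩
    by_cases hB : Typ N P₀ κ₁ (ε / 4) B
    · right
      exact mem_bad hκ0 hκ1 hq₀3 hNpos hQbd
        ((Nat.le_add_right _ _).trans (Nat.le_add_left _ _))
        ((Nat.le_add_left _ _).trans (Nat.le_add_left _ _)) hRN
        (fun p hp => Nat.le_floor hp) hQκ hlarge hA0 (Nat.le_floor hAc) hB0 hBN hAB hB hx hy hz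
        hC h
    · left
      exact ⟨hB0, hBN, hB⟩
  have h1 := Set.ncard_le_ncard hsub (hSfin.union (hPfin.union hRfin))
  have h2 := Set.ncard_union_le S (BadP (κ₁ / 2) N q₀ Q R P ∪ BadR (κ₁ / 2) N q₀ Q R)
  have h3 := Set.ncard_union_le (BadP (κ₁ / 2) N q₀ Q R P) (BadR (κ₁ / 2) N q₀ Q R)
  have h4 : ((AllW N ε (q₀ ^ q₀)).ncard : ℝ) ≤ S.ncard + ((BadP (κ₁ / 2) N q₀ Q R P).ncard +
      (BadR (κ₁ / 2) N q₀ Q R).ncard) := by
    have : (AllW N ε (q₀ ^ q₀)).ncard ≤ S.ncard + ((BadP (κ₁ / 2) N q₀ Q R P).ncard +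
      (BadR (κ₁ / 2) N q₀ Q R).ncard) := by omega
    exact_mod_cast this
  have h5 : 0 ≤ ε * N := by positivity
  linarith

theorem main {ε : ℝ} (hε : 0 < ε) : ∃ Z₀ N₀ : ℕ, ∀ N : ℕ, N₀ ≤ N →
    ((AllW N ε Z₀).ncard : ℝ) ≤ ε * N := by
  rcases lt_or_ge ε 1 with h | h
  · exact main_lt hε h
  · refine ⟨0, 0, fun N _ => ?_⟩
    have h1 : AllW N ε 0 ⊆ ((Finset.Icc 1 N : Finset ℕ) : Set ℕ) := by
      intro B hB
      rw [Finset.coe_Icc]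
      exact ⟨hB.1, hB.2.1⟩
    have h2 := Set.ncard_le_ncard h1 (Finset.finite_toSet _)
    rw [Set.ncard_coe_finset, Nat.card_Icc, Nat.add_sub_cancel] at h2
    have h3 : ((AllW N ε 0).ncard : ℝ) ≤ N := by exact_mod_cast h2
    have h4 : (0 : ℝ) ≤ N := Nat.cast_nonneg N
    nlinarith

end Pool.Agent.H374R2.W
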